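import Pool.Agent.P.MP_3b226c_al.Defs

set_option autoImplicit false

namespace Pool.Agent.NS

open Finset Equiv
open scoped symmDiff InnerProductSpace ComplexConjugate

/-- completion of a space with a positive semidefinite form -/
private theorem exists_hilbert {E : Type} [AddCommGroup E] [Module ℂ E]
    (c : PreInnerProductSpace.Core ℂ E) :
    ∃ (V : Type) (_ : NormedAddCommGroup V) (_ : InnerProductSpace ℂ V) (_ : CompleteSpace V)
      (e : E →ₗ[ℂ] V), DenseRange e ∧ ∀ x y, ⟪e x, e y⟫_ℂ = c.inner x y := by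
  let _ : SeminormedAddCommGroup E := InnerProductSpace.Core.toSeminormedAddCommGroup (𝕜 := ℂ)
  let _ : InnerProductSpace ℂ E := InnerProductSpace.ofCore c
  refine ⟨UniformSpace.Completion E, inferInstance, inferInstance, inferInstance,
    (UniformSpace.Completion.toComplL (𝕜 := ℂ) (E := E)).toLinearMap, ?_, ?_⟩
  · exact UniformSpace.Completion.denseRange_coe
  · intro x y
    exact UniformSpace.Completion.inner_coe x y

/-- the form on finitely supported functions defined by a positive definite function -/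
@[reducible] private noncomputable def core {G : Type} [Group G] (φ : G → ℂ)
    (hsym : ∀ g, φ g⁻¹ = conj (φ g))
    (hφ : ∀ ν : G →₀ ℂ,
      0 ≤ (∑ g ∈ ν.support, ∑ h ∈ ν.support, conj (ν g) * ν h * φ (g⁻¹ * h)).re) :
    PreInnerProductSpace.Core ℂ (G →₀ ℂ) where
  inner x y := x.sum fun g a => y.sum fun h b => conj a * b * φ (g⁻¹ * h)
  conj_inner_symm x y := by
    rw [Finsupp.sum_comm]
    simp only [map_finsuppSum]
    refine Finsupp.sum_congr fun g _ => Finsupp.sum_congr fun h _ => ?_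
    have h1 : φ (g⁻¹ * h) = conj (φ (h⁻¹ * g)) := by
      rw [← hsym]
      simp
    rw [h1]
    simp [mul_comm]
  re_inner_nonneg x := hφ x
  add_left _ _ _ := by
    rw [Finsupp.sum_add_index'] <;> simp [← Finsupp.sum_add, add_mul]
  smul_left _ _ _ := by
    rw [Finsupp.sum_smul_index] <;> simp [Finsupp.mul_sum, ← mul_assoc]

theorem gns {G : Type} [Group G] (φ : G → ℂ) (hsym : ∀ g, φ g⁻¹ = conj (φ g))
    (hφ : ∀ ν : G →₀ ℂ,
      0 ≤ (∑ g ∈ ν.support, ∑ h ∈ ν.support, conj (ν g) * ν h * φ (g⁻¹ * h)).re) :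
    ∃ (V : Type) (_ : NormedAddCommGroup V) (_ : InnerProductSpace ℂ V) (_ : CompleteSpace V)
      (ρ : G →* (V ≃ₗᵢ[ℂ] V)) (ξ : V), (∀ g h, ⟪ρ g ξ, ρ h ξ⟫_ℂ = φ (g⁻¹ * h)) ∧
      ∀ (η : V) (r : ℝ), 0 < r → ∃ ν : G →₀ ℂ, ‖η - ν.sum (fun g c => c • ρ g ξ)‖ < r := by
  obtain ⟨V, i1, i2, i3, e, hd, he⟩ := exists_hilbert (core φ hsym hφ)
  have he' : ∀ x y : G →₀ ℂ, ⟪e x, e y⟫_ℂ =
      x.sum fun g a => y.sum fun h b => conj a * b * φ (g⁻¹ * h) := he
  let L : G → (G →₀ ℂ) ≃ₗ[ℂ] (G →₀ ℂ) := fun g => Finsupp.domLCongr (Equiv.mulLeft g)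
  have hL : ∀ g k (a : ℂ), L g (Finsupp.single k a) = Finsupp.single (g * k) a := by
    intro g k a
    simp [L]
  have hnorm : ∀ g x, ‖e (L g x)‖ = ‖e x‖ := by
    intro g x
    have h1 : ⟪e (L g x), e (L g x)⟫_ℂ = ⟪e x, e x⟫_ℂ := by
      rw [he', he']
      simp only [L, Finsupp.domLCongr_apply, Finsupp.domCongr_apply, Finsupp.sum_equivMapDomain,
        Equiv.coe_mulLeft, mul_inv_rev, mul_assoc, inv_mul_cancel_left]
    rw [norm_eq_sqrt_re_inner (𝕜 := ℂ), norm_eq_sqrt_re_inner (𝕜 := ℂ), h1]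
  let R : G → (V ≃ₗᵢ[ℂ] V) := fun g => (L g).extendOfIsometry e e hd hd (hnorm g)
  have hR : ∀ g x, R g (e x) = e (L g x) := fun g x =>
    LinearEquiv.extendOfIsometry_eq _ _ _ hd hd (hnorm g) x
  have hmul : ∀ g h, R (g * h) = R g * R h := by
    intro g h
    ext v
    refine hd.induction_on v (isClosed_eq (by fun_prop) (by fun_prop)) fun x => ?_
    rw [LinearIsometryEquiv.coe_mul, Function.comp_apply, hR, hR, hR]
    congr 1
    induction x using Finsupp.induction_linear with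
    | zero => simp
    | add x y hx hy => simp only [map_add, hx, hy]
    | single k a => rw [hL, hL, hL, mul_assoc]
  let ρ : G →* (V ≃ₗᵢ[ℂ] V) := MonoidHom.mk' R hmul
  have hρ : ∀ g, ρ g (e (Finsupp.single 1 1)) = e (Finsupp.single g 1) := by
    intro g
    have := hR g (Finsupp.single 1 1)
    rw [hL, mul_one] at this
    exact this
  refine ⟨V, i1, i2, i3, ρ, e (Finsupp.single 1 1), ?_, ?_⟩
  · intro g h
    rw [hρ, hρ, he']
    simp
  · intro η r hr
    obtain ⟨ν, hν⟩ := hd.exists_dist_lt η hr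
    refine ⟨ν, ?_⟩
    have h2 : ν.sum (fun g c => c • ρ g (e (Finsupp.single 1 1))) = e ν := by
      conv_rhs => rw [← Finsupp.sum_single ν, map_finsuppSum]
      refine Finsupp.sum_congr fun g _ => ?_
      rw [hρ, ← map_smul]
      simp
    rw [h2, ← dist_eq_norm]
    exact hν

theorem le_closure {G : Type} [Group G] (H S : Set G) (C : ℝ) (hK : Kaz H S C) :
    ∀ h ∈ H, h ∈ Subgroup.closure S := by
  classical
  set K : Subgroup G := Subgroup.closure S with hKdef
  let φ : G → ℂ := fun g => if g ∈ K then 1 else 0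
  have hsym : ∀ g, φ g⁻¹ = conj (φ g) := by
    intro g
    simp only [φ, inv_mem_iff]
    split_ifs <;> simp
  have hφ : ∀ ν : G →₀ ℂ,
      0 ≤ (∑ g ∈ ν.support, ∑ h ∈ ν.support, conj (ν g) * ν h * φ (g⁻¹ * h)).re := by
    intro ν
    let p : G → G ⧸ K := QuotientGroup.mk
    let s : G ⧸ K → ℂ := fun q => ∑ h ∈ ν.support with p h = q, ν h
    have h1 : ∀ g, ∑ h ∈ ν.support, conj (ν g) * ν h * φ (g⁻¹ * h) = conj (ν g) * s (p g) := by
      intro g
      simp only [s, Finset.sum_filter, Finset.mul_sum]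
      refine Finset.sum_congr rfl fun h _ => ?_
      have h2 : p h = p g ↔ g⁻¹ * h ∈ K := by
        rw [eq_comm]
        exact QuotientGroup.eq
      simp only [φ, h2]
      split_ifs <;> simp
    simp only [h1]
    rw [← Finset.sum_fiberwise_of_maps_to (t := ν.support.image p) (g := p)
      (fun x hx => Finset.mem_image_of_mem p hx), Complex.re_sum]
    refine Finset.sum_nonneg fun q _ => ?_
    have h3 : ∑ g ∈ ν.support with p g = q, conj (ν g) * s (p g) = conj (s q) * s q := by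
      rw [Finset.sum_congr rfl (g := fun g => conj (ν g) * s q), ← Finset.sum_mul, ← map_sum]
      intro g hg
      rw [(Finset.mem_filter.mp hg).2]
    rw [h3, Complex.conj_mul']
    norm_cast
    positivity
  obtain ⟨V, i1, i2, i3, ρ, ξ, hi, -⟩ := gns φ hsym hφ
  have h1 : ∀ g, ⟪ξ, ρ g ξ⟫_ℂ = φ g := by
    intro g
    simpa using hi 1 g
  have h0 : ⟪ξ, ξ⟫_ℂ = 1 := by
    simpa [φ] using h1 1
  have hξ : ‖ξ‖ = 1 := by
    rw [norm_eq_sqrt_re_inner (𝕜 := ℂ), h0]
    simp
  have hfix : ∀ s ∈ S, ‖ρ s ξ - ξ‖ ≤ 0 := by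
    intro s hs
    have h2 : ⟪ξ, ρ s ξ⟫_ℂ = 1 := by
      have hs' : s ∈ K := Subgroup.subset_closure hs
      rw [h1]
      simp [φ, hs']
    have h3 := (inner_eq_one_iff_of_norm_eq_one (𝕜 := ℂ) hξ (by simpa using hξ)).mp h2
    rw [← h3]
    simp
  intro h hh
  have h4 := hK V ρ ξ 0 le_rfl hfix h hh
  rw [mul_zero, norm_le_zero_iff, sub_eq_zero] at h4
  have h5 := h1 h
  rw [h4, h0] at h5
  by_contra hn
  simp [φ, hn] at h5

end Pool.Agent.NS
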