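import Pool.Agent.P.MP_3b226c_al.Hilb
import Pool.Agent.P.MP_3b226c_al.GNS

set_option autoImplicit false

namespace Pool.Agent.NS

open Finset Equiv
open scoped symmDiff InnerProductSpace ComplexConjugate

/-- the quadratic form attached to a function on the group -/
noncomputable def approx_Q {G : Type} [Group G] (φ : G → ℂ) (μ : G →₀ ℂ) : ℝ :=
  (∑ g ∈ μ.support, ∑ h ∈ μ.support, conj (μ g) * μ h * φ (g⁻¹ * h)).re

theorem approx_norm {G W : Type} [Group G] [NormedAddCommGroup W] [InnerProductSpace ℂ W]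
    (v : G → W) (φ : G → ℂ) (μ : G →₀ ℂ)
    (h : ∀ g ∈ μ.support, ∀ h ∈ μ.support, ⟪v g, v h⟫_ℂ = φ (g⁻¹ * h)) :
    ‖Finsupp.linearCombination ℂ v μ‖ ^ 2 = approx_Q φ μ := by
  rw [← inner_self_eq_norm_sq (𝕜 := ℂ), Finsupp.linearCombination_apply, Finsupp.sum, sum_inner]
  unfold approx_Q
  rw [RCLike.re_to_complex]
  congr 1
  refine sum_congr rfl fun g hg => ?_
  rw [inner_sum]
  refine sum_congr rfl fun k hk => ?_
  rw [inner_smul_left, inner_smul_right, h g hg k hk, mul_assoc]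

open Filter Topology in
theorem approx_tendsto {G ι : Type} [Group G] {l : Filter ι} {ψ : ι → G → ℂ} {φ : G → ℂ}
    (h : ∀ g, Tendsto (fun i => ψ i g) l (𝓝 (φ g))) (μ : G →₀ ℂ) :
    Tendsto (fun i => approx_Q (ψ i) μ) l (𝓝 (approx_Q φ μ)) := by
  unfold approx_Q
  refine (Complex.continuous_re.tendsto _).comp ?_
  refine tendsto_finsetSum _ fun g _ => tendsto_finsetSum _ fun k _ => ?_
  exact (h _).const_mul _

theorem approx_lc1 {G W : Type} [Group G] [AddCommGroup W] [Module ℂ W] (v : G → W)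
    (ν : G →₀ ℂ) :
    Finsupp.linearCombination ℂ v (ν - Finsupp.single 1 1) =
      ν.sum (fun g c => c • v g) - v 1 := by
  rw [map_sub, Finsupp.linearCombination_single, one_smul, Finsupp.linearCombination_apply]

theorem approx_lc2 {G W : Type} [Group G] [AddCommGroup W] [Module ℂ W] (v : G → W) (s : G) :
    Finsupp.linearCombination ℂ v (Finsupp.single s 1 - Finsupp.single 1 1) = v s - v 1 := by
  rw [map_sub, Finsupp.linearCombination_single, Finsupp.linearCombination_single, one_smul,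
    one_smul]

theorem approx_lc3 {G W : Type} [Group G] [AddCommGroup W] [Module ℂ W] (v : G → W)
    (ν : G →₀ ℂ) (s : G) :
    Finsupp.linearCombination ℂ v (ν.mapDomain (fun g => s * g) - ν) =
      ν.sum (fun g c => c • v (s * g)) - ν.sum (fun g c => c • v g) := by
  rw [map_sub, Finsupp.linearCombination_mapDomain, Finsupp.linearCombination_apply,
    Finsupp.linearCombination_apply]
  rfl

/-- the statement for a positive definite function on the whole group -/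
theorem approx_global {G : Type} [Group G] (H : Subgroup G) (S : Finset G)
    (hS : ∀ s ∈ S, s ∈ H) (C : ℝ) (hK : Kaz (H : Set G) (S : Set G) C) (η : ℝ) (hη : 0 < η)
    (φ : G → ℂ) (hsym : ∀ g, φ g⁻¹ = conj (φ g)) (hφ : ∀ μ : G →₀ ℂ, 0 ≤ approx_Q φ μ) :
    ∃ ν : G →₀ ℂ, approx_Q φ (ν - Finsupp.single 1 1) <
        2 * C ^ 2 * ∑ s ∈ S, approx_Q φ (Finsupp.single s 1 - Finsupp.single 1 1) + η ∧
      ∀ s ∈ S, approx_Q φ (ν.mapDomain (fun g => s * g) - ν) < η := by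
  obtain ⟨V, _, _, _, ρ, ξ, hin, hden⟩ := gns φ hsym hφ
  have hQ : ∀ μ : G →₀ ℂ,
      approx_Q φ μ = ‖Finsupp.linearCombination ℂ (fun g => ρ g ξ) μ‖ ^ 2 :=
    fun μ => (approx_norm (fun g => ρ g ξ) φ μ fun g _ h _ => hin g h).symm
  have h1 : ρ 1 ξ = ξ := by rw [map_one]; rfl
  obtain ⟨E, hE⟩ : ∃ E, E = ∑ s ∈ S, ‖ρ s ξ - ξ‖ ^ 2 := ⟨_, rfl⟩
  have hE0 : 0 ≤ E := hE ▸ sum_nonneg fun s _ => sq_nonneg _
  have hs : ∀ s ∈ (S : Set G), ‖ρ s ξ - ξ‖ ≤ √E := by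
    intro s hs
    apply Real.le_sqrt_of_sq_le
    rw [hE]
    exact single_le_sum (f := fun s => ‖ρ s ξ - ξ‖ ^ 2) (fun s _ => sq_nonneg _) hs
  obtain ⟨ζ, hζ, hζ'⟩ := exists_fixed ρ H ξ (C * √E)
    (hK V ρ ξ (√E) (Real.sqrt_nonneg _) hs)
  have hr : 0 < √η / 2 := by positivity
  have hr2 : (√η / 2) ^ 2 = η / 4 := by rw [div_pow, Real.sq_sqrt hη.le]; norm_num
  obtain ⟨r, hrd⟩ : ∃ r, r = √η / 2 := ⟨_, rfl⟩
  rw [← hrd] at hr hr2
  obtain ⟨ν, hν⟩ := hden ζ r hr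
  obtain ⟨w, hw⟩ : ∃ w, w = ν.sum (fun g c => c • ρ g ξ) := ⟨_, rfl⟩
  refine ⟨ν, ?_, fun s hs => ?_⟩
  · simp only [hQ, approx_lc2]
    simp only [approx_lc1, h1]
    rw [← hE, ← hw]
    rw [← hw] at hν
    have h2 : ‖w - ξ‖ ≤ C * √E + r := by
      have : w - ξ = -(ξ - ζ) - (ζ - w) := by abel
      rw [this]
      refine (norm_sub_le _ _).trans ?_
      rw [norm_neg]
      linarith
    have h3 : ‖w - ξ‖ ^ 2 ≤ (C * √E + r) ^ 2 := pow_le_pow_left₀ (norm_nonneg _) h2 2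
    have h4 : (C * √E) ^ 2 = C ^ 2 * E := by rw [mul_pow, Real.sq_sqrt hE0]
    nlinarith [sq_nonneg (C * √E - r)]
  · rw [hQ, approx_lc3]
    have h2 : ν.sum (fun g c => c • ρ (s * g) ξ) = ρ s w := by
      rw [hw, Finsupp.sum, Finsupp.sum, map_sum]
      refine sum_congr rfl fun g _ => ?_
      rw [map_smul, map_mul]
      rfl
    rw [h2, ← hw]
    rw [← hw] at hν
    have h3 : ‖ρ s w - w‖ < 2 * r := by
      have : ρ s w - w = -(ρ s (ζ - w)) + (ζ - w) := by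
        rw [map_sub, hζ s (hS s hs)]; abel
      rw [this]
      refine (norm_add_le _ _).trans_lt ?_
      rw [norm_neg, LinearIsometryEquiv.norm_map]
      linarith
    have h4 : ‖ρ s w - w‖ ^ 2 < (2 * r) ^ 2 := pow_lt_pow_left₀ h3 (norm_nonneg _) two_ne_zero
    nlinarith

open Filter Topology in
theorem approx_core {G : Type} [Group G] (H : Subgroup G) (S : Finset G)
    (hS : ∀ s ∈ S, s ∈ H) (C : ℝ) (hK : Kaz (H : Set G) (S : Set G) C) (η : ℝ) (hη : 0 < η) :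
    ∃ A : Finset G, 1 ∈ A ∧ S ⊆ A ∧ ∀ φ : G → ℂ, (∀ g, ‖φ g‖ ≤ 1) →
      (∀ g ∈ A, φ g⁻¹ = conj (φ g)) → (∀ μ : G →₀ ℂ, μ.support ⊆ A → 0 ≤ approx_Q φ μ) →
      ∃ ν : G →₀ ℂ, (∀ g ∈ ν.support, g ∈ A ∧ ∀ s ∈ S, s * g ∈ A) ∧
        approx_Q φ (ν - Finsupp.single 1 1) ≤
          2 * C ^ 2 * ∑ s ∈ S, approx_Q φ (Finsupp.single s 1 - Finsupp.single 1 1) + η ∧
        ∀ s ∈ S, approx_Q φ (ν.mapDomain (fun g => s * g) - ν) ≤ η := by
  classical
  by_contra hcon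
  have hex : ∀ A : Finset G, ∃ φ : G → ℂ, (∀ g, ‖φ g‖ ≤ 1) ∧
      (∀ g ∈ A, φ g⁻¹ = conj (φ g)) ∧ (∀ μ : G →₀ ℂ, μ.support ⊆ A → 0 ≤ approx_Q φ μ) ∧
      ¬ ∃ ν : G →₀ ℂ, (∀ g ∈ ν.support, g ∈ A ∧ ∀ s ∈ S, s * g ∈ A) ∧
        approx_Q φ (ν - Finsupp.single 1 1) ≤
          2 * C ^ 2 * ∑ s ∈ S, approx_Q φ (Finsupp.single s 1 - Finsupp.single 1 1) + η ∧
        ∀ s ∈ S, approx_Q φ (ν.mapDomain (fun g => s * g) - ν) ≤ η := by
    intro A
    by_contra h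
    apply hcon
    refine ⟨A ∪ insert 1 S, by simp, fun s hs => by simp [hs], fun φ h1 h2 h3 => ?_⟩
    by_contra h4
    apply h
    refine ⟨φ, h1, fun g hg => h2 g (mem_union_left _ hg),
      fun μ hμ => h3 μ (hμ.trans subset_union_left), ?_⟩
    rintro ⟨ν, h5, h6⟩
    exact h4 ⟨ν, fun g hg => ⟨mem_union_left _ (h5 g hg).1,
      fun s hs => mem_union_left _ ((h5 g hg).2 s hs)⟩, h6⟩
  choose ψ h1 h2 h3 h4 using hex
  obtain ⟨U, hU⟩ : ∃ U : Ultrafilter (Finset G), (U : Filter (Finset G)) ≤ atTop :=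
    ⟨Ultrafilter.of atTop, Ultrafilter.of_le _⟩
  have hlim : ∀ g, ∃ z : ℂ, Tendsto (fun A => ψ A g) U (𝓝 z) := by
    intro g
    obtain ⟨z, -, hz⟩ := (isCompact_closedBall (0 : ℂ) 1).ultrafilter_le_nhds
      (U.map fun A => ψ A g) (by
        rw [Ultrafilter.coe_map, le_principal_iff, Filter.mem_map]
        exact Eventually.of_forall fun A => mem_closedBall_zero_iff.2 (h1 A g))
    exact ⟨z, hz⟩
  choose φ hφ using hlim
  have hev : ∀ B : Finset G, ∀ᶠ A in (U : Filter (Finset G)), B ⊆ A :=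
    fun B => hU (eventually_ge_atTop B)
  have hsym : ∀ g, φ g⁻¹ = conj (φ g) := by
    intro g
    refine tendsto_nhds_unique (hφ g⁻¹) ?_
    refine ((Complex.continuous_conj.tendsto _).comp (hφ g)).congr' ?_
    filter_upwards [hev {g}] with A hA
    exact (h2 A g (hA (mem_singleton_self g))).symm
  have hpos : ∀ μ : G →₀ ℂ, 0 ≤ approx_Q φ μ := by
    intro μ
    refine ge_of_tendsto (approx_tendsto hφ μ) ?_
    filter_upwards [hev μ.support] with A hA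
    exact h3 A μ hA
  obtain ⟨ν, hν1, hν2⟩ := approx_global H S hS C hK η hη φ hsym hpos
  have e1 := (approx_tendsto hφ (ν - Finsupp.single 1 1)).eventually_lt
    (((tendsto_finsetSum S fun s _ =>
      approx_tendsto hφ (Finsupp.single s 1 - Finsupp.single 1 1)).const_mul
        (2 * C ^ 2)).add_const η) hν1
  have e2 : ∀ᶠ A in (U : Filter (Finset G)), ∀ s ∈ S,
      approx_Q (ψ A) (ν.mapDomain (fun g => s * g) - ν) < η :=
    (eventually_all_finset S).2 fun s hs =>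
      (approx_tendsto hφ _).eventually_lt tendsto_const_nhds (hν2 s hs)
  obtain ⟨A, a1, a2, a3, a4⟩ := (e1.and (e2.and ((hev ν.support).and
    (hev (S.biUnion fun s => ν.support.image fun g => s * g))))).exists
  refine h4 A ⟨ν, fun g hg => ⟨a3 hg, fun s hs => a4 ?_⟩, a1.le, fun s hs => (a2 s hs).le⟩
  exact mem_biUnion.2 ⟨s, hs, mem_image_of_mem _ hg⟩

theorem approx {G : Type} [Group G] (H : Subgroup G) (S : Finset G) (hS : ∀ s ∈ S, s ∈ H) (C : ℝ)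
    (hK : Kaz (H : Set G) (S : Set G) C) (η : ℝ) (hη : 0 < η) :
    ∃ A : Finset G, 1 ∈ A ∧ S ⊆ A ∧
      ∀ (W : Type) [NormedAddCommGroup W] [InnerProductSpace ℂ W] (v : G → W) (φ : G → ℂ),
        (∀ g, ‖φ g‖ ≤ 1) → φ 1 = 1 → (∀ g ∈ A, ∀ h ∈ A, ⟪v g, v h⟫_ℂ = φ (g⁻¹ * h)) →
        ∃ ν : G →₀ ℂ, (∀ g ∈ ν.support, g ∈ A ∧ ∀ s ∈ S, s * g ∈ A) ∧
          ‖ν.sum (fun g c => c • v g) - v 1‖ ^ 2 ≤ 2 * C ^ 2 * ∑ s ∈ S, ‖v s - v 1‖ ^ 2 + η ∧
          ∀ s ∈ S, ‖ν.sum (fun g c => c • v (s * g)) - ν.sum (fun g c => c • v g)‖ ^ 2 ≤ η := by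
  classical
  obtain ⟨A, hA1, hAS, hA⟩ := approx_core H S hS C hK η hη
  refine ⟨A, hA1, hAS, fun W _ _ v φ h1 _ h3 => ?_⟩
  have hQ : ∀ μ : G →₀ ℂ, μ.support ⊆ A →
      approx_Q φ μ = ‖Finsupp.linearCombination ℂ v μ‖ ^ 2 :=
    fun μ hμ => (approx_norm v φ μ fun g hg h hh => h3 g (hμ hg) h (hμ hh)).symm
  have hsub : ∀ μ μ' : G →₀ ℂ, μ.support ⊆ A → μ'.support ⊆ A → (μ - μ').support ⊆ A :=
    fun μ μ' h h' => Finsupp.support_sub.trans (union_subset h h')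
  have hsingle : ∀ g ∈ A, (Finsupp.single g (1 : ℂ)).support ⊆ A :=
    fun g hg => Finsupp.support_single_subset.trans (singleton_subset_iff.2 hg)
  obtain ⟨ν, hν, hν1, hν2⟩ := hA φ h1 (fun g hg => by
      have e1 := h3 g hg 1 hA1
      have e2 := h3 1 hA1 g hg
      rw [mul_one] at e1
      rw [inv_one, one_mul] at e2
      rw [← e1, ← e2, inner_conj_symm])
    (fun μ hμ => by rw [hQ μ hμ]; exact sq_nonneg _)
  have hνA : ν.support ⊆ A := fun g hg => (hν g hg).1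
  refine ⟨ν, hν, ?_, fun s hs => ?_⟩
  · rw [hQ _ (hsub _ _ hνA (hsingle 1 hA1)), approx_lc1] at hν1
    refine hν1.trans (le_of_eq ?_)
    congr 2
    refine sum_congr rfl fun s hs => ?_
    rw [hQ _ (hsub _ _ (hsingle s (hAS hs)) (hsingle 1 hA1)), approx_lc2]
  · have h5 := hν2 s hs
    rw [hQ _ (hsub _ _ ?_ hνA), approx_lc3] at h5
    · exact h5
    · refine Finsupp.mapDomain_support.trans fun g hg => ?_
      obtain ⟨k, hk, rfl⟩ := mem_image.1 hg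
      exact (hν k hk).2 s hs

end Pool.Agent.NS
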