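import Pool.Agent.P.MP_3b226c_al.Improve

set_option autoImplicit false
set_option linter.unusedSectionVars false

namespace Pool.Agent.NS

open Finset Equiv
open scoped symmDiff InnerProductSpace ComplexConjugate

variable {G X : Type} [Group G] [Fintype X] [DecidableEq X]

/-- counting helper: a set covered by a set and the preimage of another set under a permutation -/
theorem clu_card_le (A B C : Finset X) (g : Perm X) (h : ∀ x ∈ A, x ∈ B ∨ g x ∈ C) :
    (A.card : ℝ) ≤ B.card + C.card := by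
  have h1 : A ⊆ B ∪ C.image g.symm := by
    intro x hx
    rcases h x hx with h' | h'
    · exact mem_union_left _ h'
    · exact mem_union_right _ (mem_image.2 ⟨g x, h', by simp⟩)
  have h2 : A.card ≤ B.card + C.card :=
    (card_le_card h1).trans ((card_union_le _ _).trans (Nat.add_le_add_left card_image_le _))
  exact_mod_cast h2

theorem dfc_mul (σ : G → Perm X) (S : Finset G) (D : Finset X) (f g : Perm X) :
    dfc σ S D (f * g) ≤ dfc σ S D f + dfc σ S D g := by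
  unfold dfc
  rw [add_comm]
  apply clu_card_le _ _ _ g
  intro x hx
  rw [mem_filter] at hx
  obtain ⟨hxD, hx⟩ := hx
  by_cases hg : g x ∉ D ∨ ∃ s ∈ S, g (σ s x) ≠ σ s (g x)
  · exact Or.inl (mem_filter.2 ⟨hxD, hg⟩)
  · right
    push Not at hg
    refine mem_filter.2 ⟨hg.1, ?_⟩
    rcases hx with hx | ⟨s, hs, hx⟩
    · exact Or.inl hx
    · refine Or.inr ⟨s, hs, ?_⟩
      rw [← hg.2 s hs]
      simpa [Perm.mul_apply, hg.2 s hs] using hx

theorem dfc_one (σ : G → Perm X) (S : Finset G) (D : Finset X) : dfc σ S D 1 = 0 := by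
  unfold dfc
  rw [Nat.cast_eq_zero, card_eq_zero, filter_eq_empty_iff]
  intro x hx
  simp [hx]

theorem dfc_inv (σ : G → Perm X) (S : Finset G) (D : Finset X) (f : Perm X) :
    dfc σ S D f⁻¹ ≤ dfc σ S D f := by
  unfold dfc
  have h1 := card_filter_add_card_filter_not (s := D)
    (fun x => f x ∉ D ∨ ∃ s ∈ S, f (σ s x) ≠ σ s (f x))
  have h2 := card_filter_add_card_filter_not (s := D)
    (fun x => f⁻¹ x ∉ D ∨ ∃ s ∈ S, f⁻¹ (σ s x) ≠ σ s (f⁻¹ x))
  have h3 : (D.filter fun x => ¬ (f x ∉ D ∨ ∃ s ∈ S, f (σ s x) ≠ σ s (f x))).card ≤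
      (D.filter fun x => ¬ (f⁻¹ x ∉ D ∨ ∃ s ∈ S, f⁻¹ (σ s x) ≠ σ s (f⁻¹ x))).card := by
    apply card_le_card_of_injOn f
    · intro x hx
      rw [mem_coe, mem_filter] at hx ⊢
      obtain ⟨hxD, hx⟩ := hx
      push Not at hx ⊢
      refine ⟨hx.1, by simpa using hxD, fun s hs => ?_⟩
      rw [← hx.2 s hs]
      simp
    · exact f.injective.injOn
  have h4 : (D.filter fun x => f⁻¹ x ∉ D ∨ ∃ s ∈ S, f⁻¹ (σ s x) ≠ σ s (f⁻¹ x)).card ≤
      (D.filter fun x => f x ∉ D ∨ ∃ s ∈ S, f (σ s x) ≠ σ s (f x)).card := by omega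
  exact_mod_cast h4

theorem clu_hd_nonneg (D : Finset X) (f g : Perm X) : 0 ≤ hd D f g := Nat.cast_nonneg _

theorem clu_hd_self (D : Finset X) (f : Perm X) : hd D f f = 0 := by
  simp [hd]

theorem clu_hd_comm (D : Finset X) (f g : Perm X) : hd D f g = hd D g f := by
  unfold hd
  congr 2
  exact filter_congr fun x _ => ne_comm

theorem clu_hd_triangle (D : Finset X) (f g h : Perm X) : hd D f h ≤ hd D f g + hd D g h := by
  unfold hd
  apply clu_card_le _ _ _ 1
  intro x hx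
  rw [mem_filter] at hx
  by_cases h1 : f x = g x
  · right
    refine mem_filter.2 ⟨hx.1, ?_⟩
    simpa [← h1] using hx.2
  · exact Or.inl (mem_filter.2 ⟨hx.1, h1⟩)

theorem clu_hd_mul_left (D : Finset X) (f g g' : Perm X) : hd D (f * g) (f * g') = hd D g g' := by
  unfold hd
  congr 2
  exact filter_congr fun x _ => by simp [Perm.mul_apply]

theorem clu_hd_mul_right (σ : G → Perm X) (S : Finset G) (D : Finset X) (f f' g : Perm X) :
    hd D (f * g) (f' * g) ≤ dfc σ S D g + hd D f f' := by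
  unfold hd dfc
  apply clu_card_le _ _ _ g
  intro x hx
  rw [mem_filter] at hx
  by_cases h1 : g x ∈ D
  · exact Or.inr (mem_filter.2 ⟨h1, hx.2⟩)
  · exact Or.inl (mem_filter.2 ⟨hx.1, Or.inl h1⟩)

theorem clu_hd_conj (D D' : Finset X) (π f g : Perm X) :
    hd D' (π * f * π⁻¹) (π * g * π⁻¹) ≤ out π⁻¹ D' D + hd D f g := by
  unfold hd out
  apply clu_card_le _ _ _ π⁻¹
  intro x hx
  rw [mem_filter] at hx
  by_cases h1 : π⁻¹ x ∈ D
  · right
    refine mem_filter.2 ⟨h1, fun h => hx.2 ?_⟩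
    simp only [Perm.mul_apply, h]
  · exact Or.inl (mem_filter.2 ⟨hx.1, h1⟩)

theorem clu_hd_conj' (D D' : Finset X) (π f g : Perm X) :
    hd D f g ≤ out π D D' + hd D' (π * f * π⁻¹) (π * g * π⁻¹) := by
  have h := clu_hd_conj D' D π⁻¹ (π * f * π⁻¹) (π * g * π⁻¹)
  have e1 : π⁻¹ * (π * f * π⁻¹) * π⁻¹⁻¹ = f := by group
  have e2 : π⁻¹ * (π * g * π⁻¹) * π⁻¹⁻¹ = g := by group
  rw [e1, e2, inv_inv] at h
  exact h

theorem clu_card_out (D D' : Finset X) (π : Perm X) : (D.card : ℝ) ≤ out π D D' + D'.card := by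
  unfold out
  apply clu_card_le _ _ _ π
  intro x hx
  by_cases h1 : π x ∈ D'
  · exact Or.inr h1
  · exact Or.inl (mem_filter.2 ⟨hx, h1⟩)

/-- the abstract construction of the group of clusters -/
theorem cluster_aux (σ : G → Perm X) (S : Finset G) (D : Finset X) (δ₁ δ : ℝ) (hne : D.Nonempty)
    (h0 : 0 ≤ δ₁) (h2 : 2 * δ₁ ≤ δ) (h3 : 100 * δ ≤ 1)
    (hgap : ∀ f g, dfc σ S D f ≤ 2 * δ * D.card → dfc σ S D g ≤ 2 * δ * D.card →
      100 * hd D f g ≤ D.card ∨ 99 * (D.card : ℝ) ≤ 100 * hd D f g)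
    (himp : ∀ f, dfc σ S D f ≤ 2 * δ * D.card →
      ∃ f' : Perm X, dfc σ S D f' ≤ δ₁ * D.card ∧ 20 * hd D f f' ≤ D.card) :
    Nonempty (Clu σ S D δ₁ δ) := by
  classical
  have hn : (0 : ℝ) < D.card := by exact_mod_cast hne.card_pos
  have hδ0 : 0 ≤ δ := by linarith
  have hc1 : ∀ f, dfc σ S D f ≤ δ * D.card → dfc σ S D f ≤ 2 * δ * D.card := fun f hf => by
    have : 0 ≤ δ * D.card := by positivity
    linarith
  have hc2 : ∀ f, dfc σ S D f ≤ δ₁ * D.card → dfc σ S D f ≤ δ * D.card := fun f hf => by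
    have : δ₁ * D.card ≤ δ * D.card := by gcongr; linarith
    linarith
  have hsm : ∀ f g, dfc σ S D f ≤ 2 * δ * D.card → dfc σ S D g ≤ 2 * δ * D.card →
      2 * hd D f g ≤ D.card → 100 * hd D f g ≤ D.card := fun f g hf hg h => by
    rcases hgap f g hf hg with h' | h'
    · exact h'
    · linarith
  let C := {f : Perm X // dfc σ S D f ≤ 2 * δ * D.card}
  let r : Setoid C :=
    { r := fun f g => 2 * hd D f.1 g.1 ≤ D.card
      iseqv :=
        { refl := fun f => by rw [clu_hd_self]; linarith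
          symm := fun {f g} h => by rwa [clu_hd_comm]
          trans := fun {f g k} h h' => by
            have a1 := hsm _ _ f.2 g.2 h
            have a2 := hsm _ _ g.2 k.2 h'
            have a3 := clu_hd_triangle D f.1 g.1 k.1
            linarith } }
  have hone : dfc σ S D 1 ≤ 2 * δ * D.card := by rw [dfc_one]; positivity
  let A := Quotient r
  let cl : Perm X → A := fun f =>
    if h : dfc σ S D f ≤ 2 * δ * D.card then Quotient.mk r ⟨f, h⟩ else Quotient.mk r ⟨1, hone⟩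
  have heq : ∀ f g, dfc σ S D f ≤ 2 * δ * D.card → dfc σ S D g ≤ 2 * δ * D.card →
      (cl f = cl g ↔ 2 * hd D f g ≤ D.card) := fun f g hf hg => by
    simp only [cl, dif_pos hf, dif_pos hg]
    exact Quotient.eq
  have hsurj : ∀ a : A, ∃ f, dfc σ S D f ≤ δ₁ * D.card ∧ cl f = a := fun a => by
    induction a using Quotient.inductionOn with
    | h f =>
      obtain ⟨f', h1, h2⟩ := himp f.1 f.2
      refine ⟨f', h1, ?_⟩
      have e : cl f.1 = Quotient.mk r f := dif_pos f.2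
      rw [← e, heq _ _ (hc1 _ (hc2 _ h1)) f.2, clu_hd_comm]
      linarith
  choose rep hrep hrep' using hsurj
  have hmulc : ∀ f g, dfc σ S D f ≤ δ * D.card → dfc σ S D g ≤ δ * D.card →
      dfc σ S D (f * g) ≤ 2 * δ * D.card := fun f g hf hg => by
    have := dfc_mul σ S D f g
    linarith
  have hmulf : ∀ f g, dfc σ S D f ≤ δ₁ * D.card → dfc σ S D g ≤ δ₁ * D.card →
      dfc σ S D (f * g) ≤ δ * D.card := fun f g hf hg => by
    have h4 := dfc_mul σ S D f g
    have h5 : 2 * δ₁ * D.card ≤ δ * D.card := by gcongr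
    linarith
  have hkey : ∀ f g, dfc σ S D f ≤ δ * D.card → dfc σ S D g ≤ δ * D.card →
      cl (f * g) = cl (rep (cl f) * rep (cl g)) := fun f g hf hg => by
    have hf' := hc2 _ (hrep (cl f))
    have hg' := hc2 _ (hrep (cl g))
    have a1 := hsm _ _ (hc1 _ hf) (hc1 _ hf') ((heq _ _ (hc1 _ hf) (hc1 _ hf')).1 (hrep' _).symm)
    have a2 := hsm _ _ (hc1 _ hg) (hc1 _ hg') ((heq _ _ (hc1 _ hg) (hc1 _ hg')).1 (hrep' _).symm)
    rw [heq _ _ (hmulc _ _ hf hg) (hmulc _ _ hf' hg')]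
    have a3 := clu_hd_triangle D (f * g) (f * rep (cl g)) (rep (cl f) * rep (cl g))
    rw [clu_hd_mul_left] at a3
    have a4 := clu_hd_mul_right σ S D f (rep (cl f)) (rep (cl g))
    have a5 : 100 * δ * D.card ≤ 1 * D.card := by gcongr
    linarith
  let _ : Mul A := ⟨fun a b => cl (rep a * rep b)⟩
  let _ : One A := ⟨cl 1⟩
  let _ : Inv A := ⟨fun a => cl (rep a)⁻¹⟩
  have hmul : ∀ f g, dfc σ S D f ≤ δ * D.card → dfc σ S D g ≤ δ * D.card →
      cl (f * g) = cl f * cl g := hkey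
  have hone' : dfc σ S D 1 ≤ δ * D.card := by rw [dfc_one]; positivity
  let grp : Group A := Group.ofLeftAxioms
    (fun a b c => by
      rw [← hrep' a, ← hrep' b, ← hrep' c, ← hmul _ _ (hc2 _ (hrep a)) (hc2 _ (hrep b)),
        ← hmul _ _ (hc2 _ (hrep b)) (hc2 _ (hrep c)),
        ← hmul _ _ (hmulf _ _ (hrep a) (hrep b)) (hc2 _ (hrep c)),
        ← hmul _ _ (hc2 _ (hrep a)) (hmulf _ _ (hrep b) (hrep c)), mul_assoc])
    (fun a => by
      show cl 1 * a = a
      rw [← hrep' a, ← hmul _ _ hone' (hc2 _ (hrep a)), one_mul])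
    (fun a => by
      show cl (rep a)⁻¹ * a = cl 1
      conv_lhs => rw [← hrep' a]
      rw [hrep' a]
      have e := hmul (rep a)⁻¹ (rep a) ((dfc_inv σ S D _).trans (hc2 _ (hrep a))) (hc2 _ (hrep a))
      rw [hrep' a, inv_mul_cancel] at e
      exact e.symm)
  exact ⟨{ A := A
           grp := grp
           fin := Quotient.finite r
           cl := cl
           eq_iff := heq
           gap := hgap
           mul := hmul
           surj := fun a => ⟨rep a, hrep a, hrep' a⟩ }⟩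

theorem cluster (σ : G → Perm X) (S F : Finset G) (γ ε η δ δ₁ : ℝ) (hγ : 0 < γ) (hγ1 : γ ≤ 1)
    (hε : 0 ≤ ε) (hεη : ε ≤ η) (hLT : LT S F γ ε) (D : Finset X) (hne : D.Nonempty)
    (hD : Nice σ S F γ D) (hbd : bd σ S D ≤ η * D.card)
    (hδ : 1000 * (S.card + 1) * δ ≤ γ) (h1 : 7 * (S.card + 1) * η ≤ γ * δ₁) (h2 : 2 * δ₁ ≤ δ) :
    Nonempty (Clu σ S D δ₁ δ) := by
  have hd0 : (0 : ℝ) ≤ S.card := Nat.cast_nonneg _
  have hη : 0 ≤ η := hε.trans hεη
  have hδ₁ : 0 ≤ δ₁ := by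
    have : 0 ≤ γ * δ₁ := le_trans (by positivity) h1
    exact nonneg_of_mul_nonneg_right this hγ |> fun h => by
      by_contra hneg
      push Not at hneg
      nlinarith
  have hδ0 : 0 ≤ δ := by linarith
  have hdδ : 0 ≤ S.card * δ := by positivity
  have hdη : 0 ≤ S.card * η := by positivity
  have hδ1 : 1000 * δ ≤ γ := by nlinarith
  have hdδ1 : 1000 * (S.card * δ) ≤ γ := by nlinarith
  have hη1 : 14000 * η ≤ γ := by
    have a1 : 7 * η ≤ γ * δ₁ := by nlinarith
    have a2 : γ * δ₁ ≤ γ * (1 / 2000) := by gcongr; linarith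
    linarith
  refine cluster_aux σ S D δ₁ δ hne hδ₁ h2 (by linarith) (fun f g hf hg => ?_) (fun f hf => ?_)
  · exact gap σ S γ η (2 * δ) hγ D hD.1 hbd (by linarith) f g hf hg
  · exact improve σ S F γ ε η (2 * δ) δ₁ hγ hγ1 hε hεη hLT D hD hbd (by linarith) (by linarith) h1
      f hf

theorem transport (σ : G → Perm X) (S : Finset G) (D D' : Finset X) (δ₁ δ : ℝ)
    (c : Clu σ S D δ₁ δ) (c' : Clu σ S D' δ₁ δ) (π : Perm X) (hne : D.Nonempty)
    (h0 : 0 ≤ δ₁) (h2 : 2 * δ₁ ≤ δ)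
    (ho : 100 * out π D D' ≤ D.card) (ho' : 100 * out π⁻¹ D' D ≤ D'.card)
    (hf : ∀ f, dfc σ S D f ≤ 2 * δ₁ * D.card → dfc σ S D' (π * f * π⁻¹) ≤ δ * D'.card)
    (f : Perm X) (hf1 : dfc σ S D f ≤ δ₁ * D.card) :
    orderOf (c'.cl (π * f * π⁻¹)) = orderOf (c.cl f) := by
  have hn : (0 : ℝ) < D.card := by exact_mod_cast hne.card_pos
  have hδ0 : 0 ≤ δ := by linarith
  have b1 := clu_card_out D D' π
  have b2 := clu_card_out D' D π⁻¹
  have hn' : (0 : ℝ) < D'.card := by linarith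
  have hc1 : ∀ g, dfc σ S D g ≤ 2 * δ₁ * D.card → dfc σ S D g ≤ δ * D.card := fun g hg => by
    have : 2 * δ₁ * D.card ≤ δ * D.card := by gcongr
    linarith
  have hc2 : ∀ g, dfc σ S D g ≤ δ₁ * D.card → dfc σ S D g ≤ 2 * δ₁ * D.card := fun g hg => by
    have : 0 ≤ δ₁ * D.card := by positivity
    linarith
  have hc3 : ∀ g, dfc σ S D g ≤ δ * D.card → dfc σ S D g ≤ 2 * δ * D.card := fun g hg => by
    have : 0 ≤ δ * D.card := by positivity
    linarith
  have hc4 : ∀ g, dfc σ S D' g ≤ δ * D'.card → dfc σ S D' g ≤ 2 * δ * D'.card := fun g hg => by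
    have : 0 ≤ δ * D'.card := by positivity
    linarith
  have hiff : ∀ g k, dfc σ S D g ≤ 2 * δ₁ * D.card → dfc σ S D k ≤ 2 * δ₁ * D.card →
      (c.cl g = c.cl k ↔ c'.cl (π * g * π⁻¹) = c'.cl (π * k * π⁻¹)) := fun g k hg hk => by
    have hg1 := hc3 _ (hc1 _ hg)
    have hk1 := hc3 _ (hc1 _ hk)
    have hg2 := hc4 _ (hf _ hg)
    have hk2 := hc4 _ (hf _ hk)
    rw [c.eq_iff _ _ hg1 hk1, c'.eq_iff _ _ hg2 hk2]
    have a1 := clu_hd_conj D D' π g k
    have a2 := clu_hd_conj' D D' π g k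
    constructor
    · intro h
      rcases c.gap _ _ hg1 hk1 with h' | h' <;> linarith
    · intro h
      rcases c'.gap _ _ hg2 hk2 with h' | h' <;> linarith
  choose rep hrep hrep' using c.surj
  let θ : c.A →* c'.A := MonoidHom.mk' (fun a => c'.cl (π * rep a * π⁻¹)) (fun a b => by
    have hab : dfc σ S D (rep a * rep b) ≤ 2 * δ₁ * D.card := by
      have h4 := dfc_mul σ S D (rep a) (rep b)
      have h5 := hrep a
      have h6 := hrep b
      linarith
    have e1 : c.cl (rep (a * b)) = c.cl (rep a * rep b) := by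
      rw [c.mul _ _ (hc1 _ (hc2 _ (hrep a))) (hc1 _ (hc2 _ (hrep b))), hrep', hrep', hrep']
    rw [(hiff _ _ (hc2 _ (hrep _)) hab).1 e1,
      ← c'.mul _ _ (hf _ (hc2 _ (hrep a))) (hf _ (hc2 _ (hrep b)))]
    congr 1
    group)
  have hθ : Function.Injective θ := fun a b hab => by
    have := (hiff _ _ (hc2 _ (hrep a)) (hc2 _ (hrep b))).2 hab
    rwa [hrep', hrep'] at this
  have e : θ (c.cl f) = c'.cl (π * f * π⁻¹) :=
    (hiff _ _ (hc2 _ (hrep _)) (hc2 _ hf1)).1 (hrep' _)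
  rw [← e, orderOf_injective θ hθ]

end Pool.Agent.NS
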