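import Pool.Agent.P.MP_3b226c_al.Defs

set_option autoImplicit false

namespace Pool.Agent.NS

open Finset Equiv
open scoped symmDiff InnerProductSpace ComplexConjugate

lemma count_card_le {X : Type} [DecidableEq X] (π : Perm X) (E A B : Finset X)
    (h : ∀ x ∈ A, x ∉ E → π x ∈ B) : A.card ≤ B.card + E.card := by
  have h1 : (A \ E).card ≤ B.card := by
    apply Finset.card_le_card_of_injOn π
    · intro x hx
      rw [Finset.mem_coe, Finset.mem_sdiff] at hx
      exact h x hx.1 hx.2
    · exact π.injective.injOn
  have h2 : A.card ≤ (A \ E).card + E.card := Finset.card_le_card_sdiff_add_card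
  omega

lemma count_chain {X : Type} [Fintype X] [DecidableEq X] (P : ℕ → Finset X) (K e : ℕ)
    (hd : ∀ i < K, ∀ j < K, i ≠ j → Disjoint (P i) (P j))
    (hs : ∀ j, j + 1 < K → (P j).card ≤ (P (j + 1)).card + e) :
    K * (P 0).card ≤ Fintype.card X + K * (K * e) := by
  have h1 : ∀ j, j < K → (P 0).card ≤ (P j).card + j * e := by
    intro j
    induction j with
    | zero => intro _; simp
    | succ j ih =>
      intro hj
      have h2 := ih (by omega)
      have h3 := hs j hj
      have h4 : (j + 1) * e = j * e + e := by ring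
      omega
  have h2 : ∑ j ∈ range K, (P j).card ≤ Fintype.card X := by
    rw [← Finset.card_biUnion]
    · exact Finset.card_le_univ _
    · intro i hi j hj hij
      exact hd i (Finset.mem_range.1 (Finset.mem_coe.1 hi)) j
        (Finset.mem_range.1 (Finset.mem_coe.1 hj)) hij
  have h3 : ∑ _j ∈ range K, (P 0).card ≤ ∑ j ∈ range K, ((P j).card + K * e) := by
    apply Finset.sum_le_sum
    intro j hj
    have hj' := Finset.mem_range.1 hj
    have h4 := h1 j hj'
    have h5 : j * e ≤ K * e := Nat.mul_le_mul_right e hj'.le
    omega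
  rw [Finset.sum_add_distrib, Finset.sum_const, Finset.sum_const, Finset.card_range, smul_eq_mul,
    smul_eq_mul] at h3
  omega

theorem count {X : Type} [Fintype X] [DecidableEq X] [Nonempty X] (α β γ : X → ℕ)
    (a s v : Perm X) (E : Finset X) (hE : 1000000 * E.card ≤ Fintype.card X)
    (hu : ∀ x ∉ E, α x = β x ∨ β x = γ x ∨ γ x = α x)
    (ha : ∀ x ∉ E, α (a x) - 1 = α x ∧ β (a x) = β x - 1)
    (hs : ∀ x ∉ E, β (s x) = α x ∧ γ (s x) = β x ∧ α (s x) = γ x)
    (hv : ∀ x ∉ E, α x = 0 → α (v x) = 1) : False := by
  have hN : 0 < Fintype.card X := Fintype.card_pos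
  -- level sets of α
  have hlev : ∀ m : ℕ, (univ.filter fun x => α x = m).card ≤
      (univ.filter fun x => α x = m + 1).card + E.card := by
    intro m
    rcases Nat.eq_zero_or_pos m with rfl | hm
    · apply count_card_le v
      intro x hx hxE
      simp only [Finset.mem_filter, Finset.mem_univ, true_and] at hx ⊢
      simpa using hv x hxE hx
    · apply count_card_le a
      intro x hx hxE
      simp only [Finset.mem_filter, Finset.mem_univ, true_and] at hx ⊢
      have := (ha x hxE).1
      omega
  have hn : ∀ m : ℕ, 100 * (univ.filter fun x => α x = m).card ≤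
      Fintype.card X + 100 * (100 * E.card) := by
    intro m
    have := count_chain (fun j => univ.filter fun x => α x = m + j) 100 E.card
      (by
        intro i _ j _ hij
        rw [Finset.disjoint_filter]
        intro x _ h1 h2
        omega)
      (by
        intro j _
        exact hlev (m + j))
    simpa using this
  -- the sets C j
  have hC : 4 * (univ.filter fun x => α x = β x ∧ 4 ≤ β x).card ≤
      Fintype.card X + 4 * (4 * E.card) := by
    have := count_chain (fun j => univ.filter fun x => α x = β x + 2 * j ∧ 4 ≤ β x + j) 4 E.card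
      (by
        intro i _ j _ hij
        rw [Finset.disjoint_filter]
        intro x _ h1 h2
        omega)
      (by
        intro j hj
        apply count_card_le a
        intro x hx hxE
        simp only [Finset.mem_filter, Finset.mem_univ, true_and] at hx ⊢
        have := ha x hxE
        omega)
    simpa using this
  have hA : (univ.filter fun x => α x = β x).card ≤
      (univ.filter fun x => α x = β x ∧ 4 ≤ β x).card +
        ((univ.filter fun x => α x = 0).card + ((univ.filter fun x => α x = 1).card +
          ((univ.filter fun x => α x = 2).card + (univ.filter fun x => α x = 3).card))) := by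
    refine le_trans (Finset.card_le_card (t := (univ.filter fun x => α x = β x ∧ 4 ≤ β x) ∪
      ((univ.filter fun x => α x = 0) ∪ ((univ.filter fun x => α x = 1) ∪
        ((univ.filter fun x => α x = 2) ∪ (univ.filter fun x => α x = 3))))) ?_) ?_
    · intro x hx
      simp only [Finset.mem_filter, Finset.mem_univ, true_and, Finset.mem_union] at hx ⊢
      omega
    · refine le_trans (Finset.card_union_le _ _) (Nat.add_le_add_left ?_ _)
      refine le_trans (Finset.card_union_le _ _) (Nat.add_le_add_left ?_ _)
      refine le_trans (Finset.card_union_le _ _) (Nat.add_le_add_left ?_ _)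
      exact Finset.card_union_le _ _
  have hB1 : (univ.filter fun x => γ x = α x).card ≤
      (univ.filter fun x => α x = β x).card + E.card := by
    apply count_card_le s
    intro x hx hxE
    simp only [Finset.mem_filter, Finset.mem_univ, true_and] at hx ⊢
    have := hs x hxE
    omega
  have hB2 : (univ.filter fun x => β x = γ x).card ≤
      (univ.filter fun x => γ x = α x).card + E.card := by
    apply count_card_le s
    intro x hx hxE
    simp only [Finset.mem_filter, Finset.mem_univ, true_and] at hx ⊢
    have := hs x hxE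
    omega
  have hT : Fintype.card X ≤ E.card + ((univ.filter fun x => α x = β x).card +
      ((univ.filter fun x => β x = γ x).card + (univ.filter fun x => γ x = α x).card)) := by
    rw [← Finset.card_univ]
    refine le_trans (Finset.card_le_card (t := E ∪ ((univ.filter fun x => α x = β x) ∪
      ((univ.filter fun x => β x = γ x) ∪ (univ.filter fun x => γ x = α x)))) ?_) ?_
    · intro x _
      simp only [Finset.mem_filter, Finset.mem_univ, true_and, Finset.mem_union]
      by_cases hx : x ∈ E
      · exact Or.inl hx
      · exact Or.inr (hu x hx)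
    · refine le_trans (Finset.card_union_le _ _) (Nat.add_le_add_left ?_ _)
      refine le_trans (Finset.card_union_le _ _) (Nat.add_le_add_left ?_ _)
      exact Finset.card_union_le _ _
  have h0 := hn 0
  have h1 := hn 1
  have h2 := hn 2
  have h3 := hn 3
  omega

lemma val_mul_le {A : Type} [Group A] [Finite A] (x y : A) (h : Commute x y) :
    padicValNat 2 (orderOf (x * y)) ≤
      max (padicValNat 2 (orderOf x)) (padicValNat 2 (orderOf y)) := by
  have hx : orderOf x ≠ 0 := (orderOf_pos x).ne'
  have hy : orderOf y ≠ 0 := (orderOf_pos y).ne'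
  have hxy : orderOf (x * y) ≠ 0 := (orderOf_pos _).ne'
  have hd := h.orderOf_mul_dvd_lcm
  have hl : Nat.lcm (orderOf x) (orderOf y) ≠ 0 := Nat.lcm_ne_zero hx hy
  have h1 := (Nat.factorization_le_iff_dvd hxy hl).2 hd 2
  rw [Nat.factorization_lcm hx hy, Finsupp.sup_apply, Nat.factorization_def _ Nat.prime_two,
    Nat.factorization_def _ Nat.prime_two, Nat.factorization_def _ Nat.prime_two] at h1
  exact h1

theorem val_ultra {A : Type} [Group A] [Finite A] (y₁ y₂ y₃ : A) (h12 : Commute y₁ y₂)
    (h : y₁ * y₂ * y₃ = 1) :
    padicValNat 2 (orderOf y₁) = padicValNat 2 (orderOf y₂) ∨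
      padicValNat 2 (orderOf y₂) = padicValNat 2 (orderOf y₃) ∨
      padicValNat 2 (orderOf y₃) = padicValNat 2 (orderOf y₁) := by
  have e3 : y₃ = (y₁ * y₂)⁻¹ := (inv_eq_of_mul_eq_one_right h).symm
  have c13 : Commute y₁ y₃ := by
    rw [e3]; exact ((Commute.refl y₁).mul_right h12).inv_right
  have c23 : Commute y₂ y₃ := by
    rw [e3]; exact (h12.symm.mul_right (Commute.refl y₂)).inv_right
  have e1 : y₁ = (y₂ * y₃)⁻¹ := by
    rw [eq_inv_iff_mul_eq_one, ← mul_assoc]; exact h
  have e2 : y₂ = (y₁ * y₃)⁻¹ := by
    rw [eq_inv_iff_mul_eq_one, ← mul_assoc, ← h12.eq]; exact h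
  have i3 := val_mul_le y₁ y₂ h12
  have i1 := val_mul_le y₂ y₃ c23
  have i2 := val_mul_le y₁ y₃ c13
  rw [← orderOf_inv, ← e3] at i3
  rw [← orderOf_inv, ← e1] at i1
  rw [← orderOf_inv, ← e2] at i2
  omega

theorem val_sq {A : Type} [Group A] [Finite A] (y : A) :
    padicValNat 2 (orderOf (y * y)) = padicValNat 2 (orderOf y) - 1 := by
  rw [← pow_two, orderOf_pow' y two_ne_zero]
  by_cases h2 : 2 ∣ orderOf y
  · rw [Nat.gcd_eq_right h2]
    exact padicValNat.div h2
  · have hc : Nat.gcd (orderOf y) 2 = 1 :=
      ((Nat.Prime.coprime_iff_not_dvd Nat.prime_two).2 h2).symm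
    rw [hc, Nat.div_one, padicValNat.eq_zero_of_not_dvd h2]

theorem val_c {A : Type} [Group A] [Finite A] (y c : A) (hyc : Commute y c) (hc : c * c = 1)
    (hc1 : c ≠ 1) (h : padicValNat 2 (orderOf (y * c)) = 0) : padicValNat 2 (orderOf y) = 1 := by
  have hoc : orderOf c = 2 := orderOf_eq_prime (by rw [pow_two]; exact hc) hc1
  have hpos : orderOf (y * c) ≠ 0 := (orderOf_pos _).ne'
  have hnd : ¬ 2 ∣ orderOf (y * c) := by
    intro hd
    have := one_le_padicValNat_of_dvd hpos hd
    omega
  have hcomm : Commute (y * c) c := hyc.mul_left (Commute.refl c)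
  have hcop : (orderOf (y * c)).Coprime (orderOf c) := by
    rw [hoc]
    exact ((Nat.Prime.coprime_iff_not_dvd Nat.prime_two).2 hnd).symm
  have ho := hcomm.orderOf_mul_eq_mul_orderOf_of_coprime hcop
  rw [mul_assoc, hc, mul_one, hoc] at ho
  rw [ho, padicValNat.mul hpos two_ne_zero, h, padicValNat_self]

end Pool.Agent.NS
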