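import Pool.Agent.P.MP_3b226c_al.Defs

set_option autoImplicit false

namespace Pool.Agent.NS

open Finset Equiv
open scoped symmDiff InnerProductSpace ComplexConjugate

section aux

variable {G X : Type} [Group G] [Fintype X] [DecidableEq X]

omit [Group G] [Fintype X] in
private theorem dec_bd_nonneg (σ : G → Perm X) (S : Finset G) (T : Finset X) : 0 ≤ bd σ S T :=
  Finset.sum_nonneg fun _ _ => Nat.cast_nonneg _

private theorem dec_card_pre (π : Perm X) (U : Finset X) :
    (univ.filter fun x => π x ∈ U).card = U.card := by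
  refine Finset.card_bij (fun x _ => π x) (fun x hx => (Finset.mem_filter.1 hx).2)
    (fun a _ b _ h => π.injective h) (fun y hy => ⟨π.symm y, by simpa using hy, by simp⟩)

/-- a permutation moves as many points into `U` as out of `U` -/
private theorem dec_enter (π : Perm X) (U : Finset X) :
    (univ.filter fun x => x ∉ U ∧ π x ∈ U).card = (U.filter fun x => π x ∉ U).card := by
  have h1 := dec_card_pre π U
  have h2 := Finset.card_filter_add_card_filter_not (s := univ.filter fun x => π x ∈ U)
    (fun x => x ∈ U)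
  have h3 := Finset.card_filter_add_card_filter_not (s := U) (fun x => π x ∈ U)
  have e1 : ((univ.filter fun x => π x ∈ U).filter fun x => x ∈ U) =
      U.filter fun x => π x ∈ U := by
    ext x; simp [and_comm]
  have e2 : ((univ.filter fun x => π x ∈ U).filter fun x => ¬ x ∈ U) =
      univ.filter fun x => x ∉ U ∧ π x ∈ U := by
    ext x; simp [and_comm]
  rw [e1, e2] at h2
  omega

/-- edges inside `W` that change the label -/
private def inn (l : X → Finset X) (π : Perm X) (W : Finset X) : ℝ :=
  ((W.filter fun x => π x ∈ W ∧ l (π x) ≠ l x).card : ℝ)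

private theorem dec_ind (S F : Finset G) (γ ε : ℝ) (hε : 0 ≤ ε) (hLT : LT S F γ ε)
    (σ : G → Perm X) (n : ℕ) : ∀ W : Finset X, W.card = n → (∀ x ∈ W, Good σ F x) →
    ∃ (l : X → Finset X) (R : Finset X), R ⊆ W ∧ (∀ x ∈ W, x ∈ l x) ∧ (∀ x ∈ W, l x ⊆ W) ∧
      (∀ x ∈ W, ∀ z ∈ l x, l z = l x) ∧ (∀ x ∈ W, x ∉ R → Exp σ S γ (l x)) ∧
      (∀ x ∈ R, l x = R) ∧ γ * R.card ≤ bd σ S R ∧
      ∑ s ∈ S, inn l (σ s) W ≤ 3 * ε * W.card := by
  classical
  induction n using Nat.strong_induction_on with
  | _ n ih =>
  intro W hWn hW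
  by_cases hex : (W.powerset.filter fun T => T.Nonempty ∧ bd σ S T ≤ γ * T.card).Nonempty
  · obtain ⟨T, hT, hmin⟩ := Finset.exists_min_image _ (fun T : Finset X => T.card) hex
    obtain ⟨hTW, hTne, hTb⟩ : T ⊆ W ∧ T.Nonempty ∧ bd σ S T ≤ γ * T.card := by
      simpa using hT
    obtain ⟨U, hU1, hU2⟩ := hLT X σ T (fun x hx => hW x (hTW hx)) hTb
    set P := U ∩ W with hP
    have hTpos : (0 : ℝ) < T.card := by exact_mod_cast hTne.card_pos
    have hPlow : (T.card : ℝ) ≤ P.card + (U ∆ T).card := by
      have : T ⊆ P ∪ U ∆ T := by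
        intro x hx
        by_cases hxU : x ∈ U
        · exact mem_union_left _ (mem_inter.2 ⟨hxU, hTW hx⟩)
        · exact mem_union_right _ (Finset.mem_symmDiff.2 (Or.inr ⟨hx, hxU⟩))
      exact_mod_cast (card_le_card this).trans (card_union_le _ _)
    have hPup : (P.card : ℝ) ≤ T.card + (U ∆ T).card := by
      have : P ⊆ T ∪ U ∆ T := by
        intro x hx
        by_cases hxT : x ∈ T
        · exact mem_union_left _ hxT
        · exact mem_union_right _ (Finset.mem_symmDiff.2 (Or.inl ⟨(mem_inter.1 hx).1, hxT⟩))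
      exact_mod_cast (card_le_card this).trans (card_union_le _ _)
    have hPW : P ⊆ W := inter_subset_right
    have hPpos : (0 : ℝ) < P.card := by linarith
    have hPpos' : 0 < P.card := by exact_mod_cast hPpos
    have hcard : (W \ P).card + P.card = W.card := card_sdiff_add_card_eq_card hPW
    obtain ⟨l', R, hR, h1, h2, h3, h4, h5, h6, h7⟩ := ih (W \ P).card (by omega) (W \ P) rfl
      (fun x hx => hW x (mem_sdiff.1 hx).1)
    refine ⟨fun x => if x ∈ P then P else l' x, R, hR.trans sdiff_subset, ?_, ?_, ?_, ?_, ?_,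
      h6, ?_⟩
    · intro x hx
      by_cases hxP : x ∈ P
      · simp only [if_pos hxP]; exact hxP
      · simp only [if_neg hxP]; exact h1 x (mem_sdiff.2 ⟨hx, hxP⟩)
    · intro x hx
      by_cases hxP : x ∈ P
      · simp only [if_pos hxP]; exact hPW
      · simp only [if_neg hxP]; exact (h2 x (mem_sdiff.2 ⟨hx, hxP⟩)).trans sdiff_subset
    · intro x hx z hz
      by_cases hxP : x ∈ P
      · simp only [if_pos hxP] at hz ⊢
        rw [if_pos hz]
      · simp only [if_neg hxP] at hz ⊢
        have hx' : x ∈ W \ P := mem_sdiff.2 ⟨hx, hxP⟩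
        rw [if_neg (mem_sdiff.1 (h2 x hx' hz)).2]
        exact h3 x hx' z hz
    · intro x hx hxR
      by_cases hxP : x ∈ P
      · simp only [if_pos hxP]
        intro T' hT' hT'c
        rcases T'.eq_empty_or_nonempty with rfl | hne
        · simpa using dec_bd_nonneg σ S ∅
        · by_contra hlt
          have hmem : T' ∈ W.powerset.filter fun T => T.Nonempty ∧ bd σ S T ≤ γ * T.card := by
            simp only [mem_filter, mem_powerset]
            exact ⟨hT'.trans hPW, hne, (not_le.1 hlt).le⟩
          have := hmin T' hmem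
          have h' : (T.card : ℝ) ≤ T'.card := by exact_mod_cast this
          linarith
      · simp only [if_neg hxP]
        exact h4 x (mem_sdiff.2 ⟨hx, hxP⟩) hxR
    · intro x hx
      simp only [if_neg (mem_sdiff.1 (hR hx)).2]
      exact h5 x hx
    · have hs : ∀ s ∈ S, inn (fun x => if x ∈ P then P else l' x) (σ s) W ≤
          inn l' (σ s) (W \ P) + 2 * out (σ s) U U := by
        intro s _
        have hsub : (W.filter fun x => σ s x ∈ W ∧
            (if σ s x ∈ P then P else l' (σ s x)) ≠ (if x ∈ P then P else l' x)) ⊆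
            (((W \ P).filter fun x => σ s x ∈ W \ P ∧ l' (σ s x) ≠ l' x) ∪
              (U.filter fun x => σ s x ∉ U)) ∪ univ.filter fun x => x ∉ U ∧ σ s x ∈ U := by
          intro x hx
          obtain ⟨hxW, hyW, hne⟩ := mem_filter.1 hx
          by_cases hxP : x ∈ P
          · by_cases hyP : σ s x ∈ P
            · rw [if_pos hxP, if_pos hyP] at hne
              exact absurd rfl hne
            · refine mem_union_left _ (mem_union_right _ (mem_filter.2
                ⟨(mem_inter.1 hxP).1, fun h => hyP (mem_inter.2 ⟨h, hyW⟩)⟩))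
          · by_cases hyP : σ s x ∈ P
            · refine mem_union_right _ (mem_filter.2 ⟨mem_univ _,
                fun h => hxP (mem_inter.2 ⟨h, hxW⟩), (mem_inter.1 hyP).1⟩)
            · rw [if_neg hxP, if_neg hyP] at hne
              exact mem_union_left _ (mem_union_left _ (mem_filter.2
                ⟨mem_sdiff.2 ⟨hxW, hxP⟩, mem_sdiff.2 ⟨hyW, hyP⟩, hne⟩))
        have hc := (card_le_card hsub).trans ((card_union_le _ _).trans
          (Nat.add_le_add_right (card_union_le _ _) _))
        rw [dec_enter] at hc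
        have hc' : inn (fun x => if x ∈ P then P else l' x) (σ s) W ≤
            inn l' (σ s) (W \ P) + out (σ s) U U + out (σ s) U U := by
          unfold inn out
          exact_mod_cast hc
        linarith
      have hsum := Finset.sum_le_sum hs
      rw [Finset.sum_add_distrib, ← Finset.mul_sum] at hsum
      have hb : ∑ s ∈ S, out (σ s) U U = bd σ S U := rfl
      rw [hb] at hsum
      have hcard' : ((W \ P).card : ℝ) + P.card = W.card := by exact_mod_cast hcard
      have h23 : 2 * (T.card : ℝ) ≤ 3 * P.card := by linarith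
      have := mul_le_mul_of_nonneg_left h23 hε
      rw [← hcard']
      nlinarith
  · refine ⟨fun _ => W, W, subset_rfl, fun x hx => hx, fun _ _ => subset_rfl,
      fun _ _ _ _ => rfl, fun x hx hx' => absurd hx hx', fun _ _ => rfl, ?_, ?_⟩
    · rcases W.eq_empty_or_nonempty with rfl | hne
      · simpa using dec_bd_nonneg σ S ∅
      · by_contra hlt
        exact hex ⟨W, by
          simp only [mem_filter, mem_powerset]
          exact ⟨subset_rfl, hne, (not_le.1 hlt).le⟩⟩
    · have : ∑ s ∈ S, inn (fun _ => W) (σ s) W = 0 := by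
        refine Finset.sum_eq_zero fun s _ => ?_
        simp [inn]
      rw [this]
      positivity

end aux

open Classical in
theorem decomp {G X : Type} [Group G] [Fintype X] [DecidableEq X] (S F : Finset G) (γ ε : ℝ)
    (hγ : 0 < γ) (hε : 0 ≤ ε) (hLT : LT S F γ ε) (σ : G → Perm X) :
    ∃ l : X → Finset X,
      cut σ S l ≤ 3 * ε * Fintype.card X + 2 * S.card * nbad σ F ∧
      γ * ((univ.filter fun x => ¬ Nice σ S F γ (cls l x)).card : ℝ) ≤
        3 * ε * Fintype.card X + (γ + 2 * S.card) * nbad σ F := by
  set B : Finset X := univ.filter fun x => ¬ Good σ F x with hB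
  have hnb : nbad σ F = B.card := rfl
  set W : Finset X := univ \ B with hWdef
  have hWB : ∀ x, x ∈ W ↔ x ∉ B := fun x => by simp [hWdef]
  have hWg : ∀ x ∈ W, Good σ F x := fun x hx => by
    have := (hWB x).1 hx
    simpa [hB] using this
  obtain ⟨l', R, hR, h1, h2, h3, h4, h5, h6, h7⟩ := dec_ind S F γ ε hε hLT σ _ W rfl hWg
  set l : X → Finset X := fun x => if x ∈ W then l' x else B with hl
  have hlW : ∀ x ∈ W, l x = l' x := fun x hx => if_pos hx
  have hcls : ∀ x ∈ W, cls l x = l' x := by
    intro x hx
    ext z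
    simp only [cls, mem_filter, mem_univ, true_and]
    rw [hlW x hx]
    constructor
    · intro hz
      by_cases hzW : z ∈ W
      · rw [hlW z hzW] at hz
        rw [← hz]; exact h1 z hzW
      · have : l z = B := if_neg hzW
        rw [this] at hz
        exact absurd (hz ▸ h1 x hx) ((hWB x).1 hx)
    · intro hz
      rw [hlW z (h2 x hx hz)]
      exact h3 x hx z hz
  have hcut : cut σ S l ≤ 3 * ε * Fintype.card X + 2 * S.card * nbad σ F := by
    have hs : ∀ s ∈ S, chg l (σ s) ≤ inn l' (σ s) W + 2 * B.card := by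
      intro s _
      have hsub : (univ.filter fun x => l (σ s x) ≠ l x) ⊆
          ((W.filter fun x => σ s x ∈ W ∧ l' (σ s x) ≠ l' x) ∪ B) ∪
            univ.filter fun x => σ s x ∈ B := by
        intro x hx
        have hne := (mem_filter.1 hx).2
        by_cases hxB : x ∈ B
        · exact mem_union_left _ (mem_union_right _ hxB)
        · by_cases hyB : σ s x ∈ B
          · exact mem_union_right _ (mem_filter.2 ⟨mem_univ _, hyB⟩)
          · have hxW := (hWB _).2 hxB
            have hyW := (hWB _).2 hyB
            rw [hlW _ hxW, hlW _ hyW] at hne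
            exact mem_union_left _ (mem_union_left _ (mem_filter.2 ⟨hxW, hyW, hne⟩))
      have hc := (card_le_card hsub).trans ((card_union_le _ _).trans
        (Nat.add_le_add_right (card_union_le _ _) _))
      rw [dec_card_pre] at hc
      have hc' : chg l (σ s) ≤ inn l' (σ s) W + B.card + B.card := by
        unfold inn chg
        exact_mod_cast hc
      linarith
    have hsum := Finset.sum_le_sum hs
    rw [Finset.sum_add_distrib, Finset.sum_const, nsmul_eq_mul] at hsum
    have hWc : (W.card : ℝ) ≤ Fintype.card X := by exact_mod_cast card_le_univ W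
    have := mul_le_mul_of_nonneg_left hWc hε
    unfold cut
    rw [hnb]
    nlinarith
  refine ⟨l, hcut, ?_⟩
  have hbd : bd σ S R ≤ cut σ S l := by
    refine Finset.sum_le_sum fun s _ => ?_
    have hsub : (R.filter fun x => σ s x ∉ R) ⊆ univ.filter fun x => l (σ s x) ≠ l x := by
      intro x hx
      obtain ⟨hxR, hy⟩ := mem_filter.1 hx
      refine mem_filter.2 ⟨mem_univ _, fun h => hy ?_⟩
      have : σ s x ∈ cls l x := mem_filter.2 ⟨mem_univ _, h⟩
      rwa [hcls x (hR hxR), h5 x hxR] at this
    unfold out chg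
    exact_mod_cast card_le_card hsub
  have hsub : (univ.filter fun x => ¬ Nice σ S F γ (cls l x)) ⊆ B ∪ R := by
    intro x hx
    have hn := (mem_filter.1 hx).2
    by_contra hc
    rw [mem_union, not_or] at hc
    have hxW := (hWB x).2 hc.1
    apply hn
    rw [hcls x hxW]
    exact ⟨h4 x hxW hc.2, fun y hy => hWg y (h2 x hxW hy)⟩
  have hc : ((univ.filter fun x => ¬ Nice σ S F γ (cls l x)).card : ℝ) ≤ B.card + R.card := by
    exact_mod_cast (card_le_card hsub).trans (card_union_le _ _)
  have := mul_le_mul_of_nonneg_left hc hγ.le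
  rw [hnb] at hcut ⊢
  nlinarith

end Pool.Agent.NS
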