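import Mathlib

set_option autoImplicit false

namespace Pool.Agent.NS

open Finset Equiv
open scoped symmDiff

/-- Kazhdan-type bound: in every unitary representation of `G`, a vector moved at most `ε` by `S`
is moved at most `C ε` by `H`. -/
def Kaz {G : Type} [Group G] (H S : Set G) (C : ℝ) : Prop :=
  ∀ (V : Type) [NormedAddCommGroup V] [InnerProductSpace ℂ V] [CompleteSpace V]
    (ρ : G →* (V ≃ₗᵢ[ℂ] V)) (ξ : V) (ε : ℝ), 0 ≤ ε → (∀ s ∈ S, ‖ρ s ξ - ξ‖ ≤ ε) →
    ∀ h ∈ H, ‖ρ h ξ - ξ‖ ≤ C * ε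

/-- unitary characters of an additive group -/
def IsChar {A : Type} [AddCommGroup A] (χ : A → ℂ) : Prop :=
  (∀ r r', χ (r + r') = χ r * χ r') ∧ ∀ r, ‖χ r‖ = 1

/-- the elementary matrix `1 + r E_{ij}` (the identity if `i = j`) -/
def tv {ι R : Type} [DecidableEq ι] [Fintype ι] [CommRing R] (i j : ι) (r : R) :
    Matrix.SpecialLinearGroup ι R :=
  if h : i ≠ j then Matrix.SpecialLinearGroup.transvection h r else 1

/-- the defining condition of the group `Γ` -/
def InGam {R : Type} [CommRing R] (g : Matrix.SpecialLinearGroup (Fin 8) R) : Prop :=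
  (∀ i j : Fin 8,
      ((i.val = 7 ∧ j.val < 7) ∨ (4 ≤ i.val ∧ j.val < 4) ∨ (1 ≤ i.val ∧ j.val < 1)) →
        (g : Matrix (Fin 8) (Fin 8) R) i j = 0) ∧
    (g : Matrix (Fin 8) (Fin 8) R) 0 0 = 1 ∧
    (g : Matrix (Fin 8) (Fin 8) R) 7 7 = 1 ∧
    (Matrix.of ![
      ![(g : Matrix (Fin 8) (Fin 8) R) 1 1, (g : Matrix (Fin 8) (Fin 8) R) 1 2,
        (g : Matrix (Fin 8) (Fin 8) R) 1 3],
      ![(g : Matrix (Fin 8) (Fin 8) R) 2 1, (g : Matrix (Fin 8) (Fin 8) R) 2 2,
        (g : Matrix (Fin 8) (Fin 8) R) 2 3],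
      ![(g : Matrix (Fin 8) (Fin 8) R) 3 1, (g : Matrix (Fin 8) (Fin 8) R) 3 2,
        (g : Matrix (Fin 8) (Fin 8) R) 3 3]]).det = 1

/-- the last four rows are those of the identity matrix -/
def InH {R : Type} [CommRing R] (g : Matrix.SpecialLinearGroup (Fin 8) R) : Prop :=
  ∀ i j : Fin 8, 4 ≤ i.val →
    (g : Matrix (Fin 8) (Fin 8) R) i j = (1 : Matrix (Fin 8) (Fin 8) R) i j

section Comb

variable {G X : Type} [Group G] [Fintype X] [DecidableEq X]

/-- `σ` is multiplicative on `F` at the point `x` -/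
def Good (σ : G → Perm X) (F : Finset G) (x : X) : Prop :=
  ∀ g ∈ F, ∀ h ∈ F, σ (g * h) x = σ g (σ h x)

open Classical in
/-- number of points at which `σ` is not multiplicative on `F` -/
noncomputable def nbad (σ : G → Perm X) (F : Finset G) : ℝ :=
  ((univ.filter fun x => ¬ Good σ F x).card : ℝ)

/-- number of points of `T` that `π` moves out of `T'` -/
def out (π : Perm X) (T T' : Finset X) : ℝ := ((T.filter fun x => π x ∉ T').card : ℝ)

/-- edge boundary -/
def bd (σ : G → Perm X) (S : Finset G) (T : Finset X) : ℝ := ∑ s ∈ S, out (σ s) T T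

/-- expansion of `D` (boundary taken in `X`) -/
def Exp (σ : G → Perm X) (S : Finset G) (γ : ℝ) (D : Finset X) : Prop :=
  ∀ T ⊆ D, 2 * (T.card : ℝ) ≤ D.card → γ * T.card ≤ bd σ S T

def Nice (σ : G → Perm X) (S F : Finset G) (γ : ℝ) (D : Finset X) : Prop :=
  Exp σ S γ D ∧ ∀ y ∈ D, Good σ F y

/-- the class of `x` for the labelling `l` -/
def cls {ι : Type} [DecidableEq ι] (l : X → ι) (x : X) : Finset X :=
  univ.filter fun z => l z = l x

/-- number of points whose label is changed by `π` -/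
def chg {ι : Type} [DecidableEq ι] (l : X → ι) (π : Perm X) : ℝ :=
  ((univ.filter fun x => l (π x) ≠ l x).card : ℝ)

def cut {ι : Type} [DecidableEq ι] (σ : G → Perm X) (S : Finset G) (l : X → ι) : ℝ :=
  ∑ s ∈ S, chg l (σ s)

/-- Hamming distance on `D` -/
def hd (D : Finset X) (f g : Perm X) : ℝ := ((D.filter fun x => f x ≠ g x).card : ℝ)

/-- defect of `f` as an automorphism of the labelled graph on `D` -/
def dfc (σ : G → Perm X) (S : Finset G) (D : Finset X) (f : Perm X) : ℝ :=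
  ((D.filter fun x => f x ∉ D ∨ ∃ s ∈ S, f (σ s x) ≠ σ s (f x)).card : ℝ)

/-- the finite group of clusters of almost automorphisms of `D` -/
structure Clu (σ : G → Perm X) (S : Finset G) (D : Finset X) (δ₁ δ : ℝ) where
  A : Type
  [grp : Group A]
  [fin : Finite A]
  cl : Perm X → A
  eq_iff : ∀ f g, dfc σ S D f ≤ 2 * δ * D.card → dfc σ S D g ≤ 2 * δ * D.card →
    (cl f = cl g ↔ 2 * hd D f g ≤ D.card)
  gap : ∀ f g, dfc σ S D f ≤ 2 * δ * D.card → dfc σ S D g ≤ 2 * δ * D.card →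
    100 * hd D f g ≤ D.card ∨ 99 * (D.card : ℝ) ≤ 100 * hd D f g
  mul : ∀ f g, dfc σ S D f ≤ δ * D.card → dfc σ S D g ≤ δ * D.card → cl (f * g) = cl f * cl g
  surj : ∀ a, ∃ f, dfc σ S D f ≤ δ₁ * D.card ∧ cl f = a

attribute [instance] Clu.grp Clu.fin

end Comb

/-- local form of property (T): sparse cuts at good points can be improved -/
def LT {G : Type} [Group G] (S F : Finset G) (γ ε : ℝ) : Prop :=
  ∀ (X : Type) [Fintype X] [DecidableEq X] (σ : G → Perm X) (T : Finset X),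
    (∀ x ∈ T, Good σ F x) → bd σ S T ≤ γ * T.card →
    ∃ U : Finset X, 100 * ((U ∆ T).card : ℝ) ≤ T.card ∧ bd σ S U ≤ ε * T.card

end Pool.Agent.NS
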