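import Pool.Agent.P.MP_3b226c_al.Defs

set_option autoImplicit false

namespace Pool.Agent.NS

open Finset Equiv
open scoped symmDiff InnerProductSpace ComplexConjugate

theorem exists_fixed {G V : Type} [Group G] [NormedAddCommGroup V] [InnerProductSpace ℂ V]
    [CompleteSpace V] (ρ : G →* (V ≃ₗᵢ[ℂ] V)) (K : Subgroup G) (ξ : V) (r : ℝ)
    (h : ∀ k ∈ K, ‖ρ k ξ - ξ‖ ≤ r) : ∃ η : V, (∀ k ∈ K, ρ k η = η) ∧ ‖ξ - η‖ ≤ r := by
  let _ : InnerProductSpace ℝ V := InnerProductSpace.complexToReal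
  set C : Set V := {η | ∀ k ∈ K, ‖ρ k η - ξ‖ ≤ r} with hC
  have hcl : IsClosed C := by
    have : C = ⋂ k ∈ K, {η | ‖ρ k η - ξ‖ ≤ r} := by
      ext η; simp [hC]
    rw [this]
    refine isClosed_biInter fun k _ => isClosed_le ?_ continuous_const
    exact ((ρ k).continuous.sub continuous_const).norm
  have hcv : Convex ℝ C := by
    intro x hx y hy a b ha hb hab k hk
    have h1 : ρ k (a • x + b • y) - ξ = (a : ℂ) • (ρ k x - ξ) + (b : ℂ) • (ρ k y - ξ) := by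
      have h2 : (a : ℂ) + b = 1 := by exact_mod_cast hab
      have h3 : a • x + b • y = (a : ℂ) • x + (b : ℂ) • y := rfl
      rw [h3, map_add, map_smul, map_smul, smul_sub, smul_sub]
      have h4 : ξ = (a : ℂ) • ξ + (b : ℂ) • ξ := by rw [← add_smul, h2, one_smul]
      nth_rewrite 1 [h4]
      abel
    rw [h1]
    refine (norm_add_le _ _).trans ?_
    rw [norm_smul, norm_smul, Complex.norm_real, Complex.norm_real, Real.norm_of_nonneg ha,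
      Real.norm_of_nonneg hb]
    have h5 := mul_le_mul_of_nonneg_left (hx k hk) ha
    have h6 := mul_le_mul_of_nonneg_left (hy k hk) hb
    have h7 : a * r + b * r = r := by rw [← add_mul, hab, one_mul]
    linarith
  obtain ⟨η, hη, hmin⟩ := exists_norm_eq_iInf_of_complete_convex (K := C) ⟨ξ, h⟩ hcl.isComplete hcv 0
  have hle : ∀ w ∈ C, ‖η‖ ≤ ‖w‖ := by
    intro w hw
    have h1 : ⨅ w : C, ‖(0 : V) - w‖ ≤ ‖(0 : V) - w‖ :=
      ciInf_le (f := fun w : C => ‖(0 : V) - w‖) ⟨0, by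
        rintro _ ⟨w, rfl⟩
        exact norm_nonneg _⟩ ⟨w, hw⟩
    rw [← hmin] at h1
    simpa using h1
  refine ⟨η, fun k hk => ?_, ?_⟩
  · have h1 : ρ k η ∈ C := by
      intro k' hk'
      have := hη (k' * k) (K.mul_mem hk' hk)
      rwa [map_mul] at this
    have h2 := hle _ (hcv h1 hη (a := 1 / 2) (b := 1 / 2) (by norm_num) (by norm_num) (by norm_num))
    rw [← smul_add, norm_smul, Real.norm_of_nonneg (by norm_num)] at h2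
    have h3 := parallelogram_law_with_norm ℂ (ρ k η) η
    rw [LinearIsometryEquiv.norm_map] at h3
    have h4 : ‖ρ k η - η‖ ^ 2 ≤ 0 := by nlinarith [norm_nonneg η]
    have h5 : ‖ρ k η - η‖ = 0 := by
      have := le_antisymm h4 (sq_nonneg _)
      exact pow_eq_zero_iff (two_ne_zero) |>.1 this
    exact sub_eq_zero.1 (norm_eq_zero.1 h5)
  · have := hη 1 K.one_mem
    rw [map_one] at this
    rw [norm_sub_rev]
    exact this

section pj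

variable {G V : Type} [Group G] [NormedAddCommGroup V] [InnerProductSpace ℂ V]
  (ρ : G →* (V ≃ₗᵢ[ℂ] V))

/-- the vectors fixed by `K` -/
def fixS (K : Subgroup G) : Submodule ℂ V where
  carrier := {v | ∀ k ∈ K, ρ k v = v}
  add_mem' := fun {a b} ha hb k hk => by rw [map_add, ha k hk, hb k hk]
  zero_mem' := fun k _ => map_zero _
  smul_mem' := fun c a ha k hk => by rw [map_smul, ha k hk]

theorem mem_fixS {K : Subgroup G} {v : V} : v ∈ fixS ρ K ↔ ∀ k ∈ K, ρ k v = v := Iff.rfl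

theorem rho_mul (g h : G) (v : V) : ρ (g * h) v = ρ g (ρ h v) := by
  rw [map_mul]; rfl

theorem rho_one (v : V) : ρ 1 v = v := by
  rw [map_one]; rfl

variable [CompleteSpace V]

theorem fixS_has (K : Subgroup G) : (fixS ρ K).HasOrthogonalProjection := by
  have hcl : IsClosed (fixS ρ K : Set V) := by
    have : (fixS ρ K : Set V) = ⋂ k ∈ K, {v | ρ k v = v} := by
      ext v; simp [mem_fixS]
    rw [this]
    exact isClosed_biInter fun k _ => isClosed_eq (ρ k).continuous continuous_id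
  have : CompleteSpace (fixS ρ K) := hcl.completeSpace_coe
  infer_instance

/-- the orthogonal projection on the vectors fixed by `K` -/
noncomputable def pj (K : Subgroup G) : V →L[ℂ] V :=
  haveI := fixS_has ρ K
  (fixS ρ K).starProjection

variable (K : Subgroup G)

theorem pj_mem (v : V) : pj ρ K v ∈ fixS ρ K :=
  haveI := fixS_has ρ K
  (fixS ρ K).starProjection_apply_mem v

theorem pj_orth (v : V) {w : V} (hw : w ∈ fixS ρ K) : ⟪w, v - pj ρ K v⟫_ℂ = 0 :=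
  haveI := fixS_has ρ K
  ((fixS ρ K).mem_orthogonal _).1 (Submodule.sub_starProjection_mem_orthogonal v) w hw

theorem pj_eq {a v : V} (ha : a ∈ fixS ρ K) (h : ∀ w ∈ fixS ρ K, ⟪w, v - a⟫_ℂ = 0) :
    pj ρ K v = a :=
  haveI := fixS_has ρ K
  Submodule.eq_starProjection_of_mem_orthogonal ha (((fixS ρ K).mem_orthogonal _).2 h)

theorem pj_sym (u v : V) : ⟪pj ρ K u, v⟫_ℂ = ⟪u, pj ρ K v⟫_ℂ :=
  haveI := fixS_has ρ K
  Submodule.inner_starProjection_left_eq_right _ u v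

theorem pj_self {v : V} (hv : v ∈ fixS ρ K) : pj ρ K v = v :=
  pj_eq ρ K hv fun w _ => by simp

theorem pj_pj (v : V) : pj ρ K (pj ρ K v) = pj ρ K v := pj_self ρ K (pj_mem ρ K v)

theorem pj_pyth (v : V) : ‖v‖ ^ 2 = ‖pj ρ K v‖ ^ 2 + ‖v - pj ρ K v‖ ^ 2 := by
  have h := norm_add_sq_eq_norm_sq_add_norm_sq_of_inner_eq_zero _ _
    (pj_orth ρ K v (pj_mem ρ K v))
  rw [add_sub_cancel] at h
  simp only [sq]
  exact h

theorem pj_norm_le (v : V) : ‖pj ρ K v‖ ≤ ‖v‖ :=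
  abs_le_of_sq_le_sq' (by rw [pj_pyth ρ K v]; nlinarith [sq_nonneg ‖v - pj ρ K v‖])
    (norm_nonneg _) |>.2

theorem pj_sub_le (v : V) : ‖v - pj ρ K v‖ ≤ ‖v‖ :=
  abs_le_of_sq_le_sq' (by rw [pj_pyth ρ K v]; nlinarith [sq_nonneg ‖pj ρ K v‖])
    (norm_nonneg _) |>.2

theorem pj_close {ξ : V} {r : ℝ} (h : ∀ k ∈ K, ‖ρ k ξ - ξ‖ ≤ r) : ‖ξ - pj ρ K ξ‖ ≤ r := by
  obtain ⟨η, h1, h2⟩ := exists_fixed ρ K ξ r h
  have h3 : ξ - pj ρ K ξ = (ξ - η) - pj ρ K (ξ - η) := by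
    rw [map_sub, pj_self ρ K (v := η) h1]
    abel
  rw [h3]
  exact (pj_sub_le ρ K _).trans h2

theorem pj_move {n : G} (hn : n ∈ K) (v : V) : ‖ρ n v - v‖ ≤ 2 * ‖v - pj ρ K v‖ := by
  have h1 : ρ n v - v = ρ n (v - pj ρ K v) - (v - pj ρ K v) := by
    rw [map_sub, pj_mem ρ K v n hn]
    abel
  rw [h1]
  refine (norm_sub_le _ _).trans ?_
  rw [LinearIsometryEquiv.norm_map]
  linarith

theorem pj_rho {g : G} (h : ∀ n ∈ K, g * n * g⁻¹ ∈ K ∧ g⁻¹ * n * g ∈ K) (v : V) :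
    pj ρ K (ρ g v) = ρ g (pj ρ K v) := by
  refine pj_eq ρ K (fun n hn => ?_) fun w hw => ?_
  · have h1 := pj_mem ρ K v _ (h n hn).2
    rw [← rho_mul, show n * g = g * (g⁻¹ * n * g) by group, rho_mul, h1]
  · have h1 : ρ g⁻¹ w ∈ fixS ρ K := fun n hn => by
      rw [← rho_mul, show n * g⁻¹ = g⁻¹ * (g * n * g⁻¹) by group, rho_mul, hw _ (h n hn).1]
    have h2 : w = ρ g (ρ g⁻¹ w) := by rw [← rho_mul, mul_inv_cancel, rho_one]
    rw [← map_sub, h2, LinearIsometryEquiv.inner_map_map]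
    exact pj_orth ρ K v h1

theorem pj_comm (A : V →L[ℂ] V) (hs : ∀ u v, ⟪A u, v⟫_ℂ = ⟪u, A v⟫_ℂ)
    (h : ∀ g ∈ K, ∀ v, A (ρ g v) = ρ g (A v)) (v : V) : pj ρ K (A v) = A (pj ρ K v) := by
  have h1 : ∀ w ∈ fixS ρ K, A w ∈ fixS ρ K := fun w hw g hg => by rw [← h g hg, hw g hg]
  refine pj_eq ρ K (h1 _ (pj_mem ρ K v)) fun w hw => ?_
  rw [← map_sub, ← hs]
  exact pj_orth ρ K v (h1 w hw)

omit ρ K in
theorem spec_key (D : V →L[ℂ] V) (hD : IsSelfAdjoint D) : ∃ B : V →L[ℂ] V,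
    (∀ u v, ⟪B u, v⟫_ℂ = ⟪u, B v⟫_ℂ) ∧ (∀ Q, Commute D Q → Commute B Q) ∧
    (∀ η, (⟪D η, η⟫_ℂ).re ≤ (⟪B η, η⟫_ℂ).re) ∧
    ∀ ζ, (⟪D (B ζ), B ζ⟫_ℂ).re ≤ 0 → B ζ = 0 := by
  have h0 : 0 ≤ D⁺ := CFC.posPart_nonneg D
  have hs : ∀ u v, ⟪D⁺ u, v⟫_ℂ = ⟪u, D⁺ v⟫_ℂ := fun u v =>
    ((ContinuousLinearMap.nonneg_iff_isPositive _).1 h0).isSymmetric u v
  refine ⟨D⁺, hs, fun Q hQ => ?_, fun η => ?_, fun ζ hζ => ?_⟩
  · rw [CFC.posPart_def]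
    exact hQ.cfcₙ_real _
  · have h1 := ((ContinuousLinearMap.le_def _ _).1 (CFC.le_posPart hD)).re_inner_nonneg_left η
    rw [sub_apply, inner_sub_left, map_sub] at h1
    exact sub_nonneg.1 h1
  · obtain ⟨C, hC⟩ := CStarAlgebra.nonneg_iff_eq_star_mul_self.1 h0
    have h1 : D * D⁺ = D⁺ * D⁺ := by
      nth_rewrite 1 [← CFC.posPart_sub_negPart D hD]
      rw [sub_mul, CFC.negPart_mul_posPart, sub_zero]
    have h2 : D (D⁺ ζ) = D⁺ (D⁺ ζ) := congrArg (fun A : V →L[ℂ] V => A ζ) h1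
    have h3 : ∀ v, D⁺ v = ContinuousLinearMap.adjoint C (C v) := fun v => by
      rw [hC, ContinuousLinearMap.star_eq_adjoint]; rfl
    rw [h2, h3 (D⁺ ζ), ContinuousLinearMap.adjoint_inner_left] at hζ
    have h4 : C (D⁺ ζ) = 0 := (re_inner_self_nonpos (𝕜 := ℂ)).1 hζ
    have h5 : D⁺ (D⁺ ζ) = 0 := by rw [h3 (D⁺ ζ), h4, map_zero]
    rw [← inner_self_eq_zero (𝕜 := ℂ), hs, h5, inner_zero_right]

end pj

theorem boost {G : Type} [Group G] (N : Subgroup G) (S : Set G) (ε₀ : ℝ) (h0 : 0 < ε₀)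
    (hS : ∀ g ∈ S, ∀ n ∈ N, g * n * g⁻¹ ∈ N ∧ g⁻¹ * n * g ∈ N)
    (h : ∀ (V : Type) [NormedAddCommGroup V] [InnerProductSpace ℂ V] [CompleteSpace V]
      (ρ : G →* (V ≃ₗᵢ[ℂ] V)) (ξ : V), ‖ξ‖ = 1 → (∀ s ∈ S, ‖ρ s ξ - ξ‖ ≤ ε₀) →
      ∀ n ∈ N, ‖ρ n ξ - ξ‖ ≤ 1 / 2) :
    Kaz (N : Set G) S (2 / ε₀) := by
  intro V _ _ _ ρ ξ ε hε hξ n hn
  set ξ' := ξ - pj ρ N ξ with hξ'
  have h1 : ∀ s ∈ S, ‖ρ s ξ' - ξ'‖ ≤ ε := by
    intro s hs
    have h2 : ρ s ξ' - ξ' = (ρ s ξ - ξ) - pj ρ N (ρ s ξ - ξ) := by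
      rw [hξ', map_sub, map_sub, pj_rho ρ N (hS s hs)]
      abel
    rw [h2]
    exact (pj_sub_le ρ N _).trans (hξ s hs)
  have h2 : ε₀ * ‖ξ'‖ ≤ ε := by
    by_contra hcon
    push Not at hcon
    have h3 : 0 < ‖ξ'‖ := (mul_pos_iff_of_pos_left h0).1 (lt_of_le_of_lt hε hcon)
    have h4 : ∀ v : V, ‖((‖ξ'‖⁻¹ : ℝ) : ℂ) • v‖ = ‖ξ'‖⁻¹ * ‖v‖ := fun v => by
      rw [norm_smul, Complex.norm_real, Real.norm_of_nonneg (inv_pos.2 h3).le]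
    have h5 := pj_close ρ N (h V ρ (((‖ξ'‖⁻¹ : ℝ) : ℂ) • ξ') (by
      rw [h4, inv_mul_cancel₀ h3.ne']) (fun s hs => by
      rw [map_smul, ← smul_sub, h4, inv_mul_le_iff₀ h3]
      linarith [h1 s hs]))
    have h6 : pj ρ N ξ' = 0 := by rw [hξ', map_sub, pj_pj, sub_self]
    rw [map_smul, h6, smul_zero, sub_zero, h4, inv_mul_cancel₀ h3.ne'] at h5
    norm_num at h5
  refine (pj_move ρ N hn ξ).trans ?_
  rw [div_mul_eq_mul_div, le_div_iff₀ h0]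
  linarith

theorem trick {G : Type} [Group G] (N₁ N₂ X₁ X₂ : Subgroup G)
    (hn : ∀ x, (x ∈ X₁ ∨ x ∈ X₂) → (∀ n ∈ N₁, x * n * x⁻¹ ∈ N₁) ∧ ∀ n ∈ N₂, x * n * x⁻¹ ∈ N₂)
    (hc : ∀ x, (x ∈ X₁ ∨ x ∈ X₂) → ∃ n₁ ∈ N₁, ∃ n₂ ∈ N₂, x = n₁ * n₂ * n₁⁻¹ * n₂⁻¹) :
    Kaz ((X₁ ⊔ X₂ : Subgroup G) : Set G) ((N₁ : Set G) ∪ (N₂ : Set G)) 30 := by
  intro V _ _ _ ρ ξ ε hε hξ l hl
  have hn' : ∀ x ∈ X₁ ⊔ X₂, (∀ n ∈ N₁, x * n * x⁻¹ ∈ N₁ ∧ x⁻¹ * n * x ∈ N₁) ∧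
      ∀ n ∈ N₂, x * n * x⁻¹ ∈ N₂ ∧ x⁻¹ * n * x ∈ N₂ := by
    have key : ∀ N : Subgroup G, (∀ x, (x ∈ X₁ ∨ x ∈ X₂) → ∀ n ∈ N, x * n * x⁻¹ ∈ N) →
        ∀ x ∈ X₁ ⊔ X₂, ∀ n ∈ N, x * n * x⁻¹ ∈ N ∧ x⁻¹ * n * x ∈ N := by
      intro N hN
      let Y : Subgroup G :=
        { carrier := {x | ∀ n ∈ N, x * n * x⁻¹ ∈ N ∧ x⁻¹ * n * x ∈ N}
          mul_mem' := fun {a b} ha hb n hn => by
            refine ⟨?_, ?_⟩
            · have := (ha _ (hb n hn).1).1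
              rwa [show a * (b * n * b⁻¹) * a⁻¹ = a * b * n * (a * b)⁻¹ by group] at this
            · have := (hb _ (ha n hn).2).2
              rwa [show b⁻¹ * (a⁻¹ * n * a) * b = (a * b)⁻¹ * n * (a * b) by group] at this
          one_mem' := fun n hn => by simpa using hn
          inv_mem' := fun {a} ha n hn => by
            rw [inv_inv]
            exact (ha n hn).symm }
      have hY : X₁ ⊔ X₂ ≤ Y := by
        refine sup_le (fun x hx n hn => ⟨hN x (Or.inl hx) n hn, ?_⟩)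
          fun x hx n hn => ⟨hN x (Or.inr hx) n hn, ?_⟩
        · simpa using hN x⁻¹ (Or.inl (X₁.inv_mem hx)) n hn
        · simpa using hN x⁻¹ (Or.inr (X₂.inv_mem hx)) n hn
      exact fun x hx => hY hx
    exact fun x hx => ⟨key N₁ (fun x hx => (hn x hx).1) x hx,
      key N₂ (fun x hx => (hn x hx).2) x hx⟩
  set P₁ := pj ρ N₁ with hP₁
  set P₂ := pj ρ N₂ with hP₂
  have c1 : ∀ X ≤ X₁ ⊔ X₂, ∀ v, pj ρ X (P₁ v) = P₁ (pj ρ X v) := fun X hX =>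
    pj_comm ρ X P₁ (pj_sym ρ N₁) fun g hg => pj_rho ρ N₁ (hn' g (hX hg)).1
  have c2 : ∀ X ≤ X₁ ⊔ X₂, ∀ v, pj ρ X (P₂ v) = P₂ (pj ρ X v) := fun X hX =>
    pj_comm ρ X P₂ (pj_sym ρ N₂) fun g hg => pj_rho ρ N₂ (hn' g (hX hg)).2
  set D : V →L[ℂ] V := P₁ * P₂ * P₁ - ((15 / 16 : ℝ) : ℂ) • 1 with hD
  have hDa : ∀ v, D v = P₁ (P₂ (P₁ v)) - ((15 / 16 : ℝ) : ℂ) • v := fun v => rfl
  have hDq : ∀ v, (⟪D v, v⟫_ℂ).re = ‖P₂ (P₁ v)‖ ^ 2 - 15 / 16 * ‖v‖ ^ 2 := by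
    intro v
    have h1 : ⟪P₁ (P₂ (P₁ v)), v⟫_ℂ = ⟪P₂ (P₁ v), P₂ (P₁ v)⟫_ℂ := by
      rw [pj_sym ρ N₁, ← pj_sym ρ N₂, pj_pj]
    rw [hDa, inner_sub_left, h1, inner_smul_left, Complex.conj_ofReal, Complex.sub_re,
      Complex.re_ofReal_mul, inner_self_eq_norm_sq_to_K, inner_self_eq_norm_sq_to_K]
    norm_cast
  have hDs : IsSelfAdjoint D := by
    rw [ContinuousLinearMap.isSelfAdjoint_iff_isSymmetric]
    intro u v
    change ⟪D u, v⟫_ℂ = ⟪u, D v⟫_ℂ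
    rw [hDa, hDa, inner_sub_left, inner_sub_right, inner_smul_left, inner_smul_right,
      Complex.conj_ofReal, pj_sym ρ N₁, pj_sym ρ N₂, pj_sym ρ N₁]
  obtain ⟨B, b1, b2, b3, b4⟩ := spec_key D hDs
  have hfix : ∀ X : Subgroup G, (∀ x ∈ X, x ∈ X₁ ∨ x ∈ X₂) → ∀ v, B v ∈ fixS ρ X := by
    intro X hX v
    have hX' : X ≤ X₁ ⊔ X₂ := fun x hx => (hX x hx).elim
      (fun h => Subgroup.mem_sup_left h) fun h => Subgroup.mem_sup_right h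
    have h1 : Commute D (pj ρ X) := by
      ext v
      change D (pj ρ X v) = pj ρ X (D v)
      rw [hDa, hDa, map_sub, map_smul, c1 X hX', c2 X hX', c1 X hX']
    have h2 : ∀ v, B (pj ρ X v) = pj ρ X (B v) := fun v =>
      congrArg (fun A : V →L[ℂ] V => A v) (b2 _ h1)
    have h3 : ∀ η, pj ρ X η = 0 → (⟪D η, η⟫_ℂ).re ≤ 0 := by
      intro η hη
      have h4 : ‖P₁ η - pj ρ X (P₁ η)‖ ≤ 4 * ‖P₁ η - P₂ (P₁ η)‖ := by
        refine pj_close ρ X fun x hx => ?_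
        obtain ⟨n₁, h₁, n₂, h₂, rfl⟩ := hc x (hX x hx)
        have h5 : ρ (n₁ * n₂ * n₁⁻¹ * n₂⁻¹) (P₁ η) - P₁ η =
            ρ (n₁ * n₂ * n₁⁻¹) (ρ n₂⁻¹ (P₁ η) - P₁ η) + ρ n₁ (ρ n₂ (P₁ η) - P₁ η) := by
          rw [map_sub, map_sub, rho_mul ρ (n₁ * n₂ * n₁⁻¹), rho_mul ρ (n₁ * n₂) n₁⁻¹ (P₁ η),
            pj_mem ρ N₁ η _ (N₁.inv_mem h₁), pj_mem ρ N₁ η _ h₁, rho_mul ρ n₁ n₂ (P₁ η)]
          abel
        rw [h5]
        refine (norm_add_le _ _).trans ?_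
        rw [LinearIsometryEquiv.norm_map, LinearIsometryEquiv.norm_map]
        linarith [pj_move ρ N₂ h₂ (P₁ η), pj_move ρ N₂ (N₂.inv_mem h₂) (P₁ η)]
      rw [c1 X hX', hη, map_zero, sub_zero] at h4
      have h5 := pj_pyth ρ N₂ (P₁ η)
      have h6 := pj_norm_le ρ N₁ η
      rw [hDq]
      have h7 := pow_le_pow_left₀ (norm_nonneg _) h4 2
      have h8 := pow_le_pow_left₀ (norm_nonneg _) h6 2
      nlinarith
    have h4 : B (v - pj ρ X v) = 0 :=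
      b4 _ (h3 _ (by rw [← h2, map_sub, pj_pj, sub_self, map_zero]))
    rw [map_sub, sub_eq_zero, h2] at h4
    rw [h4]
    exact pj_mem ρ X _
  have hB : ∀ v, B v ∈ fixS ρ (X₁ ⊔ X₂) := by
    intro v
    let Y : Subgroup G :=
      { carrier := {x | ρ x (B v) = B v}
        mul_mem' := fun {a b} ha hb => by
          change ρ (a * b) (B v) = B v
          rw [rho_mul, hb, ha]
        one_mem' := rho_one ρ _
        inv_mem' := fun {a} ha => by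
          change ρ a⁻¹ (B v) = B v
          have ha' : ρ a (B v) = B v := ha
          nth_rewrite 1 [← ha']
          rw [← rho_mul, inv_mul_cancel, rho_one] }
    have hY : X₁ ⊔ X₂ ≤ Y := sup_le (hfix X₁ (fun _ h => Or.inl h) v)
      (hfix X₂ (fun _ h => Or.inr h) v)
    exact fun x hx => hY hx
  set Q := pj ρ (X₁ ⊔ X₂) with hQ
  set η := ξ - Q ξ with hη
  have e1 : ‖η - P₁ η‖ ≤ ε := by
    have h1 : η - P₁ η = (ξ - P₁ ξ) - Q (ξ - P₁ ξ) := by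
      rw [hη, map_sub, map_sub, c1 _ le_rfl]
      abel
    rw [h1]
    exact (pj_sub_le ρ _ _).trans (pj_close ρ N₁ fun k hk => hξ k (Or.inl hk))
  have e2 : ‖η - P₂ η‖ ≤ ε := by
    have h1 : η - P₂ η = (ξ - P₂ ξ) - Q (ξ - P₂ ξ) := by
      rw [hη, map_sub, map_sub, c2 _ le_rfl]
      abel
    rw [h1]
    exact (pj_sub_le ρ _ _).trans (pj_close ρ N₂ fun k hk => hξ k (Or.inr hk))
  have e3 : ‖P₁ η - P₂ (P₁ η)‖ ≤ 2 * ε := by
    have h1 : P₁ η - P₂ (P₁ η) = (η - P₂ η) - ((η - P₁ η) - P₂ (η - P₁ η)) := by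
      rw [map_sub P₂ η (P₁ η)]
      abel
    rw [h1]
    refine (norm_sub_le _ _).trans ?_
    linarith [pj_sub_le ρ N₂ (η - P₁ η)]
  have e4 : ‖P₂ (P₁ η)‖ ^ 2 ≤ 15 / 16 * ‖P₁ η‖ ^ 2 := by
    have h1 := b3 (P₁ η)
    have h2 : Q (P₁ η) = 0 := by
      rw [c1 _ le_rfl, hη, map_sub, pj_pj, sub_self, map_zero]
    have h3 := pj_orth ρ _ (P₁ η) (hB (P₁ η))
    rw [← hQ, h2, sub_zero] at h3
    rw [h3, hDq, pj_pj] at h1
    simpa using h1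
  have e5 : ‖P₁ η‖ ≤ 8 * ε := by
    have h1 := pj_pyth ρ N₂ (P₁ η)
    have h2 := pow_le_pow_left₀ (norm_nonneg _) e3 2
    exact (abs_le_of_sq_le_sq' (by nlinarith) (by positivity)).2
  have e6 : ‖η‖ ≤ 9 * ε := by
    have h1 := norm_add_le (η - P₁ η) (P₁ η)
    rw [sub_add_cancel] at h1
    linarith
  have e7 := pj_move ρ (X₁ ⊔ X₂) hl ξ
  linarith

end Pool.Agent.NS
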