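import Pool.Agent.P.MP_3b226c_al.Defs

set_option autoImplicit false

namespace Pool.Agent.NS

open Finset Equiv
open scoped symmDiff InnerProductSpace ComplexConjugate

variable {G X : Type} [Group G] [Fintype X] [DecidableEq X]

namespace Improve

omit [Fintype X] in
theorem cover2 {A B C : Finset X} (h : ∀ x ∈ A, x ∈ B ∨ x ∈ C) :
    (A.card : ℝ) ≤ B.card + C.card := by
  have h1 : A ⊆ B ∪ C := fun x hx => mem_union.2 (h x hx)
  exact_mod_cast (card_le_card h1).trans (card_union_le _ _)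

omit [Fintype X] in
theorem cover3 {A B C E : Finset X} (h : ∀ x ∈ A, x ∈ B ∨ x ∈ C ∨ x ∈ E) :
    (A.card : ℝ) ≤ B.card + C.card + E.card := by
  have h1 := cover2 (A := A) (B := B) (C := C ∪ E) fun x hx => (h x hx).imp id mem_union.2
  have h2 := cover2 (A := C ∪ E) (B := C) (C := E) fun x hx => mem_union.1 hx
  linarith

omit [Fintype X] in
theorem cover5 {A B C E H K : Finset X}
    (h : ∀ x ∈ A, x ∈ B ∨ x ∈ C ∨ x ∈ E ∨ x ∈ H ∨ x ∈ K) :
    (A.card : ℝ) ≤ B.card + C.card + E.card + H.card + K.card := by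
  have h1 := cover3 (A := A) (B := B) (C := C) (E := E ∪ (H ∪ K)) fun x hx =>
    (h x hx).imp id (Or.imp id fun h' => mem_union.2 (h'.imp id mem_union.2))
  have h2 := cover3 (A := E ∪ (H ∪ K)) (B := E) (C := H) (E := K) fun x hx =>
    (mem_union.1 hx).imp id mem_union.1
  linarith

omit [Fintype X] in
theorem img_le {Y : Type} (φ : Y → X) (B : Finset Y) : ((B.image φ).card : ℝ) ≤ B.card := by
  exact_mod_cast card_image_le

/-- the set of defects of `f` -/
def dset (σ : G → Perm X) (S : Finset G) (D : Finset X) (f : Perm X) : Finset X :=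
  D.filter fun x => f x ∉ D ∨ ∃ s ∈ S, f (σ s x) ≠ σ s (f x)

omit [Group G] [Fintype X] in
theorem dfc_eq (σ : G → Perm X) (S : Finset G) (D : Finset X) (f : Perm X) :
    dfc σ S D f = (dset σ S D f).card := rfl

omit [Group G] [Fintype X] in
theorem mem_dset {σ : G → Perm X} {S : Finset G} {D : Finset X} {f : Perm X} {x : X} :
    x ∈ dset σ S D f ↔ x ∈ D ∧ (f x ∉ D ∨ ∃ s ∈ S, f (σ s x) ≠ σ s (f x)) := mem_filter

omit [Group G] [Fintype X] in
theorem bd_le {Y : Type} [DecidableEq Y] (σ : G → Perm X) (τ : G → Perm Y) (S : Finset G)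
    (T D : Finset X) (U : Finset Y) (a b c : ℝ)
    (h : ∀ s ∈ S, out (σ s) T T ≤ a * out (σ s) D D + b * out (τ s) U U + c) :
    bd σ S T ≤ a * bd σ S D + b * bd τ S U + S.card * c := by
  unfold bd
  refine (sum_le_sum h).trans (le_of_eq ?_)
  rw [sum_add_distrib, sum_add_distrib, sum_const, nsmul_eq_mul, mul_sum, mul_sum]

/-- `(x, y)` is the only point of `U` in its row and in its column -/
def Rl (D : Finset X) (U : Finset (X × X)) (x y : X) : Prop :=
  x ∈ D ∧ y ∈ D ∧ (x, y) ∈ U ∧ (∀ y', (x, y') ∈ U → y' = y) ∧ ∀ x', (x', y) ∈ U → x' = x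

omit [DecidableEq X] in
theorem exists_perm (D : Finset X) (U : Finset (X × X)) :
    ∃ f' : Perm X, ∀ x y, Rl D U x y → f' x = y := by
  obtain ⟨f', hf'⟩ := Equiv.Perm.exists_extending_pair
    (α := {p : X × X // Rl D U p.1 p.2}) (f := fun p => p.1.1) (g := fun p => p.1.2)
    (by
      rintro ⟨⟨x, y⟩, h⟩ ⟨⟨x', y'⟩, h'⟩ (hx : x = x')
      subst hx
      have : y' = y := h.2.2.2.1 y' h'.2.2.1
      subst this
      rfl)
    (by
      rintro ⟨⟨x, y⟩, h⟩ ⟨⟨x', y'⟩, h'⟩ (hy : y = y')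
      subst hy
      have : x' = x := h.2.2.2.2 x' h'.2.2.1
      subst this
      rfl)
  exact ⟨f', fun x y h => hf' ⟨(x, y), h⟩⟩

end Improve

open Improve

theorem out_self_inv (π : Perm X) (T : Finset X) : out π⁻¹ T T = out π T T := by
  unfold out
  have h1 := card_filter_add_card_filter_not (s := T) fun x => π⁻¹ x ∈ T
  have h2 := card_filter_add_card_filter_not (s := T) fun x => π x ∈ T
  have h3 : (T.filter fun x => π⁻¹ x ∈ T).card = (T.filter fun x => π x ∈ T).card := by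
    refine card_bij (fun x _ => π⁻¹ x) ?_ ?_ ?_
    · intro x hx
      rw [mem_filter] at hx ⊢
      exact ⟨hx.2, by simpa using hx.1⟩
    · intro x _ y _ h
      exact π⁻¹.injective h
    · intro y hy
      rw [mem_filter] at hy
      exact ⟨π y, mem_filter.2 ⟨hy.2, by simpa using hy.1⟩, by simp⟩
  have h4 : (T.filter fun x => π⁻¹ x ∉ T).card = (T.filter fun x => π x ∉ T).card := by omega
  exact_mod_cast h4

theorem bd_graph (σ : G → Perm X) (S : Finset G) (D : Finset X) (f : Perm X) :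
    bd (fun g => (σ g).prodCongr (σ g)) S
      ((D.filter fun x => f x ∈ D).image fun x => (x, f x)) ≤
      bd σ S D + 2 * S.card * dfc σ S D f := by
  have h := bd_le (fun g => (σ g).prodCongr (σ g)) σ S
    ((D.filter fun x => f x ∈ D).image fun x => (x, f x)) ∅ D 0 1 (2 * dfc σ S D f) ?_
  · linarith
  intro s hs
  have h1 := cover3
    (A := ((D.filter fun x => f x ∈ D).image fun x => (x, f x)).filter fun p =>
      (σ s).prodCongr (σ s) p ∉ (D.filter fun x => f x ∈ D).image fun x => (x, f x))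
    (B := (D.filter fun x => σ s x ∉ D).image fun x => (x, f x))
    (C := (dset σ S D f).image fun x => (x, f x))
    (E := (dset σ S D f).image fun x => ((σ s)⁻¹ x, f ((σ s)⁻¹ x))) ?_
  · have h2 := img_le (fun x => (x, f x)) (D.filter fun x => σ s x ∉ D)
    have h3 := img_le (fun x => (x, f x)) (dset σ S D f)
    have h4 := img_le (fun x => ((σ s)⁻¹ x, f ((σ s)⁻¹ x))) (dset σ S D f)
    rw [dfc_eq]
    unfold out
    linarith
  intro p hp
  obtain ⟨hp1, hp2⟩ := mem_filter.1 hp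
  obtain ⟨x, hx, rfl⟩ := mem_image.1 hp1
  obtain ⟨hx1, -⟩ := mem_filter.1 hx
  by_cases h1 : σ s x ∈ D
  · by_cases h2 : f (σ s x) = σ s (f x)
    · refine Or.inr (Or.inr (mem_image.2 ⟨σ s x, mem_dset.2 ⟨h1, Or.inl fun h3 => hp2 ?_⟩, by simp⟩))
      exact mem_image.2 ⟨σ s x, mem_filter.2 ⟨h1, h3⟩, by simp [h2]⟩
    · exact Or.inr (Or.inl (mem_image.2 ⟨x, mem_dset.2 ⟨hx1, Or.inr ⟨s, hs, h2⟩⟩, rfl⟩))
  · exact Or.inl (mem_image.2 ⟨x, mem_filter.2 ⟨hx1, h1⟩, rfl⟩)

theorem gap (σ : G → Perm X) (S : Finset G) (γ η δ : ℝ) (hγ : 0 < γ) (D : Finset X)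
    (hD : Exp σ S γ D) (hbd : bd σ S D ≤ η * D.card) (hc : η + 2 * S.card * δ ≤ γ / 100)
    (f g : Perm X) (hf : dfc σ S D f ≤ δ * D.card) (hg : dfc σ S D g ≤ δ * D.card) :
    100 * hd D f g ≤ D.card ∨ 99 * (D.card : ℝ) ≤ 100 * hd D f g := by
  have key : ∀ E ⊆ D, (∀ s ∈ S, ∀ x ∈ E, σ s x ∈ D → f (σ s x) = σ s (f x) →
      g (σ s x) = σ s (g x) → σ s x ∈ E) → 2 * (E.card : ℝ) ≤ D.card →
      100 * (E.card : ℝ) ≤ D.card := by
    intro E hE h h2
    have h3 := hD E hE h2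
    have h4 := bd_le σ σ S E D ∅ 1 0 (dfc σ S D f + dfc σ S D g) (by
      intro s hs
      have h5 := cover3 (A := E.filter fun x => σ s x ∉ E) (B := D.filter fun x => σ s x ∉ D)
        (C := dset σ S D f) (E := dset σ S D g) (by
          intro x hx
          obtain ⟨hx1, hx2⟩ := mem_filter.1 hx
          by_cases h6 : σ s x ∈ D
          · by_cases h7 : f (σ s x) = σ s (f x)
            · exact Or.inr (Or.inr (mem_dset.2 ⟨hE hx1,
                Or.inr ⟨s, hs, fun h8 => hx2 (h s hs x hx1 h6 h7 h8)⟩⟩))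
            · exact Or.inr (Or.inl (mem_dset.2 ⟨hE hx1, Or.inr ⟨s, hs, h7⟩⟩))
          · exact Or.inl (mem_filter.2 ⟨hE hx1, h6⟩))
      rw [dfc_eq, dfc_eq]
      unfold out
      linarith)
    have hS : (0 : ℝ) ≤ S.card := Nat.cast_nonneg _
    have hN : (0 : ℝ) ≤ D.card := Nat.cast_nonneg _
    have h6 : (S.card : ℝ) * (dfc σ S D f + dfc σ S D g) ≤ S.card * (2 * δ * D.card) :=
      mul_le_mul_of_nonneg_left (by linarith) hS
    have h7 := mul_le_mul_of_nonneg_right hc hN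
    refine le_of_mul_le_mul_left ?_ hγ
    nlinarith
  have hsum : ((D.filter fun x => f x = g x).card : ℝ) + hd D f g = D.card := by
    unfold hd
    exact_mod_cast card_filter_add_card_filter_not (s := D) fun x => f x = g x
  by_cases h : 2 * hd D f g ≤ D.card
  · refine Or.inl (key (D.filter fun x => f x ≠ g x) (filter_subset _ _) ?_ h)
    intro s _ x hx h1 h2 h3
    refine mem_filter.2 ⟨h1, fun h4 => (mem_filter.1 hx).2 ((σ s).injective ?_)⟩
    rw [← h2, ← h3, h4]
  · have h5 := key (D.filter fun x => f x = g x) (filter_subset _ _) (by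
      intro s _ x hx h1 h2 h3
      refine mem_filter.2 ⟨h1, ?_⟩
      rw [h2, h3, (mem_filter.1 hx).2]) (by linarith)
    exact Or.inr (by linarith)

theorem improve (σ : G → Perm X) (S F : Finset G) (γ ε η δ δ₁ : ℝ) (hγ : 0 < γ) (hγ1 : γ ≤ 1)
    (hε : 0 ≤ ε) (hεη : ε ≤ η) (hLT : LT S F γ ε) (D : Finset X) (hD : Nice σ S F γ D)
    (hbd : bd σ S D ≤ η * D.card) (hc : η + 2 * S.card * δ ≤ γ / 2) (hδ : 100 * δ ≤ 1)
    (h1 : 7 * (S.card + 1) * η ≤ γ * δ₁) (f : Perm X) (hf : dfc σ S D f ≤ δ * D.card) :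
    ∃ f' : Perm X, dfc σ S D f' ≤ δ₁ * D.card ∧ 20 * hd D f f' ≤ D.card := by
  classical
  have hS : (0 : ℝ) ≤ S.card := Nat.cast_nonneg _
  have hN : (0 : ℝ) ≤ D.card := Nat.cast_nonneg _
  set τ : G → Perm (X × X) := fun g => (σ g).prodCongr (σ g) with hτ
  set T := (D.filter fun x => f x ∈ D).image fun x => (x, f x) with hT
  have memT : ∀ x y, (x, y) ∈ T ↔ x ∈ D ∧ f x ∈ D ∧ y = f x := by
    intro x y
    simp only [hT, mem_image, mem_filter, Prod.mk.injEq]
    constructor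
    · rintro ⟨z, ⟨h2, h3⟩, rfl, rfl⟩
      exact ⟨h2, h3, rfl⟩
    · rintro ⟨h2, h3, rfl⟩
      exact ⟨x, ⟨h2, h3⟩, rfl, rfl⟩
  have hf' : ((dset σ S D f).card : ℝ) ≤ D.card / 100 := by
    rw [← dfc_eq]
    nlinarith
  have hTle : (T.card : ℝ) ≤ D.card :=
    (img_le _ _).trans (by exact_mod_cast card_filter_le _ _)
  have hTge : (D.card : ℝ) ≤ T.card + (dset σ S D f).card := by
    have h2 := cover2 (A := D) (B := T.image Prod.fst) (C := dset σ S D f) (by
      intro x hx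
      by_cases h3 : f x ∈ D
      · exact Or.inl (mem_image.2 ⟨(x, f x), (memT _ _).2 ⟨hx, h3, rfl⟩, rfl⟩)
      · exact Or.inr (mem_dset.2 ⟨hx, Or.inl h3⟩))
    have h3 := img_le Prod.fst T
    linarith
  obtain ⟨U, hU1, hU2⟩ := hLT (X × X) τ T (by
    rintro ⟨x, y⟩ hp g hg h hh
    obtain ⟨h2, h3, rfl⟩ := (memT _ _).1 hp
    simp only [hτ, prodCongr_apply, Prod.map_apply]
    rw [hD.2 x h2 g hg h hh, hD.2 _ h3 g hg h hh]) (by
    have h2 := bd_graph σ S D f
    have h3 : 2 * S.card * dfc σ S D f ≤ 2 * S.card * (δ * D.card) :=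
      mul_le_mul_of_nonneg_left hf (by linarith)
    have h4 := mul_le_mul_of_nonneg_right hc hN
    have h5 : γ * (D.card / 2) ≤ γ * T.card := mul_le_mul_of_nonneg_left (by linarith) hγ.le
    nlinarith)
  have hU3 : bd τ S U ≤ η * D.card :=
    hU2.trans (mul_le_mul hεη hTle (Nat.cast_nonneg _) (by linarith))
  obtain ⟨u, hu⟩ := exists_perm D U
  have hA : ((D.filter fun x => ¬ Rl D U x (f x)).card : ℝ) ≤ 3 * D.card / 100 := by
    have h2 := cover3 (A := D.filter fun x => ¬ Rl D U x (f x)) (B := dset σ S D f)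
      (C := (U ∆ T).image Prod.fst) (E := (U ∆ T).image fun p => f⁻¹ p.2) (by
        intro x hx
        obtain ⟨hx1, hx2⟩ := mem_filter.1 hx
        by_cases h3 : f x ∈ D
        swap
        · exact Or.inl (mem_dset.2 ⟨hx1, Or.inl h3⟩)
        by_cases h4 : (x, f x) ∈ U
        swap
        · exact Or.inr (Or.inl (mem_image.2 ⟨(x, f x),
            mem_symmDiff.2 (Or.inr ⟨(memT _ _).2 ⟨hx1, h3, rfl⟩, h4⟩), rfl⟩))
        by_cases h5 : ∀ y', (x, y') ∈ U → y' = f x
        swap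
        · push Not at h5
          obtain ⟨y', h6, h7⟩ := h5
          exact Or.inr (Or.inl (mem_image.2 ⟨(x, y'),
            mem_symmDiff.2 (Or.inl ⟨h6, fun h8 => h7 ((memT _ _).1 h8).2.2⟩), rfl⟩))
        have h6 : ¬ ∀ x', (x', f x) ∈ U → x' = x := fun h6 => hx2 ⟨hx1, h3, h4, h5, h6⟩
        push Not at h6
        obtain ⟨x', h7, h8⟩ := h6
        exact Or.inr (Or.inr (mem_image.2 ⟨(x', f x), mem_symmDiff.2
          (Or.inl ⟨h7, fun h9 => h8 (f.injective ((memT _ _).1 h9).2.2).symm⟩), by simp⟩)))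
    have h3 := img_le Prod.fst (U ∆ T)
    have h4 := img_le (fun p : X × X => f⁻¹ p.2) (U ∆ T)
    linarith
  set Bad := D.filter fun x => ¬ Rl D U x (u x) with hBad
  have hBad1 : (Bad.card : ℝ) ≤ 3 * D.card / 100 := by
    refine le_trans ?_ hA
    have : Bad ⊆ D.filter fun x => ¬ Rl D U x (f x) := by
      intro x hx
      obtain ⟨hx1, hx2⟩ := mem_filter.1 hx
      exact mem_filter.2 ⟨hx1, fun h => hx2 (by rwa [hu x _ h])⟩
    exact_mod_cast card_le_card this
  have hB := bd_le σ τ S Bad D U 2 3 0 (by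
    intro s _
    have h2 := cover5 (A := Bad.filter fun x => σ s x ∉ Bad) (B := D.filter fun x => σ s x ∉ D)
      (C := (D.filter fun y => (σ s)⁻¹ y ∉ D).image fun y => (σ s)⁻¹ (u⁻¹ y))
      (E := (U.filter fun p => (τ s)⁻¹ p ∉ U).image fun p => (σ s)⁻¹ p.1)
      (H := (U.filter fun p => τ s p ∉ U).image Prod.fst)
      (K := (U.filter fun p => τ s p ∉ U).image fun p => (σ s)⁻¹ (u⁻¹ (σ s p.2))) (by
        intro x hx
        obtain ⟨hx1, hx2⟩ := mem_filter.1 hx
        obtain ⟨hx3, hx4⟩ := mem_filter.1 hx1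
        by_cases h3 : σ s x ∈ D
        swap
        · exact Or.inl (mem_filter.2 ⟨hx3, h3⟩)
        have hR : Rl D U (σ s x) (u (σ s x)) := by
          by_contra h4
          exact hx2 (mem_filter.2 ⟨h3, h4⟩)
        have hn : ¬ Rl D U x ((σ s)⁻¹ (u (σ s x))) := fun h4 => hx4 (by rwa [hu x _ h4])
        by_cases h4 : (σ s)⁻¹ (u (σ s x)) ∈ D
        swap
        · exact Or.inr (Or.inl (mem_image.2 ⟨u (σ s x), mem_filter.2 ⟨hR.2.1, h4⟩, by simp⟩))
        by_cases h5 : (x, (σ s)⁻¹ (u (σ s x))) ∈ U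
        swap
        · refine Or.inr (Or.inr (Or.inl (mem_image.2 ⟨(σ s x, u (σ s x)),
            mem_filter.2 ⟨hR.2.2.1, fun h6 => h5 ?_⟩, by simp⟩)))
          simpa [hτ, Perm.inv_def] using h6
        by_cases h6 : ∀ y', (x, y') ∈ U → y' = (σ s)⁻¹ (u (σ s x))
        swap
        · push Not at h6
          obtain ⟨y', h7, h8⟩ := h6
          refine Or.inr (Or.inr (Or.inr (Or.inl (mem_image.2 ⟨(x, y'),
            mem_filter.2 ⟨h7, fun h9 => h8 ?_⟩, rfl⟩))))
          rw [← hR.2.2.2.1 (σ s y') h9]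
          simp
        have h7 : ¬ ∀ x', (x', (σ s)⁻¹ (u (σ s x))) ∈ U → x' = x :=
          fun h7 => hn ⟨hx3, h4, h5, h6, h7⟩
        push Not at h7
        obtain ⟨x', h8, h9⟩ := h7
        refine Or.inr (Or.inr (Or.inr (Or.inr (mem_image.2 ⟨(x', (σ s)⁻¹ (u (σ s x))),
          mem_filter.2 ⟨h8, fun h10 => h9 ((σ s).injective (hR.2.2.2.2 (σ s x') ?_))⟩, by simp⟩))))
        simpa [hτ] using h10)
    have h3 := img_le (fun y => (σ s)⁻¹ (u⁻¹ y)) (D.filter fun y => (σ s)⁻¹ y ∉ D)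
    have h4 := img_le (fun p : X × X => (σ s)⁻¹ p.1) (U.filter fun p => (τ s)⁻¹ p ∉ U)
    have h5 := img_le Prod.fst (U.filter fun p => τ s p ∉ U)
    have h6 := img_le (fun p : X × X => (σ s)⁻¹ (u⁻¹ (σ s p.2))) (U.filter fun p => τ s p ∉ U)
    have h7 := out_self_inv (σ s) D
    have h8 := out_self_inv (τ s) U
    unfold out at h7 h8 ⊢
    linarith)
  have hB2 : γ * Bad.card ≤ 5 * η * D.card := by
    have h2 := hD.1 Bad (filter_subset _ _) (by linarith)
    linarith
  have hC : dfc σ S D u ≤ Bad.card + (bd σ S D + bd τ S U + S.card * Bad.card) := by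
    have h2 := cover2 (A := dset σ S D u) (B := Bad)
      (C := S.biUnion fun s => D.filter fun x => Rl D U x (u x) ∧ u (σ s x) ≠ σ s (u x)) (by
        intro x hx
        obtain ⟨hx1, hx2⟩ := mem_dset.1 hx
        by_cases h3 : Rl D U x (u x)
        · obtain ⟨s, hs, h4⟩ := hx2.resolve_left fun h4 => h4 h3.2.1
          exact Or.inr (mem_biUnion.2 ⟨s, hs, mem_filter.2 ⟨hx1, h3, h4⟩⟩)
        · exact Or.inl (mem_filter.2 ⟨hx1, h3⟩))
    have h3 : ((S.biUnion fun s =>
        D.filter fun x => Rl D U x (u x) ∧ u (σ s x) ≠ σ s (u x)).card : ℝ) ≤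
        ∑ s ∈ S, ((D.filter fun x => Rl D U x (u x) ∧ u (σ s x) ≠ σ s (u x)).card : ℝ) := by
      exact_mod_cast card_biUnion_le
    have h4 : ∀ s ∈ S, ((D.filter fun x => Rl D U x (u x) ∧ u (σ s x) ≠ σ s (u x)).card : ℝ) ≤
        out (σ s) D D + out (τ s) U U + Bad.card := by
      intro s _
      have h5 := cover3 (A := D.filter fun x => Rl D U x (u x) ∧ u (σ s x) ≠ σ s (u x))
        (B := D.filter fun x => σ s x ∉ D) (C := (U.filter fun p => τ s p ∉ U).image Prod.fst)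
        (E := Bad.image fun y => (σ s)⁻¹ y) (by
          intro x hx
          obtain ⟨hx1, hx2, hx3⟩ := mem_filter.1 hx
          by_cases h6 : σ s x ∈ D
          swap
          · exact Or.inl (mem_filter.2 ⟨hx1, h6⟩)
          by_cases h7 : Rl D U (σ s x) (u (σ s x))
          · exact Or.inr (Or.inl (mem_image.2 ⟨(x, u x), mem_filter.2
              ⟨hx2.2.2.1, fun h8 => hx3 (h7.2.2.2.1 (σ s (u x)) h8).symm⟩, rfl⟩))
          · exact Or.inr (Or.inr (mem_image.2 ⟨σ s x, mem_filter.2 ⟨h6, h7⟩, by simp⟩)))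
      have h6 := img_le Prod.fst (U.filter fun p => τ s p ∉ U)
      have h7 := img_le (fun y => (σ s)⁻¹ y) Bad
      unfold out
      linarith
    have h5 := sum_le_sum h4
    rw [sum_add_distrib, sum_add_distrib, sum_const, nsmul_eq_mul] at h5
    rw [dfc_eq]
    unfold bd
    linarith
  refine ⟨u, le_of_mul_le_mul_left ?_ hγ, ?_⟩
  · have hη : 0 ≤ η * D.card := mul_nonneg (by linarith) hN
    have h2 : γ * dfc σ S D u ≤ γ * ((S.card + 1) * Bad.card + 2 * (η * D.card)) :=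
      mul_le_mul_of_nonneg_left (by linarith) hγ.le
    have h3 : (S.card + 1) * (γ * Bad.card) ≤ (S.card + 1) * (5 * η * D.card) :=
      mul_le_mul_of_nonneg_left hB2 (by linarith)
    have h4 : γ * (η * D.card) ≤ (S.card + 1) * (η * D.card) :=
      mul_le_mul_of_nonneg_right (by linarith) hη
    have h5 := mul_le_mul_of_nonneg_right h1 hN
    nlinarith
  · have h2 : hd D f u ≤ (D.filter fun x => ¬ Rl D U x (f x)).card := by
      unfold hd
      have : (D.filter fun x => f x ≠ u x) ⊆ D.filter fun x => ¬ Rl D U x (f x) := by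
        intro x hx
        obtain ⟨hx1, hx2⟩ := mem_filter.1 hx
        exact mem_filter.2 ⟨hx1, fun h => hx2 (hu x _ h).symm⟩
      exact_mod_cast card_le_card this
    linarith

end Pool.Agent.NS
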