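import Pool.Agent.P.MP_3b226c_al.Approx

set_option autoImplicit false

namespace Pool.Agent.NS

open Finset Equiv
open scoped symmDiff InnerProductSpace ComplexConjugate

lemma thr_point (a b : ℝ) (N : ℕ) (hN : 0 < N) :
    (((range N).filter fun j : ℕ =>
        1 / 3 + (j : ℝ) / (3 * N) < a ∧ ¬ (1 / 3 + (j : ℝ) / (3 * N) < b)).card : ℝ) ≤
      9 * a ^ 2 + N * (9 * (N : ℝ) ^ 2 * (b - a) ^ 2) := by
  have hN' : (0 : ℝ) < N := by exact_mod_cast hN
  by_cases h : 1 / (3 * (N : ℝ)) ≤ a - b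
  · have h1 : (((range N).filter fun j : ℕ =>
        1 / 3 + (j : ℝ) / (3 * N) < a ∧ ¬ (1 / 3 + (j : ℝ) / (3 * N) < b)).card : ℝ) ≤ N := by
      have := card_filter_le (range N) (fun j : ℕ =>
        1 / 3 + (j : ℝ) / (3 * N) < a ∧ ¬ (1 / 3 + (j : ℝ) / (3 * N) < b))
      rw [card_range] at this
      exact_mod_cast this
    have h2 : 1 ≤ 3 * (N : ℝ) * (a - b) := by
      rw [div_le_iff₀ (by positivity)] at h
      linarith
    have h3 : 1 ≤ 9 * (N : ℝ) ^ 2 * (b - a) ^ 2 := by nlinarith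
    have h4 : (N : ℝ) ≤ N * (9 * (N : ℝ) ^ 2 * (b - a) ^ 2) := by nlinarith
    nlinarith [sq_nonneg a]
  · push Not at h
    rcases ((range N).filter fun j : ℕ =>
        1 / 3 + (j : ℝ) / (3 * N) < a ∧ ¬ (1 / 3 + (j : ℝ) / (3 * N) < b)).eq_empty_or_nonempty
      with he | ⟨j0, hj0⟩
    · rw [he]
      simp only [card_empty, Nat.cast_zero]
      positivity
    · have h1 : ((range N).filter fun j : ℕ =>
          1 / 3 + (j : ℝ) / (3 * N) < a ∧ ¬ (1 / 3 + (j : ℝ) / (3 * N) < b)).card ≤ 1 := by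
        rw [card_le_one]
        intro i hi j hj
        obtain ⟨-, hi1, hi2⟩ := mem_filter.1 hi
        obtain ⟨-, hj1, hj2⟩ := mem_filter.1 hj
        push Not at hi2 hj2
        have e1 : (i : ℝ) / (3 * N) < ((j : ℝ) + 1) / (3 * N) := by
          rw [add_div]; linarith
        have e2 : (j : ℝ) / (3 * N) < ((i : ℝ) + 1) / (3 * N) := by
          rw [add_div]; linarith
        rw [div_lt_div_iff_of_pos_right (by positivity)] at e1 e2
        have e3 : i < j + 1 := by exact_mod_cast e1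
        have e4 : j < i + 1 := by exact_mod_cast e2
        omega
      obtain ⟨-, hj1, -⟩ := mem_filter.1 hj0
      have h2 : (0 : ℝ) ≤ (j0 : ℝ) / (3 * N) := by positivity
      have h3 : 1 ≤ 9 * a ^ 2 := by nlinarith
      have h4 : (0 : ℝ) ≤ N * (9 * (N : ℝ) ^ 2 * (b - a) ^ 2) := by positivity
      have h5 : (((range N).filter fun j : ℕ =>
          1 / 3 + (j : ℝ) / (3 * N) < a ∧ ¬ (1 / 3 + (j : ℝ) / (3 * N) < b)).card : ℝ) ≤ 1 := by
        exact_mod_cast h1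
      linarith

theorem threshold {X ι : Type} [Fintype X] [DecidableEq X] (S : Finset ι) (π : ι → Perm X)
    (f : X → ℝ) (T : Finset X) (N : ℕ) (hN : 0 < N) :
    ∃ U : Finset X,
      ((U ∆ T).card : ℝ) ≤ 9 * ∑ x, (f x - if x ∈ T then 1 else 0) ^ 2 ∧
      ∑ s ∈ S, out (π s) U U ≤ 9 * S.card * (∑ x, f x ^ 2) / N +
        9 * (N : ℝ) ^ 2 * ∑ s ∈ S, ∑ x, (f (π s x) - f x) ^ 2 := by
  classical
  have hN' : (0 : ℝ) < N := by exact_mod_cast hN
  let U : ℕ → Finset X := fun j => univ.filter fun x => 1 / 3 + (j : ℝ) / (3 * N) < f x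
  have hout : ∀ j s, out (π s) (U j) (U j) = ∑ x, if 1 / 3 + (j : ℝ) / (3 * N) < f x ∧
      ¬ (1 / 3 + (j : ℝ) / (3 * N) < f (π s x)) then (1 : ℝ) else 0 := by
    intro j s
    rw [sum_boole]
    unfold out
    congr 2
    ext x
    simp [U]
  have hsum : ∑ j ∈ range N, ∑ s ∈ S, out (π s) (U j) (U j) ≤
      ∑ _j ∈ range N, (9 * S.card * (∑ x, f x ^ 2) / N +
        9 * (N : ℝ) ^ 2 * ∑ s ∈ S, ∑ x, (f (π s x) - f x) ^ 2) := by
    rw [sum_const, card_range, nsmul_eq_mul, sum_comm]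
    have e : (N : ℝ) * (9 * S.card * (∑ x, f x ^ 2) / N +
        9 * (N : ℝ) ^ 2 * ∑ s ∈ S, ∑ x, (f (π s x) - f x) ^ 2) =
        ∑ s ∈ S, ∑ x, (9 * f x ^ 2 + N * (9 * (N : ℝ) ^ 2 * (f (π s x) - f x) ^ 2)) := by
      simp only [sum_add_distrib, ← mul_sum, sum_const, nsmul_eq_mul]
      field_simp
    rw [e]
    refine sum_le_sum fun s _ => ?_
    simp only [hout]
    rw [sum_comm]
    refine sum_le_sum fun x _ => ?_
    rw [sum_boole]
    exact thr_point _ _ N hN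
  obtain ⟨j, hj, hle⟩ := exists_le_of_sum_le ⟨0, mem_range.2 hN⟩ hsum
  refine ⟨U j, ?_, hle⟩
  have hj' : (j : ℝ) / (3 * N) ≤ 1 / 3 := by
    rw [div_le_iff₀ (by positivity)]
    have : (j : ℝ) ≤ N := by exact_mod_cast (mem_range.1 hj).le
    linarith
  have hj0 : (0 : ℝ) ≤ (j : ℝ) / (3 * N) := by positivity
  rw [mul_sum, card_eq_sum_ones, Nat.cast_sum]
  refine le_trans (sum_le_sum fun x hx => ?_)
    (sum_le_sum_of_subset_of_nonneg (subset_univ (U j ∆ T)) fun x _ _ => by positivity)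
  rw [Nat.cast_one]
  rcases Finset.mem_symmDiff.1 hx with ⟨h1, h2⟩ | ⟨h1, h2⟩
  · rw [if_neg h2]
    have := (mem_filter.1 h1).2
    nlinarith
  · rw [if_pos h1]
    have : ¬ (1 / 3 + (j : ℝ) / (3 * N) < f x) := fun h => h2 (mem_filter.2 ⟨mem_univ _, h⟩)
    push Not at this
    nlinarith

/-- the normalised indicator of the image of `T` -/
noncomputable def lv {X : Type} [Fintype X] [DecidableEq X] (T : Finset X) (a : Perm X) :
    EuclideanSpace ℂ X :=
  WithLp.toLp 2 fun y => if a.symm y ∈ T then (((√(T.card : ℝ))⁻¹ : ℝ) : ℂ) else 0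

lemma lv_apply {X : Type} [Fintype X] [DecidableEq X] (T : Finset X) (a : Perm X) (y : X) :
    lv T a y = if a.symm y ∈ T then (((√(T.card : ℝ))⁻¹ : ℝ) : ℂ) else 0 := rfl

lemma lv_inner {X : Type} [Fintype X] [DecidableEq X] (T : Finset X) (a b k : Perm X)
    (h : ∀ x ∈ T, b x = a (k x)) :
    ⟪lv T a, lv T b⟫_ℂ =
      ((((T.filter fun x => k x ∈ T).card : ℝ) / (T.card : ℝ) : ℝ) : ℂ) := by
  rw [PiLp.inner_apply, ← Equiv.sum_comp b]
  have hc : (√(T.card : ℝ))⁻¹ * (√(T.card : ℝ))⁻¹ = (T.card : ℝ)⁻¹ := by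
    rw [← mul_inv, Real.mul_self_sqrt (Nat.cast_nonneg _)]
  have e : ∀ x, ⟪lv T a (b x), lv T b (b x)⟫_ℂ =
      (((if x ∈ T ∧ k x ∈ T then (1 : ℝ) else 0) * (T.card : ℝ)⁻¹ : ℝ) : ℂ) := by
    intro x
    rw [lv_apply, lv_apply, Equiv.symm_apply_apply]
    by_cases hx : x ∈ T
    · rw [h x hx, Equiv.symm_apply_apply, if_pos hx]
      by_cases hk : k x ∈ T
      · rw [if_pos hk, if_pos ⟨hx, hk⟩, one_mul, ← hc, RCLike.inner_apply, Complex.conj_ofReal,
          Complex.ofReal_mul]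
      · rw [if_neg hk, if_neg (fun h => hk h.2)]
        simp
    · rw [if_neg hx, if_neg (fun h : x ∈ T ∧ k x ∈ T => hx h.1)]
      simp
  simp only [e]
  rw [← Complex.ofReal_sum, ← sum_mul, sum_boole, div_eq_mul_inv]
  congr 4
  ext x
  simp

lemma re_sq_le {X : Type} [Fintype X] (u : EuclideanSpace ℂ X) :
    ∑ x, (u x).re ^ 2 ≤ ‖u‖ ^ 2 := by
  rw [EuclideanSpace.norm_sq_eq]
  refine sum_le_sum fun x _ => ?_
  rw [← sq_abs]
  exact pow_le_pow_left₀ (abs_nonneg _) (Complex.abs_re_le_norm _) 2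

theorem localT {G : Type} [Group G] (H : Subgroup G) (S : Finset G) (hS : ∀ s ∈ S, s ∈ H) (C : ℝ)
    (hK : Kaz (H : Set G) (S : Set G) C) :
    ∃ γ : ℝ, 0 < γ ∧ γ ≤ 1 ∧ ∀ ε : ℝ, 0 < ε → ∃ F : Finset G, LT S F γ ε := by
  classical
  have hC : 0 < C ^ 2 + 1 := by positivity
  refine ⟨1 / (8000 * (C ^ 2 + 1)), by positivity, ?_, fun ε hε => ?_⟩
  · rw [div_le_one (by positivity)]
    nlinarith [sq_nonneg C]
  obtain ⟨N, hN1⟩ := exists_nat_gt (54 * (S.card : ℝ) / ε)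
  have hN' : (0 : ℝ) < N := lt_of_le_of_lt (by positivity) hN1
  have hN : 0 < N := by exact_mod_cast hN'
  obtain ⟨η, hη, hη1, hη2⟩ : ∃ η : ℝ, 0 < η ∧ η ≤ 1 / 2000 ∧
      η ≤ ε / (18 * (N : ℝ) ^ 2 * (S.card + 1)) :=
    ⟨min (1 / 2000) (ε / (18 * (N : ℝ) ^ 2 * (S.card + 1))), by positivity, min_le_left _ _,
      min_le_right _ _⟩
  obtain ⟨A, h1A, hSA, hA⟩ := approx H S hS C hK η hη
  refine ⟨A ∪ (A ×ˢ A).image fun p => p.1⁻¹ * p.2, ?_⟩
  intro X _ _ σ T hgood hbd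
  rcases T.eq_empty_or_nonempty with rfl | hne
  · refine ⟨∅, by simp, ?_⟩
    simp [bd, out]
  have hT : (0 : ℝ) < T.card := by exact_mod_cast hne.card_pos
  have hr : (0 : ℝ) < √(T.card : ℝ) := Real.sqrt_pos.2 hT
  have hrr : √(T.card : ℝ) ^ 2 = T.card := Real.sq_sqrt hT.le
  have ha : ∀ g ∈ A, ∀ h ∈ A, ∀ x ∈ T, σ h x = σ g (σ (g⁻¹ * h) x) := by
    intro g hg h hh x hx
    have := hgood x hx g (mem_union_left _ hg) (g⁻¹ * h)
      (mem_union_right _ (mem_image.2 ⟨(g, h), mem_product.2 ⟨hg, hh⟩, rfl⟩))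
    rwa [mul_inv_cancel_left] at this
  have hb : ∀ x ∈ T, σ 1 x = x := by
    intro x hx
    have := hgood x hx 1 (mem_union_left _ h1A) 1 (mem_union_left _ h1A)
    rw [mul_one] at this
    exact ((σ 1).injective this).symm
  have hc : ∀ g ∈ A, ∀ h ∈ A, ∀ x ∈ T, σ (g * h) x = σ g (σ h x) := fun g hg h hh x hx =>
    hgood x hx g (mem_union_left _ hg) h (mem_union_left _ hh)
  let v : G → EuclideanSpace ℂ X := fun g => lv T (σ g)
  let φ : G → ℂ := fun g =>
    ((((T.filter fun x => σ g x ∈ T).card : ℝ) / (T.card : ℝ) : ℝ) : ℂ)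
  have hφ1 : φ 1 = 1 := by
    have : (T.filter fun x => σ 1 x ∈ T) = T :=
      filter_true_of_mem fun x hx => by rw [hb x hx]; exact hx
    simp only [φ, this]
    rw [div_self hT.ne', Complex.ofReal_one]
  have hφ : ∀ g, ‖φ g‖ ≤ 1 := by
    intro g
    simp only [φ]
    rw [Complex.norm_real, Real.norm_of_nonneg (by positivity), div_le_one hT]
    exact_mod_cast card_filter_le _ _
  have hin : ∀ g ∈ A, ∀ h ∈ A, ⟪v g, v h⟫_ℂ = φ (g⁻¹ * h) := fun g hg h hh =>
    lv_inner T (σ g) (σ h) (σ (g⁻¹ * h)) (ha g hg h hh)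
  obtain ⟨ν, hν, h1, h2⟩ := hA (EuclideanSpace ℂ X) v φ hφ hφ1 hin
  have hnorm : ∀ g ∈ A, ‖v g‖ ^ 2 = 1 := by
    intro g hg
    rw [@norm_sq_eq_re_inner ℂ, hin g hg g hg, inv_mul_cancel, hφ1]
    simp
  have hvs : ∀ s ∈ S, ‖v s - v 1‖ ^ 2 = 2 * out (σ s) T T / T.card := by
    intro s hs
    rw [norm_sub_rev, @norm_sub_sq ℂ, hnorm 1 h1A, hnorm s (hSA hs), hin 1 h1A s (hSA hs),
      inv_one, one_mul]
    have e := card_filter_add_card_filter_not (s := T) (fun x => σ s x ∈ T)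
    have e' : ((T.filter fun x => σ s x ∈ T).card : ℝ) + out (σ s) T T = T.card := by
      unfold out
      exact_mod_cast e
    simp only [φ, RCLike.re_to_complex, Complex.ofReal_re]
    field_simp
    linarith
  have hsumv : ∑ s ∈ S, ‖v s - v 1‖ ^ 2 ≤ 2 * (1 / (8000 * (C ^ 2 + 1))) := by
    rw [sum_congr rfl hvs, ← sum_div, ← mul_sum, div_le_iff₀ hT]
    unfold bd at hbd
    linarith
  set u : EuclideanSpace ℂ X := ν.sum (fun g c => c • v g) with hu
  have hclose : ‖u - v 1‖ ^ 2 ≤ 1 / 1000 := by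
    have e1 : 2 * C ^ 2 * ∑ s ∈ S, ‖v s - v 1‖ ^ 2 ≤
        2 * C ^ 2 * (2 * (1 / (8000 * (C ^ 2 + 1)))) :=
      mul_le_mul_of_nonneg_left hsumv (by positivity)
    have e2 : 2 * C ^ 2 * (2 * (1 / (8000 * (C ^ 2 + 1)))) ≤ 1 / 2000 := by
      rw [show 2 * C ^ 2 * (2 * (1 / (8000 * (C ^ 2 + 1)))) = C ^ 2 / (2000 * (C ^ 2 + 1)) by
        field_simp; ring, div_le_div_iff₀ (by positivity) (by norm_num)]
      nlinarith
    linarith
  let f : X → ℝ := fun x => √(T.card : ℝ) * (u x).re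
  have hf1 : ∑ x, (f x - if x ∈ T then (1 : ℝ) else 0) ^ 2 ≤ (T.card : ℝ) / 1000 := by
    have e : ∀ x, (f x - if x ∈ T then (1 : ℝ) else 0) ^ 2 =
        (T.card : ℝ) * ((u - v 1) x).re ^ 2 := by
      intro x
      have e0 : (σ 1).symm x ∈ T ↔ x ∈ T := by
        constructor
        · intro hx
          have := hb _ hx
          rw [Equiv.apply_symm_apply] at this
          rw [this]; exact hx
        · intro hx
          have : (σ 1).symm x = x := by
            rw [Equiv.symm_apply_eq]; exact (hb x hx).symm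
          rw [this]; exact hx
      have e1 : (if x ∈ T then (1 : ℝ) else 0) = √(T.card : ℝ) * (v 1 x).re := by
        simp only [v, lv_apply, e0]
        split_ifs
        · rw [Complex.ofReal_re, mul_inv_cancel₀ hr.ne']
        · simp
      rw [e1, PiLp.sub_apply, Complex.sub_re, ← mul_sub, mul_pow, hrr]
    rw [sum_congr rfl fun x _ => e x, ← mul_sum]
    have := (re_sq_le (u - v 1)).trans hclose
    calc (T.card : ℝ) * ∑ x, ((u - v 1) x).re ^ 2 ≤ T.card * (1 / 1000) :=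
          mul_le_mul_of_nonneg_left this hT.le
      _ = T.card / 1000 := by ring
  have hf2 : ∑ x, f x ^ 2 ≤ 3 * (T.card : ℝ) := by
    have e : ∑ x, f x ^ 2 ≤ ∑ x, (2 * (f x - if x ∈ T then (1 : ℝ) else 0) ^ 2 +
        2 * if x ∈ T then (1 : ℝ) else 0) := by
      refine sum_le_sum fun x _ => ?_
      split_ifs
      · nlinarith [sq_nonneg (f x - 2)]
      · nlinarith [sq_nonneg (f x)]
    rw [sum_add_distrib, ← mul_sum, ← mul_sum, sum_boole] at e
    have e2 : (univ.filter fun x => x ∈ T) = T := by ext x; simp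
    rw [e2] at e
    linarith
  have hf3 : ∀ s ∈ S, ∑ x, (f (σ s x) - f x) ^ 2 ≤ (T.card : ℝ) * η := by
    intro s hs
    set w : EuclideanSpace ℂ X := ν.sum (fun g c => c • v (s * g)) with hw
    have hwu : ∀ x, w (σ s x) = u x := by
      intro x
      simp only [hw, hu, Finsupp.sum, WithLp.ofLp_sum, Finset.sum_apply, PiLp.smul_apply]
      refine sum_congr rfl fun g hg => ?_
      have e0 : (σ (s * g)).symm (σ s x) ∈ T ↔ (σ g).symm x ∈ T := by
        constructor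
        · intro hx
          have := hc s (hSA hs) g (hν g hg).1 _ hx
          rw [Equiv.apply_symm_apply] at this
          have h3 := (σ s).injective this
          have h4 : (σ g).symm x = (σ (s * g)).symm (σ s x) := by
            rw [Equiv.symm_apply_eq]; exact h3
          rw [h4]; exact hx
        · intro hx
          have := hc s (hSA hs) g (hν g hg).1 _ hx
          rw [Equiv.apply_symm_apply] at this
          have h4 : (σ (s * g)).symm (σ s x) = (σ g).symm x := by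
            rw [Equiv.symm_apply_eq]; exact this.symm
          rw [h4]; exact hx
      simp only [v, lv_apply, e0]
    have e : ∀ x, (f (σ s x) - f x) ^ 2 = (T.card : ℝ) * ((w - u) (σ s x)).re ^ 2 := by
      intro x
      rw [PiLp.sub_apply, Complex.sub_re, hwu, ← hrr]
      simp only [f]
      ring
    rw [sum_congr rfl fun x _ => e x, ← mul_sum,
      Equiv.sum_comp (σ s) fun y => ((w - u) y).re ^ 2]
    exact mul_le_mul_of_nonneg_left ((re_sq_le (w - u)).trans (h2 s hs)) hT.le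
  obtain ⟨U, hU1, hU2⟩ := threshold S σ f T N hN
  refine ⟨U, by linarith, ?_⟩
  unfold bd
  have e1 : 9 * S.card * (∑ x, f x ^ 2) / N ≤ ε / 2 * T.card := by
    rw [div_lt_iff₀ hε] at hN1
    rw [div_le_iff₀ hN']
    have : 9 * (S.card : ℝ) * (∑ x, f x ^ 2) ≤ 9 * S.card * (3 * T.card) :=
      mul_le_mul_of_nonneg_left hf2 (by positivity)
    nlinarith
  have e2 : 9 * (N : ℝ) ^ 2 * ∑ s ∈ S, ∑ x, (f (σ s x) - f x) ^ 2 ≤ ε / 2 * T.card := by
    have e3 := sum_le_sum hf3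
    rw [sum_const, nsmul_eq_mul] at e3
    rw [le_div_iff₀ (by positivity)] at hη2
    have e4 : 9 * (N : ℝ) ^ 2 * ∑ s ∈ S, ∑ x, (f (σ s x) - f x) ^ 2 ≤
        9 * (N : ℝ) ^ 2 * (S.card * (T.card * η)) :=
      mul_le_mul_of_nonneg_left e3 (by positivity)
    have e5 : 0 ≤ (N : ℝ) ^ 2 * η * T.card := by positivity
    nlinarith
  linarith

end Pool.Agent.NS
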