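import Pool.Agent.P.MP_3b226c_al.MainAux

set_option autoImplicit false
set_option linter.unusedSectionVars false

namespace Pool.Agent.NS.M

open Finset Equiv

variable {G X : Type} [Group G] [Fintype X] [DecidableEq X]

/-- a class on which the cluster group exists and the central elements behave well -/
def OK (σ : G → Perm X) (S F M : Finset G) (δ₁ δ : ℝ) (c : G) (D : Finset X) : Prop :=
  Nonempty (Clu σ S D δ₁ δ) ∧ D.Nonempty ∧ (∀ y ∈ D, Good σ F y) ∧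
    (∀ m ∈ M, Fine σ S F δ₁ D m) ∧
    ((D ∩ univ.filter fun x => σ c x = x).card : ℝ) ≤ 1 / 4 * D.card

/-- `σ g` transports the class `D` to the class `D'` -/
def Tr (σ : G → Perm X) (S : Finset G) (δ₁ δ : ℝ) (g : G) (D D' : Finset X) : Prop :=
  100 * out (σ g) D D' ≤ D.card ∧ 100 * out (σ g)⁻¹ D' D ≤ D'.card ∧
    ∀ f, dfc σ S D f ≤ 2 * δ₁ * D.card → dfc σ S D' (σ g * f * (σ g)⁻¹) ≤ δ * D'.card

theorem core [Nonempty X] (σ : G → Perm X) (S F M : Finset G) (δ₁ δ : ℝ) (h0 : 0 ≤ δ₁)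
    (h2 : 2 * δ₁ ≤ δ) (Y₁ Y₂ Y₃ c a s v : G)
    (hM : ∀ m, (m = 1 ∨ m = Y₁ ∨ m = Y₂ ∨ m = Y₃ ∨ m = c ∨ m = Y₁ * Y₁ ∨ m = Y₂ * Y₂ ∨
      m = Y₁ * Y₂ ∨ m = Y₁ * c ∨ m = c * c) → m ∈ M)
    (haF : a ∈ F) (hsF : s ∈ F) (hvF : v ∈ F)
    (h12 : Y₁ * Y₂ = Y₂ * Y₁) (h1c : Y₁ * c = c * Y₁)
    (h123 : Y₁ * Y₂ * Y₃ = 1) (ha1 : a * Y₁ * a⁻¹ = Y₁ * Y₁) (ha2 : a * (Y₂ * Y₂) * a⁻¹ = Y₂)
    (hs1 : s * Y₁ * s⁻¹ = Y₂) (hs2 : s * Y₂ * s⁻¹ = Y₃) (hs3 : s * Y₃ * s⁻¹ = Y₁)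
    (hv : v * Y₁ * v⁻¹ = Y₁ * c) (hcc : σ (c * c) = σ 1)
    (K : X → Finset X) (E : Finset X) (hE : 1000000 * E.card ≤ Fintype.card X)
    (hOK : ∀ x ∉ E, OK σ S F M δ₁ δ c (K x))
    (hTr : ∀ x ∉ E, ∀ g, (g = a ∨ g = s ∨ g = v) →
      OK σ S F M δ₁ δ c (K (σ g x)) ∧ Tr σ S δ₁ δ g (K x) (K (σ g x))) : False := by
  have m1 := hM 1 (by simp)
  have mY1 := hM Y₁ (by simp)
  have mY2 := hM Y₂ (by simp)
  have mY3 := hM Y₃ (by simp)
  have mc := hM c (by simp)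
  have m11 := hM (Y₁ * Y₁) (by simp)
  have m22 := hM (Y₂ * Y₂) (by simp)
  have m12 := hM (Y₁ * Y₂) (by simp)
  have m1c := hM (Y₁ * c) (by simp)
  have mcc := hM (c * c) (by simp)
  have key : ∀ x ∉ E, ∀ g, (g = a ∨ g = s ∨ g = v) → ∀ m ∈ M, ∀ m' ∈ M, g * m * g⁻¹ = m' →
      vv σ S δ₁ δ (K (σ g x)) (σ m') = vv σ S δ₁ δ (K x) (σ m) := by
    intro x hx g hg m hm m' hm' h
    obtain ⟨hc, hne, hgd, hfine, -⟩ := hOK x hx
    obtain ⟨⟨hc', -, -, hfine', -⟩, t1, t2, t3⟩ := hTr x hx g hg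
    have hgF : g ∈ F := by rcases hg with rfl | rfl | rfl <;> assumption
    rw [vv_eq hc, vv_eq hc',
      ord_conj hc.some hc'.some g hgF hne hgd h0 h2 t1 t2 t3 (hfine m hm) (hfine' m' hm') h]
  have sq : ∀ D, OK σ S F M δ₁ δ c D → ∀ m ∈ M, m * m ∈ M →
      vv σ S δ₁ δ D (σ (m * m)) = vv σ S δ₁ δ D (σ m) - 1 := by
    intro D ⟨hc, _, hgd, hfine, _⟩ m hm hmm
    rw [vv_eq hc, vv_eq hc, cl_mul hc.some hgd h0 h2 (hfine m hm) (hfine m hm) (hfine _ hmm),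
      val_sq]
  refine count (fun x => vv σ S δ₁ δ (K x) (σ Y₁)) (fun x => vv σ S δ₁ δ (K x) (σ Y₂))
    (fun x => vv σ S δ₁ δ (K x) (σ Y₃)) (σ a) (σ s) (σ v) E hE ?_ ?_ ?_ ?_
  · intro x hx
    obtain ⟨hc, hne, hgd, hfine, -⟩ := hOK x hx
    simp only [vv_eq hc]
    have e12 := cl_mul hc.some hgd h0 h2 (hfine _ mY1) (hfine _ mY2) (hfine _ m12)
    have e21 := cl_mul hc.some hgd h0 h2 (hfine _ mY2) (hfine _ mY1) (h12 ▸ hfine _ m12)
    have e3 := cl_mul hc.some hgd h0 h2 (hfine _ m12) (hfine _ mY3) (h123 ▸ hfine _ m1)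
    refine val_ultra _ _ _ ?_ ?_
    · show _ * _ = _ * _
      rw [← e12, ← e21, h12]
    · rw [← e12, ← e3, h123]
      exact cl_one hc.some hgd h0 h2 (hfine _ m1)
  · intro x hx
    refine ⟨?_, ?_⟩
    · rw [← key x hx a (by simp) _ mY1 _ m11 ha1, sq _ (hTr x hx a (by simp)).1 _ mY1 m11]
    · rw [key x hx a (by simp) _ m22 _ mY2 ha2, sq _ (hOK x hx) _ mY2 m22]
  · intro x hx
    exact ⟨key x hx s (by simp) _ mY1 _ mY2 hs1, key x hx s (by simp) _ mY2 _ mY3 hs2,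
      key x hx s (by simp) _ mY3 _ mY1 hs3⟩
  · intro x hx h
    have h' := key x hx v (by simp) _ mY1 _ m1c hv
    obtain ⟨⟨hc, hne, hgd, hfine, hfix⟩, -⟩ := hTr x hx v (by simp)
    rw [h, vv_eq hc] at h'
    simp only [vv_eq hc]
    have e1 := cl_mul hc.some hgd h0 h2 (hfine _ mY1) (hfine _ mc) (hfine _ m1c)
    have e2 := cl_mul hc.some hgd h0 h2 (hfine _ mc) (hfine _ mY1) (h1c ▸ hfine _ m1c)
    have e3 := cl_mul hc.some hgd h0 h2 (hfine _ mc) (hfine _ mc) (hfine _ mcc)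
    refine val_c _ (hc.some.cl (σ c)) ?_ ?_ (cl_ne_one hc.some hne h0 h2 (hfine _ mc) hfix) ?_
    · show _ * _ = _ * _
      rw [← e1, ← e2, h1c]
    · rw [← e3, hcc]
      exact cl_one hc.some hgd h0 h2 (hfine _ m1)
    · rw [← e1]
      exact h'

theorem tr_of_out (σ : G → Perm X) (S F : Finset G) (g : G) (L δ₁ δ η τ : ℝ) (hL : 0 ≤ L)
    (hg : g ∈ F) (hS : ∀ s ∈ S, s ∈ F ∧ g⁻¹ * s * g ∈ F)
    (hw : ∀ T : Finset (X × X), (∀ x ∈ T, Good (fun g => (σ g).prodCongr (σ g)) F x) →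
      ∀ s ∈ S, out ((σ (g⁻¹ * s * g)).prodCongr (σ (g⁻¹ * s * g))) T T ≤
        L * bd (fun g => (σ g).prodCongr (σ g)) S T)
    (D D' : Finset X) (hD : ∀ y ∈ D, Good σ F y) (hbd : bd σ S D ≤ η * D.card)
    (ho : out (σ g) D D' ≤ τ * D.card) (ho' : out (σ g)⁻¹ D' D ≤ τ * D'.card)
    (hτ0 : 0 ≤ τ) (hτ : 100 * τ ≤ 1) (hτδ : 10 * τ ≤ δ) (h0 : 0 ≤ δ₁) (hη0 : 0 ≤ η)
    (h1 : 10 * (1 + S.card * (2 * S.card * L + 1)) * δ₁ ≤ δ) (h2 : 10 * (S.card * L * η) ≤ δ) :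
    Tr σ S δ₁ δ g D D' := by
  have p : (0 : ℝ) ≤ D.card := Nat.cast_nonneg _
  have p' : (0 : ℝ) ≤ D'.card := Nat.cast_nonneg _
  have d0 : (0 : ℝ) ≤ S.card := Nat.cast_nonneg _
  refine ⟨by nlinarith, by nlinarith, fun f hf => ?_⟩
  have h3 := conj_dfc σ S F g L hL hg hS hw D D' hD f
  have h4 := card_le_out (σ g) D D'
  have h5 : (D.card : ℝ) ≤ 2 * D'.card := by nlinarith
  set M : ℝ := 1 + S.card * (2 * S.card * L + 1) with hM
  have M0 : 0 ≤ M := by positivity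
  have h6 : dfc σ S D f + S.card * (L * bd σ S D + (2 * S.card * L + 1) * dfc σ S D f) =
      M * dfc σ S D f + S.card * L * bd σ S D := by rw [hM]; ring
  have h7 : M * dfc σ S D f ≤ M * (2 * δ₁ * (2 * D'.card)) :=
    mul_le_mul_of_nonneg_left (hf.trans (mul_le_mul_of_nonneg_left h5 (by linarith))) M0
  have h8 : S.card * L * bd σ S D ≤ S.card * L * (η * (2 * D'.card)) :=
    mul_le_mul_of_nonneg_left (hbd.trans (mul_le_mul_of_nonneg_left h5 hη0)) (by positivity)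
  have h9 : τ * D.card ≤ τ * (2 * D'.card) := mul_le_mul_of_nonneg_left h5 hτ0
  have h10 : 10 * M * δ₁ * D'.card ≤ δ * D'.card := mul_le_mul_of_nonneg_right h1 p'
  have h11 : 10 * (S.card * L * η) * D'.card ≤ δ * D'.card := mul_le_mul_of_nonneg_right h2 p'
  have h12 : 10 * τ * D'.card ≤ δ * D'.card := mul_le_mul_of_nonneg_right hτδ p'
  have h13 : 0 ≤ δ * D'.card := mul_nonneg (by linarith) p'
  nlinarith

open Classical in
theorem chg_bound {ι : Type} [DecidableEq ι] (σ : G → Perm X) (S F : Finset G) (l : X → ι)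
    (γ θ L : ℝ) (hL : 0 ≤ L) (π : Perm X)
    (hw : ∀ T : Finset X, (∀ x ∈ T, Good σ F x) → out π T T ≤ L * bd σ S T)
    (hcut : cut σ S l ≤ θ)
    (hnn : ((univ.filter fun x => ¬ Nice σ S F γ (cls l x)).card : ℝ) ≤ θ) :
    chg l π ≤ θ + L * θ := by
  have h := chg_le σ S l π L hL (Nice σ S F γ) (fun x hx => hw _ hx.2)
  have h2 := mul_le_mul_of_nonneg_left hcut hL
  linarith

open Classical in
theorem exc_g {ι : Type} [DecidableEq ι] (σ : G → Perm X) (S F : Finset G) (l : X → ι) (g : G)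
    (γ τ θ L : ℝ) (hγ : 0 < γ) (hτ : 0 < τ) (hτ1 : τ ≤ 1) (hL : 0 ≤ L)
    (hg : g ∈ F) (hS : ∀ s ∈ S, s ∈ F ∧ g * s * g⁻¹ ∈ F ∧ g⁻¹ * s * g ∈ F)
    (hw : ∀ T : Finset X, (∀ x ∈ T, Good σ F x) → ∀ s ∈ S,
      out (σ (g * s * g⁻¹)) T T ≤ L * bd σ S T ∧ out (σ (g⁻¹ * s * g)) T T ≤ L * bd σ S T)
    (hcut : cut σ S l ≤ θ)
    (hnn : ((univ.filter fun x => ¬ Nice σ S F γ (cls l x)).card : ℝ) ≤ θ)
    (hnb : nbad σ F ≤ θ) :
    τ * γ * ((univ.filter fun x =>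
        τ * (cls l x).card < out (σ g) (cls l x) (cls l (σ g x)) ∨
        τ * (cls l (σ g x)).card < out (σ g)⁻¹ (cls l (σ g x)) (cls l x)).card : ℝ) ≤
      2 * (τ * γ * θ + 2 * (θ + S.card * (2 + L) * θ)) := by
  obtain ⟨c1, c2⟩ := cut_conj σ S F l g hg hS
  have d0 : (0 : ℝ) ≤ S.card := Nat.cast_nonneg _
  have s1 : ∑ s ∈ S, chg l (σ (g * s * g⁻¹)) ≤ S.card * (θ + L * θ) := by
    have := Finset.sum_le_card_nsmul S (fun s => chg l (σ (g * s * g⁻¹))) (θ + L * θ)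
      (fun s hs => chg_bound σ S F l γ θ L hL _ (fun T hT => (hw T hT s hs).1) hcut hnn)
    rwa [nsmul_eq_mul] at this
  have s2 : ∑ s ∈ S, chg l (σ (g⁻¹ * s * g)) ≤ S.card * (θ + L * θ) := by
    have := Finset.sum_le_card_nsmul S (fun s => chg l (σ (g⁻¹ * s * g))) (θ + L * θ)
      (fun s hs => chg_bound σ S F l γ θ L hL _ (fun T hT => (hw T hT s hs).2) hcut hnn)
    rwa [nsmul_eq_mul] at this
  have o1 := overlap σ S l (σ g) γ τ hγ hτ hτ1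
  have o2 := overlap σ S l (σ g)⁻¹ γ τ hγ hτ hτ1
  have hz : ((univ.filter fun x => ¬ Exp σ S γ (cls l x)).card : ℝ) ≤ θ := by
    refine le_trans (Nat.cast_le.2 (Finset.card_le_card ?_)) hnn
    intro x hx
    simp only [mem_filter, mem_univ, true_and] at hx ⊢
    exact fun h => hx h.1
  have e2 := card_preimage_perm (σ g)
    (fun y => τ * (cls l y).card < out (σ g)⁻¹ (cls l y) (cls l ((σ g)⁻¹ y)))
  have e3 : ((univ.filter fun x =>
        τ * (cls l x).card < out (σ g) (cls l x) (cls l (σ g x)) ∨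
        τ * (cls l (σ g x)).card < out (σ g)⁻¹ (cls l (σ g x)) (cls l x)).card : ℝ) ≤
      ((univ.filter fun x =>
        τ * (cls l x).card < out (σ g) (cls l x) (cls l (σ g x))).card : ℝ) +
      ((univ.filter fun y =>
        τ * (cls l y).card < out (σ g)⁻¹ (cls l y) (cls l ((σ g)⁻¹ y))).card : ℝ) := by
    rw [← e2, Finset.filter_or]
    have := Finset.card_union_le (univ.filter fun x =>
        τ * (cls l x).card < out (σ g) (cls l x) (cls l (σ g x))) (univ.filter fun x =>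
        τ * (cls l (σ g x)).card < out (σ g)⁻¹ (cls l (σ g x)) (cls l x))
    have e4 : ∀ x, (σ g)⁻¹ (σ g x) = x := by simp
    simp only [e4]
    exact_mod_cast this
  have tg : 0 ≤ τ * γ := by positivity
  have e5 := mul_le_mul_of_nonneg_left e3 tg
  have e6 := mul_le_mul_of_nonneg_left hz tg
  have e7 := mul_le_mul_of_nonneg_left hnb d0
  nlinarith

end Pool.Agent.NS.M
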