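import Pool.Agent.P.MP_3b226c_al.LocalT
import Pool.Agent.P.MP_3b226c_al.Decomp
import Pool.Agent.P.MP_3b226c_al.MainCore

set_option autoImplicit false

namespace Pool.Agent.NS

open Finset Equiv
open scoped symmDiff InnerProductSpace ComplexConjugate

namespace M

theorem consts (γ L d : ℝ) (hγ : 0 < γ) (hγ1 : γ ≤ 1) (hL : 0 ≤ L) (hd : 0 ≤ d) :
    ∃ δ δ₁ η τ θ : ℝ, 0 < δ₁ ∧ 0 < η ∧ 0 < τ ∧ 0 < θ ∧ 2 * δ₁ ≤ δ ∧ 1000 * (d + 1) * δ ≤ γ ∧
      7 * (d + 1) * η ≤ γ * δ₁ ∧ L * η ≤ δ₁ ∧ 100 * τ ≤ 1 ∧ 10 * τ ≤ δ ∧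
      10 * (1 + d * (2 * d * L + 1)) * δ₁ ≤ δ ∧ 10 * (d * L * η) ≤ δ ∧
      100000000 * θ ≤ η ∧ η ≤ 1 ∧
      100000000 * (2 * (τ * γ * θ + 2 * (θ + d * (2 + L) * θ))) ≤ τ * γ := by
  obtain ⟨δ, hδ0, hδ⟩ : ∃ δ : ℝ, 0 < δ ∧ 1000 * (d + 1) * δ = γ :=
    ⟨γ / (1000 * (d + 1)), by positivity, by field_simp⟩
  obtain ⟨δ₁, h10, h1⟩ : ∃ δ₁ : ℝ, 0 < δ₁ ∧ 10 * (1 + d * (2 * d * L + 1)) * δ₁ = δ :=
    ⟨δ / (10 * (1 + d * (2 * d * L + 1))), by positivity, by field_simp⟩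
  obtain ⟨η, hη0, hη⟩ : ∃ η : ℝ, 0 < η ∧ 7 * (d + 1) * (L + 1) * η = γ * δ₁ :=
    ⟨γ * δ₁ / (7 * (d + 1) * (L + 1)), by positivity, by field_simp⟩
  obtain ⟨θ₁, hθ0, hθ⟩ : ∃ θ : ℝ, 0 < θ ∧
      100000000 * (2 * (δ / 10 * γ * θ + 2 * (θ + d * (2 + L) * θ))) = δ / 10 * γ :=
    ⟨δ / 10 * γ / (100000000 * (2 * (δ / 10 * γ + 2 * (1 + d * (2 + L))))), by positivity,
      by field_simp⟩
  have a1 : 0 ≤ d * δ := by positivity
  have a2 : 0 ≤ d * (2 * d * L + 1) * δ₁ := by positivity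
  have a3 : 10 * δ₁ ≤ δ := by nlinarith
  have a4 : 1000 * δ ≤ 1 := by nlinarith
  have a5 : γ * δ₁ ≤ δ₁ := by nlinarith
  have a6 : 0 ≤ d * L * η := by positivity
  have a7 : 0 ≤ d * η := by positivity
  have a8 : 0 ≤ L * η := by positivity
  have a9 : 7 * (d * L * η) + 7 * (d * η) + 7 * (L * η) + 7 * η = γ * δ₁ := by
    rw [← hη]; ring
  refine ⟨δ, δ₁, η, δ / 10, min θ₁ (η / 100000000), h10, hη0, by positivity,
    lt_min hθ0 (by positivity), by linarith, hδ.le, by linarith, by linarith, by linarith,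
    by linarith, h1.le, by linarith, ?_, by linarith, ?_⟩
  · have := min_le_right θ₁ (η / 100000000)
    linarith
  · have h := min_le_left θ₁ (η / 100000000)
    have b : 0 ≤ 100000000 * (2 * (δ / 10 * γ + 2 * (1 + d * (2 + L)))) := by positivity
    have := mul_le_mul_of_nonneg_left h b
    nlinarith

theorem consts' (θ γ d f : ℝ) (hθ : 0 < θ) (hγ : 0 < γ) (hd : 0 ≤ d) :
    ∃ ε : ℝ, 0 < ε ∧ ε ≤ θ ∧ 2 * (1 + 2 * d) * (f * f * ε) ≤ θ * γ := by
  have hf : 0 < f * f + 1 := by nlinarith [mul_self_nonneg f]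
  have h0 : 0 < 2 * (1 + 2 * d) * (f * f + 1) := by positivity
  have h' := lt_min hθ (show 0 < θ * γ / (2 * (1 + 2 * d) * (f * f + 1)) by positivity)
  refine ⟨_, h', min_le_left _ _, ?_⟩
  have h := min_le_right θ (θ * γ / (2 * (1 + 2 * d) * (f * f + 1)))
  rw [le_div_iff₀ h0] at h
  have h1 : 0 ≤ (1 + 2 * d) * min θ (θ * γ / (2 * (1 + 2 * d) * (f * f + 1))) := by positivity
  nlinarith

end M

open M in
theorem nonsofic {G : Type} [Group G] (H : Subgroup G) (hH : H.Normal) (S : Finset G)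
    (hS : ∀ s ∈ S, s ∈ H) (C : ℝ) (hK : Kaz (H : Set G) (S : Set G) C) (Y₁ Y₂ Y₃ c a s v : G)
    (hz : ∀ y, (y = Y₁ ∨ y = Y₂ ∨ y = Y₃ ∨ y = c) → y ∈ H ∧ ∀ h ∈ H, y * h = h * y)
    (h123 : Y₁ * Y₂ * Y₃ = 1) (ha1 : a * Y₁ * a⁻¹ = Y₁ * Y₁) (ha2 : a * (Y₂ * Y₂) * a⁻¹ = Y₂)
    (hs1 : s * Y₁ * s⁻¹ = Y₂) (hs2 : s * Y₂ * s⁻¹ = Y₃) (hs3 : s * Y₃ * s⁻¹ = Y₁)
    (hv : v * Y₁ * v⁻¹ = Y₁ * c) :
    ∃ (F : Finset G) (ε : ℝ), 0 < ε ∧ c ∈ F ∧
      ∀ (X : Type) [Fintype X] [DecidableEq X] [Nonempty X] (σ : G → Perm X),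
        (∀ g ∈ F, ∀ h ∈ F,
          ((univ.filter fun x => σ (g * h) x ≠ σ g (σ h x)).card : ℝ) ≤ ε * Fintype.card X) →
        σ (c * c) = σ 1 →
        ((univ.filter fun x => σ c x = x).card : ℝ) ≤ ε * Fintype.card X → False := by
  classical
  obtain ⟨γ, hγ, hγ1, hLT⟩ := localT H S hS C hK
  obtain ⟨z1, c1⟩ := hz Y₁ (by simp)
  obtain ⟨z2, c2⟩ := hz Y₂ (by simp)
  obtain ⟨z3, c3⟩ := hz Y₃ (by simp)
  obtain ⟨zc, cc⟩ := hz c (by simp)
  have hmul : ∀ y y' : G, (∀ h ∈ H, y * h = h * y) → (∀ h ∈ H, y' * h = h * y') →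
      ∀ h ∈ H, y * y' * h = h * (y * y') := by
    intro y y' hy hy' h hh
    rw [mul_assoc, hy' h hh, ← mul_assoc, hy h hh, mul_assoc]
  obtain ⟨M, hM, hMz⟩ : ∃ M : Finset G,
      (∀ m, (m = 1 ∨ m = Y₁ ∨ m = Y₂ ∨ m = Y₃ ∨ m = c ∨ m = Y₁ * Y₁ ∨ m = Y₂ * Y₂ ∨
        m = Y₁ * Y₂ ∨ m = Y₁ * c ∨ m = c * c) → m ∈ M) ∧
      ∀ m ∈ M, m ∈ H ∧ ∀ h ∈ H, m * h = h * m := by
    refine ⟨{1, Y₁, Y₂, Y₃, c, Y₁ * Y₁, Y₂ * Y₂, Y₁ * Y₂, Y₁ * c, c * c}, ?_, ?_⟩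
    · intro m hm
      simpa only [mem_insert, mem_singleton] using hm
    · intro m hm
      simp only [mem_insert, mem_singleton] at hm
      rcases hm with rfl | rfl | rfl | rfl | rfl | rfl | rfl | rfl | rfl | rfl
      · exact ⟨H.one_mem, by simp⟩
      · exact ⟨z1, c1⟩
      · exact ⟨z2, c2⟩
      · exact ⟨z3, c3⟩
      · exact ⟨zc, cc⟩
      · exact ⟨H.mul_mem z1 z1, hmul _ _ c1 c1⟩
      · exact ⟨H.mul_mem z2 z2, hmul _ _ c2 c2⟩
      · exact ⟨H.mul_mem z1 z2, hmul _ _ c1 c2⟩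
      · exact ⟨H.mul_mem z1 zc, hmul _ _ c1 cc⟩
      · exact ⟨H.mul_mem zc zc, hmul _ _ cc cc⟩
  obtain ⟨W, hWM, hWg, hWH⟩ : ∃ W : Finset G, M ⊆ W ∧
      (∀ g, (g = a ∨ g = s ∨ g = v) → ∀ t ∈ S, g * t * g⁻¹ ∈ W ∧ g⁻¹ * t * g ∈ W) ∧
      ∀ h ∈ W, h ∈ H := by
    refine ⟨M ∪ ((({a, s, v} : Finset G) ×ˢ S).image fun p => p.1 * p.2 * p.1⁻¹) ∪
      ((({a, s, v} : Finset G) ×ˢ S).image fun p => p.1⁻¹ * p.2 * p.1), ?_, ?_, ?_⟩
    · exact subset_union_left.trans subset_union_left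
    · intro g hg t ht
      have : (g, t) ∈ ({a, s, v} : Finset G) ×ˢ S :=
        mem_product.2 ⟨by simpa only [mem_insert, mem_singleton] using hg, ht⟩
      exact ⟨mem_union_left _ (mem_union_right _ (mem_image.2 ⟨_, this, rfl⟩)),
        mem_union_right _ (mem_image.2 ⟨_, this, rfl⟩)⟩
    · intro h hh
      rcases mem_union.1 hh with hh | hh
      · rcases mem_union.1 hh with hh | hh
        · exact (hMz h hh).1
        · obtain ⟨p, hp, rfl⟩ := mem_image.1 hh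
          exact hH.conj_mem _ (hS _ (mem_product.1 hp).2) _
      · obtain ⟨p, hp, rfl⟩ := mem_image.1 hh
        exact hH.conj_mem' _ (hS _ (mem_product.1 hp).2) _
  obtain ⟨L, hL, Fw, hFw⟩ := word S W (fun h hh => le_closure _ _ C hK h (hWH h hh))
  have d0 : (0 : ℝ) ≤ S.card := Nat.cast_nonneg _
  obtain ⟨δ, δ₁, η, τ, θ, h10, hη0, hτ0, hθ0, k1, k2, k3, k4, k5, k6, k7, k8, k9, k10, k11⟩ :=
    consts γ L S.card hγ hγ1 hL d0
  obtain ⟨F₁, hF₁⟩ := hLT (θ * γ / 6) (by positivity)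
  obtain ⟨F, hF1, hFw', hFW, hFS, hFa, hFs, hFv⟩ : ∃ F : Finset G, F₁ ⊆ F ∧ Fw ⊆ F ∧ W ⊆ F ∧
      S ⊆ F ∧ a ∈ F ∧ s ∈ F ∧ v ∈ F := by
    refine ⟨F₁ ∪ Fw ∪ W ∪ S ∪ {a, s, v}, ?_, ?_, ?_, ?_, ?_, ?_, ?_⟩ <;>
      first
        | (intro x hx; simp [hx])
        | simp
  obtain ⟨ε, hε0, hε1, hε2⟩ := consts' θ γ S.card F.card hθ0 hγ d0
  refine ⟨F, ε, hε0, hFW (hWM (hM c (by simp))), ?_⟩
  intro X _ _ _ σ hσ hcc hfix
  have hLT' : LT S F γ (θ * γ / 6) := lt_mono hF1 hF₁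
  obtain ⟨l, hcut, hnn⟩ := decomp S F γ (θ * γ / 6) hγ (by positivity) hLT' σ
  set N : ℝ := (Fintype.card X : ℝ) with hN
  have N0 : 0 ≤ N := Nat.cast_nonneg _
  have nb := nbad_le σ F ε hσ
  have nb0 : 0 ≤ nbad σ F := Nat.cast_nonneg _
  have nb1 : 2 * (1 + 2 * S.card) * nbad σ F ≤ θ * γ * N := by
    have b1 := mul_le_mul_of_nonneg_left nb (show (0 : ℝ) ≤ 2 * (1 + 2 * S.card) by linarith)
    have b2 := mul_le_mul_of_nonneg_right hε2 N0
    nlinarith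
  have tN : 0 ≤ θ * N := by positivity
  have tg : θ * γ * N ≤ θ * N := by nlinarith
  have db : 0 ≤ S.card * nbad σ F := mul_nonneg d0 nb0
  have hnb : nbad σ F ≤ θ * N := by nlinarith
  have hcut' : cut σ S l ≤ θ * N := by nlinarith
  have hnn' : ((univ.filter fun x => ¬ Nice σ S F γ (cls l x)).card : ℝ) ≤ θ * N := by
    refine le_of_mul_le_mul_left ?_ hγ
    have : γ * nbad σ F ≤ nbad σ F := by nlinarith
    nlinarith
  have hwX : ∀ T : Finset X, (∀ x ∈ T, Good σ F x) → ∀ h ∈ W, out (σ h) T T ≤ L * bd σ S T :=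
    fun T hT => hFw X σ T (fun x hx => good_mono hFw' (hT x hx))
  -- the good classes
  set P : X → Prop := fun x => Nice σ S F γ (cls l x) ∧ bd σ S (cls l x) ≤ η * (cls l x).card ∧
    ((cls l x ∩ univ.filter fun y => σ c y = y).card : ℝ) ≤ 1 / 4 * (cls l x).card with hP
  have hPOK : ∀ x, P x → OK σ S F M δ₁ δ c (cls l x) := by
    intro x ⟨p1, p2, p3⟩
    have hne : (cls l x).Nonempty := ⟨x, by simp [cls]⟩
    refine ⟨cluster σ S F γ (θ * γ / 6) η δ δ₁ hγ hγ1 (by positivity) (by nlinarith) hLT' _ hne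
      p1 p2 k2 k3 k1, hne, p1.2, fun m hm => ?_, p3⟩
    refine fine_of_central σ S F hFS δ₁ _ p1.2 m (hFW (hWM hm))
      (fun t ht => (hMz m hm).2 t (hS t ht)) ?_
    have b1 := hwX _ p1.2 m (hWM hm)
    have b2 := mul_le_mul_of_nonneg_left p2 hL
    have b3 := mul_le_mul_of_nonneg_right k4 (Nat.cast_nonneg (α := ℝ) (cls l x).card)
    nlinarith
  have hPc : 10000000 * ((univ.filter fun x => ¬ P x).card : ℝ) ≤ N := by
    have m1 := markov_bd σ S l η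
    have m2 := markov l (univ.filter fun y => σ c y = y) (1 / 4)
    have sub : (univ.filter fun x => ¬ P x) ⊆
        ((univ.filter fun x => ¬ Nice σ S F γ (cls l x)) ∪
        (univ.filter fun x => η * (cls l x).card < bd σ S (cls l x))) ∪
        (univ.filter fun x => 1 / 4 * ((cls l x).card : ℝ) <
          ((cls l x ∩ univ.filter fun y => σ c y = y).card : ℝ)) := by
      intro x hx
      simp only [mem_filter, mem_univ, true_and, mem_union] at hx ⊢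
      by_contra hc
      simp only [not_or, not_not, not_lt] at hc
      exact hx ⟨hc.1.1, hc.1.2, hc.2⟩
    have b1 := (card_le_card sub).trans ((card_union_le _ _).trans
      (Nat.add_le_add_right (card_union_le _ _) _))
    have b2 := (Nat.cast_le (α := ℝ)).2 b1
    push_cast at b2
    have b3 : 100000000 * ((univ.filter fun x =>
        η * (cls l x).card < bd σ S (cls l x)).card : ℝ) ≤ N := by
      refine le_of_mul_le_mul_left ?_ hη0
      nlinarith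
    have b4 : ε * N ≤ θ * N := mul_le_mul_of_nonneg_right hε1 N0
    have b5 : 100000000 * (θ * N) ≤ N := by nlinarith
    linarith
  set Q : G → X → Prop := fun g x =>
    τ * (cls l x).card < out (σ g) (cls l x) (cls l (σ g x)) ∨
      τ * (cls l (σ g x)).card < out (σ g)⁻¹ (cls l (σ g x)) (cls l x) with hQ
  have hgF : ∀ g, (g = a ∨ g = s ∨ g = v) → g ∈ F := by
    intro g hg
    rcases hg with rfl | rfl | rfl <;> assumption
  have hQc : ∀ g, (g = a ∨ g = s ∨ g = v) →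
      100000000 * ((univ.filter fun x => Q g x).card : ℝ) ≤ N := by
    intro g hg
    have b1 := exc_g σ S F l g γ τ (θ * N) L hγ hτ0 (by linarith) hL (hgF g hg)
      (fun t ht => ⟨hFS ht, hFW (hWg g hg t ht).1, hFW (hWg g hg t ht).2⟩)
      (fun T hT t ht => ⟨hwX T hT _ (hWg g hg t ht).1, hwX T hT _ (hWg g hg t ht).2⟩)
      hcut' hnn' hnb
    refine le_of_mul_le_mul_left ?_ (show 0 < τ * γ by positivity)
    have b2 := mul_le_mul_of_nonneg_right k11 N0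
    nlinarith
  have hPg : ∀ g, 10000000 * ((univ.filter fun x => ¬ P (σ g x)).card : ℝ) ≤ N := by
    intro g
    rw [card_preimage_perm (σ g) (fun x => ¬ P x)]
    exact hPc
  refine core σ S F M δ₁ δ h10.le k1 Y₁ Y₂ Y₃ c a s v hM hFa hFs hFv (c1 _ z2) (c1 _ zc)
    h123 ha1 ha2 hs1 hs2 hs3 hv hcc (cls l)
    ((univ.filter fun x => ¬ P x) ∪ ({a, s, v} : Finset G).biUnion fun g =>
      (univ.filter fun x => ¬ P (σ g x)) ∪ (univ.filter fun x => Q g x)) ?_ ?_ ?_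
  · have b1 : ∀ g ∈ ({a, s, v} : Finset G), (((univ.filter fun x => ¬ P (σ g x)) ∪
        (univ.filter fun x => Q g x)).card : ℝ) ≤ N / 5000000 := by
      intro g hg
      have b2 := (Nat.cast_le (α := ℝ)).2 (card_union_le (univ.filter fun x => ¬ P (σ g x))
        (univ.filter fun x => Q g x))
      push_cast at b2
      have b3 := hPg g
      have b4 := hQc g (by simpa only [mem_insert, mem_singleton] using hg)
      linarith
    have b2 := Finset.sum_le_card_nsmul _ _ _ b1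
    have b3 : (({a, s, v} : Finset G).card : ℝ) ≤ 3 := by exact_mod_cast card_le_three
    rw [nsmul_eq_mul] at b2
    have b4 := (card_union_le (univ.filter fun x => ¬ P x) (({a, s, v} : Finset G).biUnion
      fun g => (univ.filter fun x => ¬ P (σ g x)) ∪ (univ.filter fun x => Q g x))).trans
      (Nat.add_le_add_left card_biUnion_le _)
    have b5 := (Nat.cast_le (α := ℝ)).2 b4
    push_cast at b5
    have b6 : (({a, s, v} : Finset G).card : ℝ) * (N / 5000000) ≤ 3 * (N / 5000000) :=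
      mul_le_mul_of_nonneg_right b3 (by positivity)
    refine (Nat.cast_le (α := ℝ)).1 ?_
    push_cast
    linarith
  · intro x hx
    refine hPOK x ?_
    by_contra h
    exact hx (mem_union_left _ (mem_filter.2 ⟨mem_univ _, h⟩))
  · intro x hx g hg
    have hg' : g ∈ ({a, s, v} : Finset G) := by simpa only [mem_insert, mem_singleton] using hg
    have p1 : P x := by
      by_contra h
      exact hx (mem_union_left _ (mem_filter.2 ⟨mem_univ _, h⟩))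
    have p2 : P (σ g x) := by
      by_contra h
      exact hx (mem_union_right _ (mem_biUnion.2 ⟨g, hg',
        mem_union_left _ (mem_filter.2 ⟨mem_univ _, h⟩)⟩))
    have p3 : ¬ Q g x := fun h =>
      hx (mem_union_right _ (mem_biUnion.2 ⟨g, hg',
        mem_union_right _ (mem_filter.2 ⟨mem_univ _, h⟩)⟩))
    simp only [hQ, not_or, not_lt] at p3
    refine ⟨hPOK _ p2, tr_of_out σ S F g L δ₁ δ η τ hL (hgF g hg)
      (fun t ht => ⟨hFS ht, hFW (hWg g hg t ht).2⟩) ?_ _ _ p1.1.2 p1.2.1 p3.1 p3.2 hτ0.le k5 k6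
      h10.le hη0.le k7 k8⟩
    intro T hT t ht
    exact hFw (X × X) (fun g => (σ g).prodCongr (σ g)) T (fun x hx => good_mono hFw' (hT x hx)) _
      (hWg g hg t ht).2

end Pool.Agent.NS
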