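import Pool.Agent.P.MP_3b226c_al.Improve

set_option autoImplicit false

namespace Pool.Agent.NS

open Finset Equiv
open scoped symmDiff InnerProductSpace ComplexConjugate

namespace WordAux

theorem card_or {α : Type} (s : Finset α) (p q r : α → Prop) [DecidablePred p] [DecidablePred q]
    [DecidablePred r] (h : ∀ x ∈ s, p x → q x ∨ r x) :
    ((s.filter p).card : ℝ) ≤ (s.filter q).card + (s.filter r).card := by
  classical
  have h1 : s.filter p ⊆ s.filter q ∪ s.filter r := by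
    intro x hx
    rw [mem_filter] at hx
    rcases h x hx.1 hx.2 with h' | h'
    · exact mem_union_left _ (mem_filter.2 ⟨hx.1, h'⟩)
    · exact mem_union_right _ (mem_filter.2 ⟨hx.1, h'⟩)
  exact_mod_cast (card_le_card h1).trans (card_union_le _ _)

theorem card_inj {α β : Type} (s : Finset α) (t : Finset β) (φ : α → β)
    (hφ : Function.Injective φ) (h : ∀ x ∈ s, φ x ∈ t) : (s.card : ℝ) ≤ t.card := by
  exact_mod_cast card_le_card_of_injOn φ h hφ.injOn

theorem card_ex {α β : Type} (s : Finset α) (S : Finset β) (p : β → α → Prop)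
    [∀ b, DecidablePred (p b)] [DecidablePred fun x => ∃ b ∈ S, p b x] :
    ((s.filter fun x => ∃ b ∈ S, p b x).card : ℝ) ≤ ∑ b ∈ S, ((s.filter (p b)).card : ℝ) := by
  classical
  have h1 : (s.filter fun x => ∃ b ∈ S, p b x) ⊆ S.biUnion fun b => s.filter (p b) := by
    intro x hx
    rw [mem_filter] at hx
    obtain ⟨b, hb, hp⟩ := hx.2
    exact mem_biUnion.2 ⟨b, hb, mem_filter.2 ⟨hx.1, hp⟩⟩
  exact_mod_cast (card_le_card h1).trans card_biUnion_le

section
variable {G X : Type} [Group G] [Fintype X] [DecidableEq X]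

omit [Fintype X] in
theorem out_nonneg (π : Perm X) (T T' : Finset X) : 0 ≤ out π T T' := Nat.cast_nonneg _

omit [Group G] [Fintype X] in
theorem bd_nonneg (σ : G → Perm X) (S : Finset G) (T : Finset X) : 0 ≤ bd σ S T :=
  sum_nonneg fun _ _ => out_nonneg _ _ _

omit [Fintype X] [DecidableEq X] in
theorem good_mono {σ : G → Perm X} {F F' : Finset G} (h : F ⊆ F') {x : X} (hx : Good σ F' x) :
    Good σ F x := fun g hg k hk => hx g (h hg) k (h hk)

omit [Fintype X] [DecidableEq X] in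
theorem good_one {σ : G → Perm X} {F : Finset G} (h : (1 : G) ∈ F) {x : X} (hx : Good σ F x) :
    σ 1 x = x := by
  have := hx 1 h 1 h
  rw [mul_one] at this
  exact ((σ 1).injective this).symm

omit [Fintype X] in
theorem out_congr (π π' : Perm X) (T T' : Finset X) (h : ∀ x ∈ T, π x = π' x) :
    out π T T' = out π' T T' := by
  unfold out
  congr 2
  exact filter_congr fun x hx => by rw [h x hx]

omit [Fintype X] in
theorem out_mul (π π' : Perm X) (T : Finset X) :
    out (π * π') T T ≤ out π' T T + out π T T := by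
  unfold out
  refine (card_or T _ (fun x => π' x ∉ T) (fun x => π' x ∈ T ∧ π (π' x) ∉ T) ?_).trans ?_
  · intro x _ hx
    by_cases h : π' x ∈ T
    · exact Or.inr ⟨h, hx⟩
    · exact Or.inl h
  · refine add_le_add le_rfl (card_inj _ _ π' π'.injective ?_)
    intro x hx
    rw [mem_filter] at hx ⊢
    exact hx.2

end

theorem word_one {G : Type} [Group G] (S : Finset G) (h : G)
    (hh : h ∈ Subgroup.closure (S : Set G)) :
    ∃ L : ℝ, 0 ≤ L ∧ ∃ F : Finset G, ∀ (X : Type) [Fintype X] [DecidableEq X] (σ : G → Perm X)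
      (T : Finset X), (∀ x ∈ T, Good σ F x) → out (σ h) T T ≤ L * bd σ S T := by
  classical
  induction hh using Subgroup.closure_induction with
  | mem s hs =>
    refine ⟨1, zero_le_one, ∅, fun X _ _ σ T _ => ?_⟩
    rw [one_mul]
    exact single_le_sum (f := fun s => out (σ s) T T) (fun _ _ => out_nonneg _ _ _) hs
  | one =>
    refine ⟨0, le_rfl, {1}, fun X _ _ σ T hT => ?_⟩
    rw [zero_mul, out_congr (σ 1) 1 T T fun x hx => good_one (mem_singleton_self _) (hT x hx)]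
    unfold out
    rw [filter_eq_empty_iff.2 fun x hx => by simpa using hx]
    simp
  | mul g k _ _ ihg ihk =>
    obtain ⟨L1, hL1, F1, h1⟩ := ihg
    obtain ⟨L2, hL2, F2, h2⟩ := ihk
    refine ⟨L1 + L2, add_nonneg hL1 hL2, F1 ∪ F2 ∪ {g, k}, fun X _ _ σ T hT => ?_⟩
    have e1 := h1 X σ T fun x hx =>
      good_mono (subset_union_left.trans subset_union_left) (hT x hx)
    have e2 := h2 X σ T fun x hx =>
      good_mono (subset_union_right.trans subset_union_left) (hT x hx)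
    rw [out_congr (σ (g * k)) (σ g * σ k) T T fun x hx =>
      hT x hx g (by simp) k (by simp)]
    have := out_mul (σ g) (σ k) T
    linarith
  | inv g _ ihg =>
    obtain ⟨L, hL, F, h1⟩ := ihg
    refine ⟨L, hL, F ∪ {g, g⁻¹, 1}, fun X _ _ σ T hT => ?_⟩
    have e1 := h1 X σ T fun x hx => good_mono subset_union_left (hT x hx)
    rw [out_congr (σ g⁻¹) (σ g)⁻¹ T T ?_, out_self_inv]
    · exact e1
    · intro x hx
      have e2 := hT x hx g (by simp) g⁻¹ (by simp)
      rw [mul_inv_cancel, good_one (by simp) (hT x hx)] at e2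
      rw [Perm.eq_inv_iff_eq]
      exact e2.symm

section
variable {G X : Type} [Fintype X] [DecidableEq X] {ι : Type} [DecidableEq ι]

omit [DecidableEq X] in
theorem mem_cls (l : X → ι) (x z : X) : z ∈ cls l x ↔ l z = l x := by
  simp [cls]

omit [DecidableEq X] in
theorem cls_eq (l : X → ι) {x z : X} (h : l z = l x) : cls l z = cls l x := by
  simp [cls, h]

/-- indicator of a label change -/
def ind (l : X → ι) (π : Perm X) (z : X) : ℝ := if l (π z) ≠ l z then 1 else 0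

omit [Fintype X] [DecidableEq X] in
theorem ind_nonneg (l : X → ι) (π : Perm X) (z : X) : 0 ≤ ind l π z := by
  unfold ind
  split_ifs <;> norm_num

omit [Fintype X] [DecidableEq X] in
theorem sum_ind (l : X → ι) (π : Perm X) (E : Finset X) :
    ∑ z ∈ E, ind l π z = ((E.filter fun z => l (π z) ≠ l z).card : ℝ) := by
  unfold ind
  rw [sum_boole]

theorem out_cls (l : X → ι) (π : Perm X) (y : X) :
    out π (cls l y) (cls l y) = ∑ z ∈ cls l y, ind l π z := by
  rw [sum_ind]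
  unfold out
  congr 2
  refine filter_congr fun z hz => ?_
  rw [mem_cls] at hz
  rw [mem_cls, hz]

theorem bd_cls (σ : G → Perm X) (S : Finset G) (l : X → ι) (y : X) :
    bd σ S (cls l y) = ∑ z ∈ cls l y, ∑ s ∈ S, ind l (σ s) z := by
  rw [sum_comm]
  exact sum_congr rfl fun s _ => out_cls l (σ s) y

omit [DecidableEq X] in
theorem cut_eq (σ : G → Perm X) (S : Finset G) (l : X → ι) :
    cut σ S l = ∑ z, ∑ s ∈ S, ind l (σ s) z := by
  rw [sum_comm]
  exact sum_congr rfl fun s _ => (sum_ind l (σ s) univ).symm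

omit [DecidableEq X] in
theorem chg_comp (l : X → ι) (π ρ : Perm X) :
    ((univ.filter fun x => l (π (ρ x)) ≠ l (ρ x)).card : ℝ) ≤ chg l π := by
  refine card_inj _ _ ρ ρ.injective fun x hx => ?_
  rw [mem_filter] at hx ⊢
  exact ⟨mem_univ _, hx.2⟩

end

end WordAux

open WordAux

theorem word {G : Type} [Group G] (S W : Finset G)
    (hW : ∀ h ∈ W, h ∈ Subgroup.closure (S : Set G)) :
    ∃ L : ℝ, 0 ≤ L ∧ ∃ F : Finset G, ∀ (X : Type) [Fintype X] [DecidableEq X] (σ : G → Perm X)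
      (T : Finset X), (∀ x ∈ T, Good σ F x) → ∀ h ∈ W, out (σ h) T T ≤ L * bd σ S T := by
  classical
  induction W using Finset.induction_on with
  | empty => exact ⟨0, le_rfl, ∅, fun X _ _ σ T _ h hh => absurd hh (notMem_empty h)⟩
  | insert a W _ ih =>
    obtain ⟨L1, hL1, F1, h1⟩ := ih fun h hh => hW h (mem_insert_of_mem hh)
    obtain ⟨L2, hL2, F2, h2⟩ := word_one S a (hW a (mem_insert_self _ _))
    refine ⟨L1 + L2, add_nonneg hL1 hL2, F1 ∪ F2, fun X _ _ σ T hT h hh => ?_⟩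
    have hb := bd_nonneg σ S T
    rcases mem_insert.1 hh with rfl | hh
    · have := h2 X σ T fun x hx => good_mono subset_union_right (hT x hx)
      nlinarith [mul_nonneg hL1 hb]
    · have := h1 X σ T (fun x hx => good_mono subset_union_left (hT x hx)) h hh
      nlinarith [mul_nonneg hL2 hb]

variable {G X : Type} [Group G] [Fintype X] [DecidableEq X]

theorem fib {ι : Type} [DecidableEq ι] (l : X → ι) (E : Finset X)
    (hE : ∀ y ∈ E, ∀ z, l z = l y → z ∈ E) (u w : X → ℝ) (hw : ∀ z, 0 ≤ w z)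
    (h : ∀ y ∈ E, ∑ z ∈ cls l y, u z ≤ ∑ z ∈ cls l y, w z) : ∑ z ∈ E, u z ≤ ∑ z, w z := by
  have hm : ∀ z ∈ E, l z ∈ E.image l := fun z hz => mem_image_of_mem l hz
  calc ∑ z ∈ E, u z = ∑ i ∈ E.image l, ∑ z ∈ E with l z = i, u z :=
        (sum_fiberwise_of_maps_to hm u).symm
    _ ≤ ∑ i ∈ E.image l, ∑ z ∈ E with l z = i, w z := by
        refine sum_le_sum fun i hi => ?_
        obtain ⟨y, hy, rfl⟩ := mem_image.1 hi
        have e : (E.filter fun z => l z = l y) = cls l y := by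
          ext z
          rw [mem_filter, mem_cls]
          exact ⟨fun h => h.2, fun h => ⟨hE y hy z h, h⟩⟩
        rw [e]
        exact h y hy
    _ = ∑ z ∈ E, w z := sum_fiberwise_of_maps_to hm w
    _ ≤ ∑ z, w z := sum_le_sum_of_subset_of_nonneg (subset_univ _) fun z _ _ => hw z

theorem markov {ι : Type} [DecidableEq ι] (l : X → ι) (B : Finset X) (τ : ℝ) :
    τ * ((univ.filter fun x => τ * (cls l x).card < ((cls l x ∩ B).card : ℝ)).card : ℝ) ≤
      B.card := by
  have key := fib l (univ.filter fun x => τ * (cls l x).card < ((cls l x ∩ B).card : ℝ))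
    (fun y hy z hz => by
      rw [mem_filter] at hy ⊢
      rw [cls_eq l hz]
      exact ⟨mem_univ _, hy.2⟩)
    (fun _ => τ) (fun z => if z ∈ B then 1 else 0)
    (fun z => by split_ifs <;> norm_num)
    (fun y hy => by
      rw [mem_filter] at hy
      rw [sum_const, nsmul_eq_mul, sum_boole, filter_mem_eq_inter, mul_comm]
      exact hy.2.le)
  rw [sum_const, nsmul_eq_mul, sum_boole, filter_mem_eq_inter, univ_inter, mul_comm] at key
  exact key

theorem markov_bd {ι : Type} [DecidableEq ι] (σ : G → Perm X) (S : Finset G) (l : X → ι) (η : ℝ) :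
    η * ((univ.filter fun x => η * (cls l x).card < bd σ S (cls l x)).card : ℝ) ≤ cut σ S l := by
  have key := fib l (univ.filter fun x => η * (cls l x).card < bd σ S (cls l x))
    (fun y hy z hz => by
      rw [mem_filter] at hy ⊢
      rw [cls_eq l hz]
      exact ⟨mem_univ _, hy.2⟩)
    (fun _ => η) (fun z => ∑ s ∈ S, ind l (σ s) z)
    (fun z => sum_nonneg fun s _ => ind_nonneg _ _ _)
    (fun y hy => by
      rw [mem_filter] at hy
      rw [sum_const, nsmul_eq_mul, ← bd_cls, mul_comm]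
      exact hy.2.le)
  rw [sum_const, nsmul_eq_mul, ← cut_eq, mul_comm] at key
  exact key

open Classical in
theorem chg_le {ι : Type} [DecidableEq ι] (σ : G → Perm X) (S : Finset G) (l : X → ι)
    (π : Perm X) (L : ℝ) (hL : 0 ≤ L) (P : Finset X → Prop)
    (h : ∀ x, P (cls l x) → out π (cls l x) (cls l x) ≤ L * bd σ S (cls l x)) :
    chg l π ≤ ((univ.filter fun x => ¬ P (cls l x)).card : ℝ) + L * cut σ S l := by
  have key := fib l (univ.filter fun x => P (cls l x))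
    (fun y hy z hz => by
      rw [mem_filter] at hy ⊢
      rw [cls_eq l hz]
      exact ⟨mem_univ _, hy.2⟩)
    (ind l π) (fun z => L * ∑ s ∈ S, ind l (σ s) z)
    (fun z => mul_nonneg hL (sum_nonneg fun s _ => ind_nonneg _ _ _))
    (fun y hy => by
      rw [mem_filter] at hy
      rw [← mul_sum, ← bd_cls, ← out_cls]
      exact h y hy.2)
  rw [← mul_sum, ← cut_eq, sum_ind, filter_filter] at key
  refine (card_or univ _ (fun x => ¬ P (cls l x))
    (fun x => P (cls l x) ∧ l (π x) ≠ l x) ?_).trans ?_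
  · intro x _ hx
    by_cases hp : P (cls l x)
    · exact Or.inr ⟨hp, hx⟩
    · exact Or.inl hp
  · exact add_le_add le_rfl key

open Classical in
theorem overlap {ι : Type} [DecidableEq ι] (σ : G → Perm X) (S : Finset G) (l : X → ι)
    (π : Perm X) (γ τ : ℝ) (hγ : 0 < γ) (hτ : 0 < τ) (hτ1 : τ ≤ 1) :
    τ * γ * ((univ.filter fun x =>
        τ * (cls l x).card < out π (cls l x) (cls l (π x))).card : ℝ) ≤
      τ * γ * ((univ.filter fun x => ¬ Exp σ S γ (cls l x)).card : ℝ) +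
        2 * (cut σ S l + cut σ S (fun x => l (π x))) := by
  set k : X → ι × ι := fun y => (l y, l (π y)) with hk
  set E : Finset X := univ.filter fun y =>
    Exp σ S γ (cls l y) ∧ 2 * ((cls k y).card : ℝ) ≤ (cls l y).card with hE
  have hsub : ∀ y, cls k y ⊆ cls l y := by
    intro y z hz
    rw [mem_cls] at hz ⊢
    exact (Prod.ext_iff.1 hz).1
  have key := fib k E
    (fun y hy z hz => by
      rw [hE, mem_filter] at hy ⊢
      rw [cls_eq k hz, cls_eq l (Prod.ext_iff.1 hz).1]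
      exact ⟨mem_univ _, hy.2⟩)
    (fun _ => γ) (fun z => ∑ s ∈ S, ind k (σ s) z)
    (fun z => sum_nonneg fun s _ => ind_nonneg _ _ _)
    (fun y hy => by
      rw [hE, mem_filter] at hy
      rw [sum_const, nsmul_eq_mul, ← bd_cls, mul_comm]
      exact hy.2.1 _ (hsub y) hy.2.2)
  rw [sum_const, nsmul_eq_mul, ← cut_eq, mul_comm] at key
  have hcut : cut σ S k ≤ cut σ S l + cut σ S (fun x => l (π x)) := by
    unfold cut
    rw [← sum_add_distrib]
    refine sum_le_sum fun s _ => ?_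
    refine card_or univ _ _ _ fun x _ hx => ?_
    by_contra hc
    rw [not_or, not_not, not_not] at hc
    exact hx (Prod.ext hc.1 hc.2)
  have hM := markov l E τ
  have hA : ((univ.filter fun x =>
        τ * (cls l x).card < out π (cls l x) (cls l (π x))).card : ℝ) ≤
      ((univ.filter fun x => ¬ Exp σ S γ (cls l x)).card : ℝ) + (E.card +
        ((univ.filter fun x => τ * (cls l x).card < ((cls l x ∩ E).card : ℝ)).card : ℝ)) := by
    refine (card_or univ _ (fun x => ¬ Exp σ S γ (cls l x)) (fun x => x ∈ E ∨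
      τ * (cls l x).card < ((cls l x ∩ E).card : ℝ)) ?_).trans ?_
    · intro x _ hx
      by_cases h1 : Exp σ S γ (cls l x)
      swap
      · exact Or.inl h1
      by_cases h2 : x ∈ E
      · exact Or.inr (Or.inl h2)
      refine Or.inr (Or.inr (hx.trans_le ?_))
      have h3 : ((cls l x).card : ℝ) < 2 * (cls k x).card := by
        by_contra hc
        exact h2 (mem_filter.2 ⟨mem_univ _, h1, not_lt.1 hc⟩)
      unfold out
      refine Nat.cast_le.2 (card_le_card fun z hz => ?_)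
      rw [mem_filter, mem_cls, mem_cls] at hz
      refine mem_inter.2 ⟨(mem_cls _ _ _).2 hz.1, mem_filter.2 ⟨mem_univ _, ?_⟩⟩
      rw [cls_eq l hz.1]
      refine ⟨h1, ?_⟩
      have hd : Disjoint (cls k z) (cls k x) := by
        rw [disjoint_left]
        intro a ha hb
        rw [mem_cls] at ha hb
        exact hz.2 (Prod.ext_iff.1 (ha.symm.trans hb)).2
      have hu : cls k z ∪ cls k x ⊆ cls l x :=
        union_subset (by rw [← cls_eq l hz.1]; exact hsub z) (hsub x)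
      have h4 := card_le_card hu
      rw [card_union_of_disjoint hd] at h4
      have h5 : ((cls k z).card : ℝ) + (cls k x).card ≤ (cls l x).card := by exact_mod_cast h4
      linarith
    · gcongr
      refine (card_or univ _ (fun x => x ∈ E) _ fun x _ hx => hx).trans ?_
      rw [filter_mem_eq_inter, univ_inter]
  have hE0 : (0 : ℝ) ≤ E.card := Nat.cast_nonneg _
  have h6 := mul_le_mul_of_nonneg_left hA (mul_pos hτ hγ).le
  have h7 := mul_le_mul_of_nonneg_left hM hγ.le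
  have h8 : τ * (γ * E.card) ≤ 1 * (γ * E.card) :=
    mul_le_mul_of_nonneg_right hτ1 (mul_nonneg hγ.le hE0)
  nlinarith

theorem cut_conj {ι : Type} [DecidableEq ι] (σ : G → Perm X) (S F : Finset G) (l : X → ι) (g : G)
    (hg : g ∈ F) (hS : ∀ s ∈ S, s ∈ F ∧ g * s * g⁻¹ ∈ F ∧ g⁻¹ * s * g ∈ F) :
    cut σ S (fun x => l (σ g x)) ≤ S.card * nbad σ F + ∑ s ∈ S, chg l (σ (g * s * g⁻¹)) ∧
    cut σ S (fun x => l ((σ g)⁻¹ x)) ≤ S.card * nbad σ F + ∑ s ∈ S, chg l (σ (g⁻¹ * s * g)) := by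
  classical
  constructor
  · rw [← nsmul_eq_mul, ← sum_const, ← sum_add_distrib]
    refine sum_le_sum fun s hs => ?_
    refine (card_or univ _ (fun x => ¬ Good σ F x)
      (fun x => l (σ (g * s * g⁻¹) (σ g x)) ≠ l (σ g x)) ?_).trans ?_
    · intro x _ hx
      by_cases hx' : Good σ F x
      · right
        rw [← hx' _ (hS s hs).2.1 _ hg, inv_mul_cancel_right, hx' _ hg _ (hS s hs).1]
        exact hx
      · exact Or.inl hx'
    · exact add_le_add (le_of_eq (by unfold nbad; congr!)) (chg_comp l _ _)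
  · rw [← nsmul_eq_mul, ← sum_const, ← sum_add_distrib]
    refine sum_le_sum fun s hs => ?_
    have h1 : chg (fun x => l ((σ g)⁻¹ x)) (σ s) ≤
        ((univ.filter fun x => l ((σ g)⁻¹ (σ s (σ g x))) ≠ l x).card : ℝ) := by
      refine card_inj _ _ (fun y => (σ g)⁻¹ y) (σ g)⁻¹.injective fun x hx => ?_
      rw [mem_filter] at hx ⊢
      refine ⟨mem_univ _, ?_⟩
      simpa using hx.2
    refine h1.trans ((card_or univ _ (fun x => ¬ Good σ F x)
      (fun x => l (σ (g⁻¹ * s * g) x) ≠ l x) ?_).trans ?_)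
    · intro x _ hx
      by_cases hx' : Good σ F x
      · right
        have e : σ s (σ g x) = σ g (σ (g⁻¹ * s * g) x) := by
          rw [← hx' _ (hS s hs).1 _ hg, ← hx' _ hg _ (hS s hs).2.2]
          congr 2
          group
        rw [e] at hx
        simpa using hx
      · exact Or.inl hx'
    · exact add_le_add (le_of_eq (by unfold nbad; congr!)) le_rfl

theorem conj_dfc (σ : G → Perm X) (S F : Finset G) (g : G) (L : ℝ) (hL : 0 ≤ L)
    (hg : g ∈ F) (hS : ∀ s ∈ S, s ∈ F ∧ g⁻¹ * s * g ∈ F)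
    (hw : ∀ T : Finset (X × X), (∀ x ∈ T, Good (fun g => (σ g).prodCongr (σ g)) F x) →
      ∀ s ∈ S, out ((σ (g⁻¹ * s * g)).prodCongr (σ (g⁻¹ * s * g))) T T ≤
        L * bd (fun g => (σ g).prodCongr (σ g)) S T)
    (D D' : Finset X) (hD : ∀ y ∈ D, Good σ F y) (f : Perm X) :
    dfc σ S D' (σ g * f * (σ g)⁻¹) ≤ out (σ g)⁻¹ D' D + out (σ g) D D' + dfc σ S D f +
      S.card * (L * bd σ S D + (2 * S.card * L + 1) * dfc σ S D f) := by
  classical
  have hd0 : 0 ≤ dfc σ S D f := Nat.cast_nonneg _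
  have hconj : ∀ s ∈ S, ∀ x ∈ D, σ s (σ g x) = σ g (σ (g⁻¹ * s * g) x) := by
    intro s hs x hx
    rw [← hD x hx _ (hS s hs).1 _ hg, ← hD x hx _ hg _ (hS s hs).2]
    congr 2
    group
  set T : Finset (X × X) := (D.filter fun x => f x ∈ D).image fun x => (x, f x) with hT
  have hTg : ∀ p ∈ T, Good (fun g => (σ g).prodCongr (σ g)) F p := by
    intro p hp
    obtain ⟨x, hx, rfl⟩ := mem_image.1 hp
    rw [mem_filter] at hx
    intro a ha b hb
    exact Prod.ext (hD x hx.1 a ha b hb) (hD _ hx.2 a ha b hb)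
  have hN : ∀ s ∈ S, ((D'.filter fun y => ((σ g)⁻¹ y ∈ D ∧ f ((σ g)⁻¹ y) ∈ D) ∧
      f (σ (g⁻¹ * s * g) ((σ g)⁻¹ y)) ≠ σ (g⁻¹ * s * g) (f ((σ g)⁻¹ y))).card : ℝ) ≤
      L * bd σ S D + (2 * S.card * L + 1) * dfc σ S D f := by
    intro s hs
    have h1 := hw T hTg s hs
    have h2 := mul_le_mul_of_nonneg_left (bd_graph σ S D f) hL
    have h3 : ((D'.filter fun y => ((σ g)⁻¹ y ∈ D ∧ f ((σ g)⁻¹ y) ∈ D) ∧
      f (σ (g⁻¹ * s * g) ((σ g)⁻¹ y)) ≠ σ (g⁻¹ * s * g) (f ((σ g)⁻¹ y))).card : ℝ) ≤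
        out ((σ (g⁻¹ * s * g)).prodCongr (σ (g⁻¹ * s * g))) T T := by
      refine card_inj _ _ (fun y => ((σ g)⁻¹ y, f ((σ g)⁻¹ y)))
        (fun a b hab => (σ g)⁻¹.injective (Prod.ext_iff.1 hab).1) fun y hy => ?_
      rw [mem_filter] at hy ⊢
      refine ⟨mem_image.2 ⟨_, mem_filter.2 hy.2.1, rfl⟩, fun hc => ?_⟩
      obtain ⟨x, _, hx⟩ := mem_image.1 hc
      have e1 : x = σ (g⁻¹ * s * g) ((σ g)⁻¹ y) := (Prod.ext_iff.1 hx).1
      have e2 : f x = σ (g⁻¹ * s * g) (f ((σ g)⁻¹ y)) := (Prod.ext_iff.1 hx).2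
      exact hy.2.2 (by rw [← e1, e2])
    nlinarith
  have hsum := sum_le_sum hN
  rw [sum_const, nsmul_eq_mul] at hsum
  have hex := card_ex D' S fun s y => ((σ g)⁻¹ y ∈ D ∧ f ((σ g)⁻¹ y) ∈ D) ∧
      f (σ (g⁻¹ * s * g) ((σ g)⁻¹ y)) ≠ σ (g⁻¹ * s * g) (f ((σ g)⁻¹ y))
  have hA : ((D'.filter fun y => f ((σ g)⁻¹ y) ∈ D ∧ σ g (f ((σ g)⁻¹ y)) ∉ D').card : ℝ) ≤
      out (σ g) D D' := by
    refine card_inj _ _ (fun y => f ((σ g)⁻¹ y))
      (fun a b hab => (σ g)⁻¹.injective (f.injective hab)) fun y hy => ?_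
    rw [mem_filter] at hy ⊢
    exact hy.2
  have hB : ((D'.filter fun y => (σ g)⁻¹ y ∈ D ∧ f ((σ g)⁻¹ y) ∉ D).card : ℝ) ≤
      dfc σ S D f := by
    refine card_inj _ _ (fun y => (σ g)⁻¹ y) (σ g)⁻¹.injective fun y hy => ?_
    rw [mem_filter] at hy ⊢
    exact ⟨hy.2.1, Or.inl hy.2.2⟩
  have s1 := card_or D' (fun y => (σ g * f * (σ g)⁻¹) y ∉ D' ∨
      ∃ s ∈ S, (σ g * f * (σ g)⁻¹) (σ s y) ≠ σ s ((σ g * f * (σ g)⁻¹) y))
    (fun y => (σ g)⁻¹ y ∉ D ∨ (f ((σ g)⁻¹ y) ∈ D ∧ σ g (f ((σ g)⁻¹ y)) ∉ D'))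
    (fun y => ((σ g)⁻¹ y ∈ D ∧ f ((σ g)⁻¹ y) ∉ D) ∨
      ∃ s ∈ S, ((σ g)⁻¹ y ∈ D ∧ f ((σ g)⁻¹ y) ∈ D) ∧
      f (σ (g⁻¹ * s * g) ((σ g)⁻¹ y)) ≠ σ (g⁻¹ * s * g) (f ((σ g)⁻¹ y))) (by
      intro y _ hy
      by_cases h1 : (σ g)⁻¹ y ∈ D
      swap
      · exact Or.inl (Or.inl h1)
      by_cases h2 : f ((σ g)⁻¹ y) ∈ D
      swap
      · exact Or.inr (Or.inl ⟨h1, h2⟩)
      rcases hy with hy | ⟨s, hs, hy⟩
      · exact Or.inl (Or.inr ⟨h2, hy⟩)
      · refine Or.inr (Or.inr ⟨s, hs, ⟨h1, h2⟩, fun hc => hy ?_⟩)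
        have e1 := hconj s hs _ h1
        have e2 := hconj s hs _ h2
        have e3 : σ g ((σ g)⁻¹ y) = y := by simp
        have e4 : ∀ z, (σ g)⁻¹ (σ g z) = z := by simp
        rw [e3] at e1
        simp only [Perm.mul_apply]
        rw [e1, e2, e4, hc])
  have s2 := card_or D' _ (fun y => (σ g)⁻¹ y ∉ D)
    (fun y => f ((σ g)⁻¹ y) ∈ D ∧ σ g (f ((σ g)⁻¹ y)) ∉ D') fun y _ hy => hy
  have s3 := card_or D' _ (fun y => (σ g)⁻¹ y ∈ D ∧ f ((σ g)⁻¹ y) ∉ D)
    (fun y => ∃ s ∈ S, ((σ g)⁻¹ y ∈ D ∧ f ((σ g)⁻¹ y) ∈ D) ∧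
      f (σ (g⁻¹ * s * g) ((σ g)⁻¹ y)) ≠ σ (g⁻¹ * s * g) (f ((σ g)⁻¹ y))) fun y _ hy => hy
  have e0 : out (σ g)⁻¹ D' D = ((D'.filter fun y => (σ g)⁻¹ y ∉ D).card : ℝ) := rfl
  have e1 : dfc σ S D' (σ g * f * (σ g)⁻¹) = ((D'.filter fun y => (σ g * f * (σ g)⁻¹) y ∉ D' ∨
      ∃ s ∈ S, (σ g * f * (σ g)⁻¹) (σ s y) ≠ σ s ((σ g * f * (σ g)⁻¹) y)).card : ℝ) := by
    unfold dfc
    congr!
  rw [e0, e1]
  linarith

end Pool.Agent.NS
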