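import Pool.Agent.P.MP_3b226c_al.Cluster
import Pool.Agent.P.MP_3b226c_al.Count
import Pool.Agent.P.MP_3b226c_al.Word

set_option autoImplicit false
set_option linter.unusedSectionVars false

namespace Pool.Agent.NS.M

open Finset Equiv

variable {G X : Type} [Group G] [Fintype X] [DecidableEq X]

theorem out_nonneg' (π : Perm X) (T T' : Finset X) : 0 ≤ out π T T' := Nat.cast_nonneg _

theorem bd_nonneg' (σ : G → Perm X) (S : Finset G) (T : Finset X) : 0 ≤ bd σ S T :=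
  Finset.sum_nonneg fun _ _ => out_nonneg' _ _ _

theorem dfc_nonneg' (σ : G → Perm X) (S : Finset G) (D : Finset X) (f : Perm X) :
    0 ≤ dfc σ S D f := Nat.cast_nonneg _

theorem chg_nonneg' {ι : Type} [DecidableEq ι] (l : X → ι) (π : Perm X) : 0 ≤ chg l π :=
  Nat.cast_nonneg _

theorem cut_nonneg' {ι : Type} [DecidableEq ι] (σ : G → Perm X) (S : Finset G) (l : X → ι) :
    0 ≤ cut σ S l := Finset.sum_nonneg fun _ _ => chg_nonneg' _ _

theorem good_mono {σ : G → Perm X} {F F' : Finset G} (h : F ⊆ F') {x : X} (hx : Good σ F' x) :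
    Good σ F x := fun g hg k hk => hx g (h hg) k (h hk)

theorem lt_mono {S F F' : Finset G} {γ ε : ℝ} (h : F ⊆ F') (hLT : LT S F γ ε) : LT S F' γ ε :=
  fun X _ _ σ T hT hb => hLT X σ T (fun x hx => good_mono h (hT x hx)) hb

theorem good_one {σ : G → Perm X} {F : Finset G} (h1 : (1 : G) ∈ F) {x : X} (hx : Good σ F x) :
    σ 1 x = x := by
  have := hx 1 h1 1 h1
  rw [mul_one] at this
  exact ((σ 1).injective this).symm

theorem hd_eq_zero (D : Finset X) (f g : Perm X) (h : ∀ x ∈ D, f x = g x) : hd D f g = 0 := by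
  unfold hd
  rw [Finset.filter_eq_empty_iff.2 (fun x hx hn => hn (h x hx))]
  simp

theorem card_le_out (π : Perm X) (D D' : Finset X) :
    (D.card : ℝ) ≤ out π D D' + D'.card := by
  have h1 := Finset.card_filter_add_card_filter_not (s := D) (fun x => π x ∉ D')
  have h2 : (D.filter fun x => ¬ π x ∉ D').card ≤ D'.card := by
    refine Finset.card_le_card_of_injOn π ?_ (π.injective.injOn)
    intro x hx
    simp only [coe_filter, not_not, Set.mem_ofPred_eq] at hx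
    exact hx.2
  unfold out
  have h3 : D.card ≤ (D.filter fun x => π x ∉ D').card + D'.card := by omega
  exact_mod_cast h3

/-- `σ m` is an almost automorphism of `D` of high quality -/
def Fine (σ : G → Perm X) (S F : Finset G) (δ₁ : ℝ) (D : Finset X) (m : G) : Prop :=
  m ∈ F ∧ dfc σ S D (σ m) ≤ δ₁ * D.card

theorem fine_of_central (σ : G → Perm X) (S F : Finset G) (hSF : S ⊆ F) (δ₁ : ℝ) (D : Finset X)
    (hD : ∀ y ∈ D, Good σ F y) (m : G) (hm : m ∈ F) (hc : ∀ s ∈ S, m * s = s * m)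
    (ho : out (σ m) D D ≤ δ₁ * D.card) : Fine σ S F δ₁ D m := by
  refine ⟨hm, le_trans ?_ ho⟩
  unfold dfc out
  refine Nat.cast_le.2 (Finset.card_le_card ?_)
  intro x hx
  rw [Finset.mem_filter] at hx ⊢
  refine ⟨hx.1, ?_⟩
  rcases hx.2 with h | ⟨s, hs, h⟩
  · exact h
  · exfalso
    apply h
    rw [← hD x hx.1 m hm s (hSF hs), ← hD x hx.1 s (hSF hs) m hm, hc s hs]

section
variable {σ : G → Perm X} {S F : Finset G} {δ₁ δ : ℝ} {D : Finset X}

theorem Fine.med {m : G} (h : Fine σ S F δ₁ D m) (h0 : 0 ≤ δ₁) (h2 : 2 * δ₁ ≤ δ) :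
    dfc σ S D (σ m) ≤ δ * D.card :=
  h.2.trans (mul_le_mul_of_nonneg_right (by linarith) (Nat.cast_nonneg _))

theorem Fine.coarse {m : G} (h : Fine σ S F δ₁ D m) (h0 : 0 ≤ δ₁) (h2 : 2 * δ₁ ≤ δ) :
    dfc σ S D (σ m) ≤ 2 * δ * D.card :=
  h.2.trans (mul_le_mul_of_nonneg_right (by linarith) (Nat.cast_nonneg _))

theorem cl_mul (c : Clu σ S D δ₁ δ) (hD : ∀ y ∈ D, Good σ F y) (h0 : 0 ≤ δ₁) (h2 : 2 * δ₁ ≤ δ)
    {m m' : G} (hm : Fine σ S F δ₁ D m) (hm' : Fine σ S F δ₁ D m')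
    (hmm : Fine σ S F δ₁ D (m * m')) : c.cl (σ (m * m')) = c.cl (σ m) * c.cl (σ m') := by
  rw [← c.mul _ _ (hm.med h0 h2) (hm'.med h0 h2)]
  have h3 : dfc σ S D (σ m * σ m') ≤ 2 * δ * D.card := by
    have := dfc_mul σ S D (σ m) (σ m')
    have a := hm.med h0 h2
    have b := hm'.med h0 h2
    linarith
  refine (c.eq_iff _ _ (hmm.coarse h0 h2) h3).2 ?_
  rw [hd_eq_zero D _ _ (fun x hx => hD x hx m hm.1 m' hm'.1)]
  simp

theorem cl_one' (c : Clu σ S D δ₁ δ) (h0 : 0 ≤ δ) : c.cl 1 = 1 := by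
  have h : dfc σ S D 1 ≤ δ * D.card := by
    rw [dfc_one]
    exact mul_nonneg h0 (Nat.cast_nonneg _)
  have := c.mul 1 1 h h
  rw [mul_one] at this
  exact left_eq_mul.1 this

theorem cl_one (c : Clu σ S D δ₁ δ) (hD : ∀ y ∈ D, Good σ F y) (h0 : 0 ≤ δ₁) (h2 : 2 * δ₁ ≤ δ)
    (hm : Fine σ S F δ₁ D 1) : c.cl (σ 1) = 1 := by
  have h := cl_mul c hD h0 h2 hm hm (by rwa [mul_one])
  rw [mul_one] at h
  exact left_eq_mul.1 h

theorem cl_ne_one (c : Clu σ S D δ₁ δ) (hne : D.Nonempty) (h0 : 0 ≤ δ₁) (h2 : 2 * δ₁ ≤ δ)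
    {m : G} (hm : Fine σ S F δ₁ D m)
    (hfix : ((D ∩ univ.filter fun x => σ m x = x).card : ℝ) ≤ 1 / 4 * D.card) :
    c.cl (σ m) ≠ 1 := by
  intro h
  rw [← cl_one' c (by linarith)] at h
  have h1 : dfc σ S D 1 ≤ 2 * δ * D.card := by
    rw [dfc_one]
    exact mul_nonneg (by linarith) (Nat.cast_nonneg _)
  have h3 := (c.eq_iff _ _ (hm.coarse h0 h2) h1).1 h
  have h4 := Finset.card_filter_add_card_filter_not (s := D) (fun x => σ m x = x)
  have h5 : (D ∩ univ.filter fun x => σ m x = x) = D.filter fun x => σ m x = x := by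
    ext x
    simp
  rw [h5] at hfix
  have h6 : hd D (σ m) 1 = ((D.filter fun x => ¬ σ m x = x).card : ℝ) := rfl
  have h7 : ((D.filter fun x => σ m x = x).card : ℝ) +
      ((D.filter fun x => ¬ σ m x = x).card : ℝ) = D.card := by exact_mod_cast h4
  have h8 : (0 : ℝ) < D.card := by exact_mod_cast hne.card_pos
  linarith

theorem ord_conj {D' : Finset X} (c : Clu σ S D δ₁ δ) (c' : Clu σ S D' δ₁ δ) (g : G) (hg : g ∈ F)
    (hne : D.Nonempty) (hD : ∀ y ∈ D, Good σ F y) (h0 : 0 ≤ δ₁) (h2 : 2 * δ₁ ≤ δ)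
    (ho : 100 * out (σ g) D D' ≤ D.card) (ho' : 100 * out (σ g)⁻¹ D' D ≤ D'.card)
    (hf : ∀ f, dfc σ S D f ≤ 2 * δ₁ * D.card → dfc σ S D' (σ g * f * (σ g)⁻¹) ≤ δ * D'.card)
    {m m' : G} (hm : Fine σ S F δ₁ D m) (hm' : Fine σ S F δ₁ D' m') (h : g * m * g⁻¹ = m') :
    orderOf (c'.cl (σ m')) = orderOf (c.cl (σ m)) := by
  rw [← transport σ S D D' δ₁ δ c c' (σ g) hne h0 h2 ho ho' hf (σ m) hm.2]
  congr 1
  have h3 : dfc σ S D' (σ g * σ m * (σ g)⁻¹) ≤ 2 * δ * D'.card := by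
    have a := hf (σ m) (hm.2.trans (mul_le_mul_of_nonneg_right (by linarith) (Nat.cast_nonneg _)))
    have b : (0 : ℝ) ≤ δ * D'.card := mul_nonneg (by linarith) (Nat.cast_nonneg _)
    linarith
  refine (c'.eq_iff _ _ (hm'.coarse h0 h2) h3).2 ?_
  have h4 : hd D' (σ m') (σ g * σ m * (σ g)⁻¹) ≤ out (σ g)⁻¹ D' D := by
    unfold hd out
    refine Nat.cast_le.2 (Finset.card_le_card ?_)
    intro y hy
    rw [Finset.mem_filter] at hy ⊢
    refine ⟨hy.1, fun hx => hy.2 ?_⟩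
    have e1 := hD _ hx g hg m hm.1
    have e2 := hD _ hx m' hm'.1 g hg
    have e3 : m' * g = g * m := by rw [← h]; group
    rw [e3, e1] at e2
    rw [show σ g ((σ g)⁻¹ y) = y by simp] at e2
    simp only [Perm.mul_apply]
    exact e2.symm
  have h5 : (0 : ℝ) ≤ D'.card := Nat.cast_nonneg _
  linarith

end

open Classical in
/-- the 2-adic valuation of the order of the cluster of `f` -/
noncomputable def vv (σ : G → Perm X) (S : Finset G) (δ₁ δ : ℝ) (D : Finset X) (f : Perm X) : ℕ :=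
  if h : Nonempty (Clu σ S D δ₁ δ) then padicValNat 2 (orderOf (h.some.cl f)) else 0

theorem vv_eq {σ : G → Perm X} {S : Finset G} {δ₁ δ : ℝ} {D : Finset X}
    (h : Nonempty (Clu σ S D δ₁ δ)) (f : Perm X) :
    vv σ S δ₁ δ D f = padicValNat 2 (orderOf (h.some.cl f)) := dif_pos h

theorem nbad_le (σ : G → Perm X) (F : Finset G) (ε : ℝ)
    (h : ∀ g ∈ F, ∀ h ∈ F,
      ((univ.filter fun x => σ (g * h) x ≠ σ g (σ h x)).card : ℝ) ≤ ε * Fintype.card X) :
    nbad σ F ≤ F.card * F.card * (ε * Fintype.card X) := by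
  classical
  have h1 : (univ.filter fun x => ¬ Good σ F x) ⊆
      (F ×ˢ F).biUnion fun p => univ.filter fun x => σ (p.1 * p.2) x ≠ σ p.1 (σ p.2 x) := by
    intro x hx
    simp only [mem_filter, mem_univ, true_and, Good, not_forall] at hx
    obtain ⟨g, hg, k, hk, hx⟩ := hx
    simp only [mem_biUnion, mem_product, mem_filter, mem_univ, true_and]
    exact ⟨(g, k), ⟨hg, hk⟩, hx⟩
  have h2 := (Finset.card_le_card h1).trans Finset.card_biUnion_le
  have h3 : nbad σ F ≤ ∑ p ∈ F ×ˢ F,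
      ((univ.filter fun x => σ (p.1 * p.2) x ≠ σ p.1 (σ p.2 x)).card : ℝ) := by
    unfold nbad
    have : (((univ.filter fun x => ¬ Good σ F x).card : ℕ) : ℝ) ≤ _ := Nat.cast_le.2 h2
    push_cast at this
    convert this
  refine h3.trans ?_
  have h4 := Finset.sum_le_card_nsmul (F ×ˢ F) (fun p =>
    ((univ.filter fun x => σ (p.1 * p.2) x ≠ σ p.1 (σ p.2 x)).card : ℝ)) (ε * Fintype.card X)
    (fun p hp => h _ (mem_product.1 hp).1 _ (mem_product.1 hp).2)
  rw [card_product, nsmul_eq_mul] at h4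
  push_cast at h4
  exact h4

theorem card_preimage_perm (π : Perm X) (P : X → Prop) [DecidablePred P] :
    (univ.filter fun x => P (π x)).card = (univ.filter P).card := by
  refine Finset.card_bij (fun x _ => π x) ?_ ?_ ?_
  · intro x hx
    simpa using hx
  · intro x _ y _ h
    exact π.injective h
  · intro y hy
    exact ⟨π⁻¹ y, by simpa using hy, by simp⟩

end Pool.Agent.NS.M
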