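import Pool.Agent.P.MP_3b226c_al.Defs

set_option autoImplicit false

namespace Pool.Agent.NS

open Finset Equiv
open scoped symmDiff InnerProductSpace ComplexConjugate

namespace MatF

open Matrix

variable {R : Type} [CommRing R]

/-- the block of an index -/
def blk (i : Fin 8) : ℕ := if i.val = 7 then 3 else if 4 ≤ i.val then 2 else if 1 ≤ i.val then 1 else 0

theorem blk_lt_iff : ∀ i j : Fin 8, blk j < blk i ↔
    ((i.val = 7 ∧ j.val < 7) ∨ (4 ≤ i.val ∧ j.val < 4) ∨ (1 ≤ i.val ∧ j.val < 1)) := by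
  decide

/-- the first `3 × 3` diagonal block -/
def mid (g : Matrix (Fin 8) (Fin 8) R) : Matrix (Fin 3) (Fin 3) R :=
  Matrix.of ![![g 1 1, g 1 2, g 1 3], ![g 2 1, g 2 2, g 2 3], ![g 3 1, g 3 2, g 3 3]]

theorem inGam_iff (g : Matrix.SpecialLinearGroup (Fin 8) R) : InGam g ↔
    (g : Matrix (Fin 8) (Fin 8) R).BlockTriangular blk ∧
      (g : Matrix (Fin 8) (Fin 8) R) 0 0 = 1 ∧ (g : Matrix (Fin 8) (Fin 8) R) 7 7 = 1 ∧
      (mid (g : Matrix (Fin 8) (Fin 8) R)).det = 1 := by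
  unfold InGam mid
  refine and_congr ?_ Iff.rfl
  constructor
  · intro h i j hij
    exact h i j ((blk_lt_iff i j).mp hij)
  · intro h i j hij
    exact h ((blk_lt_iff i j).mpr hij)

theorem mul_00 {g h : Matrix (Fin 8) (Fin 8) R} (hh : h.BlockTriangular blk) :
    (g * h) 0 0 = g 0 0 * h 0 0 := by
  rw [Matrix.mul_apply]
  refine Finset.sum_eq_single 0 (fun k _ hk => ?_) (by simp)
  rw [hh (i := k) (j := 0) (by revert k; decide), mul_zero]

theorem mul_77 {g h : Matrix (Fin 8) (Fin 8) R} (hg : g.BlockTriangular blk) :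
    (g * h) 7 7 = g 7 7 * h 7 7 := by
  rw [Matrix.mul_apply]
  refine Finset.sum_eq_single 7 (fun k _ hk => ?_) (by simp)
  rw [hg (i := 7) (j := k) (by revert k; decide), zero_mul]

theorem mul_mid_entry {g h : Matrix (Fin 8) (Fin 8) R} (hg : g.BlockTriangular blk)
    (hh : h.BlockTriangular blk) (i j : Fin 8) (hi : blk i = 1) (hj : blk j = 1) :
    (g * h) i j = g i 1 * h 1 j + g i 2 * h 2 j + g i 3 * h 3 j := by
  rw [Matrix.mul_apply, Fin.sum_univ_eight, hg (i := i) (j := 0) (by rw [hi]; decide),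
    hh (i := 4) (j := j) (by rw [hj]; decide), hh (i := 5) (j := j) (by rw [hj]; decide),
    hh (i := 6) (j := j) (by rw [hj]; decide), hh (i := 7) (j := j) (by rw [hj]; decide)]
  ring

theorem mid_mul {g h : Matrix (Fin 8) (Fin 8) R} (hg : g.BlockTriangular blk)
    (hh : h.BlockTriangular blk) : mid (g * h) = mid g * mid h := by
  have H := mul_mid_entry hg hh
  ext i j
  rw [Matrix.mul_apply, Fin.sum_univ_three]
  fin_cases i <;> fin_cases j <;> exact H _ _ (by decide) (by decide)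

theorem mid_one : mid (1 : Matrix (Fin 8) (Fin 8) R) = 1 := by
  ext i j
  fin_cases i <;> fin_cases j <;> simp [mid]

theorem col_zero {g : Matrix.SpecialLinearGroup (Fin 8) R} (hg : InGam g) (i : Fin 8) :
    (g : Matrix (Fin 8) (Fin 8) R) i 0 = (1 : Matrix (Fin 8) (Fin 8) R) i 0 := by
  rcases eq_or_ne i 0 with rfl | hi
  · rw [hg.2.1, Matrix.one_apply_eq]
  · rw [Matrix.one_apply_ne hi]
    exact hg.1 i 0 (Or.inr (Or.inr ⟨by omega, by decide⟩))

theorem row_seven {g : Matrix.SpecialLinearGroup (Fin 8) R} (hg : InGam g) (j : Fin 8) :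
    (g : Matrix (Fin 8) (Fin 8) R) 7 j = (1 : Matrix (Fin 8) (Fin 8) R) 7 j := by
  rcases eq_or_ne j 7 with rfl | hj
  · rw [hg.2.2.1, Matrix.one_apply_eq]
  · rw [Matrix.one_apply_ne hj.symm]
    exact hg.1 7 j (Or.inl ⟨by decide, by omega⟩)

theorem inH_mul_apply {g : Matrix.SpecialLinearGroup (Fin 8) R} (hg : InH g)
    (h : Matrix (Fin 8) (Fin 8) R) {i : Fin 8} (hi : 4 ≤ i.val) (j : Fin 8) :
    ((g : Matrix (Fin 8) (Fin 8) R) * h) i j = h i j := by
  conv_rhs => rw [← Matrix.one_mul h]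
  rw [Matrix.mul_apply, Matrix.mul_apply]
  exact Finset.sum_congr rfl fun k _ => by rw [hg i k hi]

/-- the matrix with first row `u` and all other rows zero -/
def rowN (u : Fin 8 → R) : Matrix (Fin 8) (Fin 8) R := Matrix.of fun i j => if i = 0 then u j else 0

/-- `y = 1 + rowN u` -/
def IsE (y : Matrix.SpecialLinearGroup (Fin 8) R) (u : Fin 8 → R) : Prop :=
  (y : Matrix (Fin 8) (Fin 8) R) = 1 + rowN u

theorem IsE.ext {y y' : Matrix.SpecialLinearGroup (Fin 8) R} {u u' : Fin 8 → R} (h : IsE y u)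
    (h' : IsE y' u') (e : u = u') : y = y' :=
  Subtype.ext (h.trans (e ▸ h'.symm))

theorem rowN_mul (u : Fin 8 → R) (g : Matrix (Fin 8) (Fin 8) R) :
    rowN u * g = rowN (u ᵥ* g) := by
  ext i j
  by_cases hi : i = 0 <;> simp [rowN, Matrix.mul_apply, hi, Matrix.vecMul, dotProduct]

theorem mul_rowN {g : Matrix (Fin 8) (Fin 8) R}
    (hg : ∀ i, g i 0 = (1 : Matrix (Fin 8) (Fin 8) R) i 0) (u : Fin 8 → R) :
    g * rowN u = rowN u := by
  conv_rhs => rw [← Matrix.one_mul (rowN u)]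
  ext i j
  rw [Matrix.mul_apply, Matrix.mul_apply]
  refine Finset.sum_congr rfl fun k _ => ?_
  by_cases hk : k = 0
  · rw [hk, hg]
  · simp [rowN, hk]

theorem rowN_mul_rowN {u : Fin 8 → R} (hu : u 0 = 0) (w : Fin 8 → R) : rowN u * rowN w = 0 := by
  ext i j
  rw [Matrix.mul_apply]
  refine Finset.sum_eq_zero fun k _ => ?_
  by_cases hk : k = 0
  · simp [rowN, hk, hu]
  · simp [rowN, hk]

theorem rowN_add (u w : Fin 8 → R) : rowN (u + w) = rowN u + rowN w := by
  ext i j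
  by_cases hi : i = 0 <;> simp [rowN, hi]

theorem IsE.mul {y y' : Matrix.SpecialLinearGroup (Fin 8) R} {u w : Fin 8 → R} (h : IsE y u)
    (h' : IsE y' w) (hu : u 0 = 0) : IsE (y * y') (u + w) := by
  unfold IsE at *
  rw [Matrix.SpecialLinearGroup.coe_mul, h, h', rowN_add, add_mul, mul_add, mul_add,
    rowN_mul_rowN hu]
  simp only [one_mul, mul_one, add_zero]
  abel

theorem isE_one : IsE (1 : Matrix.SpecialLinearGroup (Fin 8) R) 0 := by
  unfold IsE
  ext i j
  simp [rowN]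

theorem IsE.conj {g y y' : Matrix.SpecialLinearGroup (Fin 8) R} (hg : InGam g) {u w : Fin 8 → R}
    (h : IsE y u) (h' : IsE y' w) (e : w ᵥ* (g : Matrix (Fin 8) (Fin 8) R) = u) :
    g * y * g⁻¹ = y' := by
  rw [mul_inv_eq_iff_eq_mul]
  apply Subtype.ext
  unfold IsE at *
  rw [Matrix.SpecialLinearGroup.coe_mul, Matrix.SpecialLinearGroup.coe_mul, h, h', mul_add, add_mul,
    mul_rowN (col_zero hg), rowN_mul, e, mul_one, one_mul]

theorem tv_coe {p q : Fin 8} (h : p ≠ q) (r : R) :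
    ((tv p q r : Matrix.SpecialLinearGroup (Fin 8) R) : Matrix (Fin 8) (Fin 8) R) =
      1 + Matrix.single p q r := by
  unfold tv
  rw [dif_pos h]
  rfl

theorem isE_tv {q : Fin 8} (h : q ≠ 0) (r : R) : IsE (tv 0 q r) (Pi.single q r) := by
  unfold IsE
  rw [tv_coe h.symm]
  congr 1
  ext i j
  by_cases hi : i = 0 <;> by_cases hj : j = q <;>
    simp [rowN, Matrix.single_apply, Pi.single_apply, hi, hj, eq_comm]

theorem inGam_tv {p q : Fin 8} (h : p ≠ q) (h1 : ¬ blk q < blk p) (h2 : blk p ≠ 1) (r : R) :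
    InGam (tv p q r) := by
  have key : ∀ i j : Fin 8, ¬ (p = i ∧ q = j) →
      ((tv p q r : Matrix.SpecialLinearGroup (Fin 8) R) : Matrix (Fin 8) (Fin 8) R) i j =
        (1 : Matrix (Fin 8) (Fin 8) R) i j := by
    intro i j hij
    rw [tv_coe h, Matrix.add_apply, Matrix.single_apply_of_ne _ _ _ _ _ hij, add_zero]
  rw [inGam_iff]
  refine ⟨fun i j hij => ?_, ?_, ?_, ?_⟩
  · rw [key i j (by rintro ⟨rfl, rfl⟩; exact h1 hij), Matrix.one_apply_ne]
    rintro rfl
    exact lt_irrefl _ hij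
  · rw [key 0 0 (fun e => h (e.1.trans e.2.symm)), Matrix.one_apply_eq]
  · rw [key 7 7 (fun e => h (e.1.trans e.2.symm)), Matrix.one_apply_eq]
  · have k : ∀ i j : Fin 8, blk i = 1 →
        ((tv p q r : Matrix.SpecialLinearGroup (Fin 8) R) : Matrix (Fin 8) (Fin 8) R) i j =
          (1 : Matrix (Fin 8) (Fin 8) R) i j :=
      fun i j hi => key i j (by rintro ⟨rfl, -⟩; exact h2 hi)
    have : mid ((tv p q r : Matrix.SpecialLinearGroup (Fin 8) R) : Matrix (Fin 8) (Fin 8) R) =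
        mid (1 : Matrix (Fin 8) (Fin 8) R) := by
      unfold mid
      rw [k 1 1 (by decide), k 1 2 (by decide), k 1 3 (by decide), k 2 1 (by decide),
        k 2 2 (by decide), k 2 3 (by decide), k 3 1 (by decide), k 3 2 (by decide),
        k 3 3 (by decide)]
    rw [this, mid_one, Matrix.det_one]

theorem IsE.inH {y : Matrix.SpecialLinearGroup (Fin 8) R} {u : Fin 8 → R} (h : IsE y u) : InH y := by
  intro i j hi
  have : i ≠ 0 := by
    rintro rfl
    exact absurd hi (by decide)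
  rw [h, Matrix.add_apply]
  simp [rowN, this]

theorem IsE.comm {y g : Matrix.SpecialLinearGroup (Fin 8) R} {u : Fin 8 → R} (h : IsE y u)
    (hu : ∀ k : Fin 8, k.val < 4 → u k = 0) (hg : InGam g) (hg' : InH g) : y * g = g * y := by
  have : u ᵥ* (g : Matrix (Fin 8) (Fin 8) R) = u := by
    conv_rhs => rw [← Matrix.vecMul_one u]
    ext j
    simp only [Matrix.vecMul, dotProduct]
    refine Finset.sum_congr rfl fun k _ => ?_
    rcases lt_or_ge k.val 4 with hk | hk
    · rw [hu k hk, zero_mul, zero_mul]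
    · rw [hg' k j hk]
  exact (mul_inv_eq_iff_eq_mul.mp (h.conj hg h this)).symm

theorem vecMul_tv {p q : Fin 8} (h : p ≠ q) (r : R) (u : Fin 8 → R) :
    u ᵥ* ((tv p q r : Matrix.SpecialLinearGroup (Fin 8) R) : Matrix (Fin 8) (Fin 8) R) =
      u + Pi.single q (u p * r) := by
  rw [tv_coe h, Matrix.vecMul_add, Matrix.vecMul_one]
  congr 1
  ext j
  simp only [Matrix.vecMul, dotProduct, Matrix.single_apply, Pi.single_apply]
  rw [Finset.sum_eq_single p (fun k _ hk => by simp [hk.symm]) (by simp)]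
  by_cases hj : j = q
  · simp [hj]
  · simp [hj, Ne.symm hj]

/-- the diagonal element -/
def dg (t : R) (ht : 2 * t = 1) : Matrix.SpecialLinearGroup (Fin 8) R :=
  ⟨Matrix.diagonal ![1, 1, 1, 1, t, 2, 1, 1], by
    rw [Matrix.det_diagonal, Fin.prod_univ_eight]
    simp only [Matrix.cons_val]
    linear_combination ht⟩

theorem inGam_dg (t : R) (ht : 2 * t = 1) : InGam (dg t ht) := by
  rw [inGam_iff]
  refine ⟨Matrix.blockTriangular_diagonal _, by simp [dg], by simp [dg], ?_⟩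
  have : mid ((dg t ht : Matrix.SpecialLinearGroup (Fin 8) R) : Matrix (Fin 8) (Fin 8) R) = 1 := by
    ext i j
    fin_cases i <;> fin_cases j <;> simp [mid, dg]
  rw [this, Matrix.det_one]

theorem isE_zpow {y : Matrix.SpecialLinearGroup (Fin 8) R} (h : IsE y (Pi.single 7 1)) (m : ℤ) :
    IsE (y ^ m) (Pi.single 7 (m : R)) := by
  have hi : IsE y⁻¹ (Pi.single 7 (-1)) := by
    have h1 := isE_tv (R := R) (q := 7) (by decide) (-1)
    have h2 : y * tv 0 7 (-1) = 1 :=
      (h.mul h1 (by simp)).ext isE_one (by rw [← Pi.single_add]; simp)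
    rw [← eq_inv_of_mul_eq_one_right h2]
    exact h1
  induction m using Int.induction_on with
  | zero => simpa using isE_one
  | succ n ih =>
    have := ih.mul h (by simp)
    rw [← Pi.single_add] at this
    rw [_root_.zpow_add_one]
    simpa using this
  | pred n ih =>
    have := ih.mul hi (by simp)
    rw [← Pi.single_add] at this
    rw [_root_.zpow_sub_one]
    simpa [sub_eq_add_neg] using this

theorem IsE.apply07 {y : Matrix.SpecialLinearGroup (Fin 8) R} {r : R} (h : IsE y (Pi.single 7 r)) :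
    (y : Matrix (Fin 8) (Fin 8) R) 0 7 = r := by
  rw [h]
  simp [rowN]

end MatF

open MatF Matrix

theorem exists_Gam (R : Type) [CommRing R] :
    ∃ Γ : Subgroup (Matrix.SpecialLinearGroup (Fin 8) R), ∀ g, g ∈ Γ ↔ InGam g := by
  refine ⟨{ carrier := {g | InGam g}, mul_mem' := ?_, one_mem' := ?_, inv_mem' := ?_ },
    fun _ => Iff.rfl⟩
  · intro g h hg hh
    obtain ⟨g1, g2, g3, g4⟩ := (inGam_iff g).mp hg
    obtain ⟨h1, h2, h3, h4⟩ := (inGam_iff h).mp hh
    refine (inGam_iff _).mpr ?_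
    rw [Matrix.SpecialLinearGroup.coe_mul]
    exact ⟨g1.mul h1, by rw [mul_00 h1, g2, h2, one_mul], by rw [mul_77 g1, g3, h3, one_mul],
      by rw [mid_mul g1 h1, Matrix.det_mul, g4, h4, one_mul]⟩
  · refine (inGam_iff _).mpr ?_
    rw [Matrix.SpecialLinearGroup.coe_one]
    exact ⟨Matrix.blockTriangular_one, Matrix.one_apply_eq _, Matrix.one_apply_eq _,
      by rw [mid_one, Matrix.det_one]⟩
  · intro g hg
    obtain ⟨g1, g2, g3, g4⟩ := (inGam_iff g).mp hg
    have e : ((g⁻¹ : Matrix.SpecialLinearGroup (Fin 8) R) : Matrix (Fin 8) (Fin 8) R) *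
        (g : Matrix (Fin 8) (Fin 8) R) = 1 := by
      rw [← Matrix.SpecialLinearGroup.coe_mul, inv_mul_cancel, Matrix.SpecialLinearGroup.coe_one]
    have i1 : ((g⁻¹ : Matrix.SpecialLinearGroup (Fin 8) R) :
        Matrix (Fin 8) (Fin 8) R).BlockTriangular blk := by
      let _ : Invertible (g : Matrix (Fin 8) (Fin 8) R) := invertibleOfLeftInverse _ _ e
      rw [← Matrix.inv_eq_left_inv e]
      exact Matrix.blockTriangular_inv_of_blockTriangular g1
    refine (inGam_iff _).mpr ⟨i1, ?_, ?_, ?_⟩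
    · have := mul_00 (g := ((g⁻¹ : Matrix.SpecialLinearGroup (Fin 8) R) : Matrix (Fin 8) (Fin 8) R)) g1
      rw [e, g2, mul_one, Matrix.one_apply_eq] at this
      exact this.symm
    · have := mul_77 (h := (g : Matrix (Fin 8) (Fin 8) R)) i1
      rw [e, g3, mul_one, Matrix.one_apply_eq] at this
      exact this.symm
    · have := congrArg Matrix.det (mid_mul i1 g1)
      rw [e, mid_one, Matrix.det_one, Matrix.det_mul, g4, mul_one] at this
      exact this.symm

theorem exists_H {R : Type} [CommRing R]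
    (Γ : Subgroup (Matrix.SpecialLinearGroup (Fin 8) R)) (hΓ : ∀ g, g ∈ Γ ↔ InGam g) :
    ∃ H : Subgroup Γ, H.Normal ∧
      ∀ h : Γ, h ∈ H ↔ InH (h : Matrix.SpecialLinearGroup (Fin 8) R) := by
  refine ⟨{ carrier := {h | InH (h : Matrix.SpecialLinearGroup (Fin 8) R)}
            mul_mem' := ?_, one_mem' := ?_, inv_mem' := ?_ }, ⟨?_⟩, fun _ => Iff.rfl⟩
  · intro g h hg hh i j hi
    rw [Subgroup.coe_mul, Matrix.SpecialLinearGroup.coe_mul, inH_mul_apply hg _ hi]
    exact hh i j hi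
  · intro i j _
    rfl
  · intro g hg i j hi
    rw [← inH_mul_apply hg (((g⁻¹ : Γ) : Matrix.SpecialLinearGroup (Fin 8) R) :
        Matrix (Fin 8) (Fin 8) R) hi j, ← Matrix.SpecialLinearGroup.coe_mul, ← Subgroup.coe_mul,
      mul_inv_cancel]
    rfl
  · intro h hh γ i j hi
    have hγ := (hΓ _).mp γ.2
    have e : ∀ k, (((γ : Matrix.SpecialLinearGroup (Fin 8) R) : Matrix (Fin 8) (Fin 8) R) *
        ((h : Matrix.SpecialLinearGroup (Fin 8) R) : Matrix (Fin 8) (Fin 8) R)) i k =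
        ((γ : Matrix.SpecialLinearGroup (Fin 8) R) : Matrix (Fin 8) (Fin 8) R) i k := by
      intro k
      conv_rhs => rw [← Matrix.mul_one
        ((γ : Matrix.SpecialLinearGroup (Fin 8) R) : Matrix (Fin 8) (Fin 8) R)]
      rw [Matrix.mul_apply, Matrix.mul_apply]
      refine Finset.sum_congr rfl fun l _ => ?_
      rcases lt_or_ge l.val 4 with hl | hl
      · rw [hγ.1 i l (Or.inr (Or.inl ⟨hi, hl⟩)), zero_mul, zero_mul]
      · rw [hh l k hl]
    have e2 : (((γ * γ⁻¹ : Γ) : Matrix.SpecialLinearGroup (Fin 8) R) :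
        Matrix (Fin 8) (Fin 8) R) i j = (1 : Matrix (Fin 8) (Fin 8) R) i j := by
      rw [mul_inv_cancel]
      rfl
    rw [← e2]
    simp only [Subgroup.coe_mul, Matrix.SpecialLinearGroup.coe_mul]
    rw [Matrix.mul_apply, Matrix.mul_apply]
    exact Finset.sum_congr rfl fun k _ => by rw [e k]

theorem exists_elts {R : Type} [CommRing R] (t : R) (ht : 2 * t = 1)
    (Γ : Subgroup (Matrix.SpecialLinearGroup (Fin 8) R)) (hΓ : ∀ g, g ∈ Γ ↔ InGam g) :
    ∃ Y₁ Y₂ Y₃ c a s v : Γ,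
      (∀ y : Γ, (y = Y₁ ∨ y = Y₂ ∨ y = Y₃ ∨ y = c) →
        InH (y : Matrix.SpecialLinearGroup (Fin 8) R) ∧
        ∀ h : Γ, InH (h : Matrix.SpecialLinearGroup (Fin 8) R) → y * h = h * y) ∧
      Y₁ * Y₂ * Y₃ = 1 ∧ a * Y₁ * a⁻¹ = Y₁ * Y₁ ∧ a * (Y₂ * Y₂) * a⁻¹ = Y₂ ∧
      s * Y₁ * s⁻¹ = Y₂ ∧ s * Y₂ * s⁻¹ = Y₃ ∧ s * Y₃ * s⁻¹ = Y₁ ∧ v * Y₁ * v⁻¹ = Y₁ * c ∧
      (c : Matrix.SpecialLinearGroup (Fin 8) R) = tv 0 7 t := by
  have m : ∀ (p q : Fin 8) (r : R), p ≠ q → ¬ blk q < blk p → blk p ≠ 1 → tv p q r ∈ Γ :=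
    fun p q r h h1 h2 => (hΓ _).mpr (inGam_tv h h1 h2 r)
  have m04 := fun r => m 0 4 r (by decide) (by decide) (by decide)
  have m05 := fun r => m 0 5 r (by decide) (by decide) (by decide)
  have m07 := fun r => m 0 7 r (by decide) (by decide) (by decide)
  have m45 := fun r => m 4 5 r (by decide) (by decide) (by decide)
  have m54 := fun r => m 5 4 r (by decide) (by decide) (by decide)
  have m47 := fun r => m 4 7 r (by decide) (by decide) (by decide)
  have ms : tv 4 5 (-2 : R) * tv 5 4 1 * tv 4 5 (-1) ∈ Γ :=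
    Γ.mul_mem (Γ.mul_mem (m45 _) (m54 _)) (m45 _)
  have e1 := isE_tv (q := 4) (by decide) t
  have e2 := isE_tv (q := 5) (by decide) t
  have e3 := (isE_tv (q := 4) (by decide) (-t)).mul (isE_tv (q := 5) (by decide) (-t)) (by simp)
  have ec := isE_tv (q := 7) (by decide) t
  have hs : ∀ u : Fin 8 → R, u ᵥ* ((tv 4 5 (-2 : R) * tv 5 4 1 * tv 4 5 (-1) :
      Matrix.SpecialLinearGroup (Fin 8) R) : Matrix (Fin 8) (Fin 8) R) =
      u + Pi.single 4 (u 5 - 2 * u 4) + Pi.single 5 (-u 4 - u 5) := by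
    intro u
    rw [Matrix.SpecialLinearGroup.coe_mul, Matrix.SpecialLinearGroup.coe_mul, ← Matrix.vecMul_vecMul,
      ← Matrix.vecMul_vecMul, vecMul_tv (by decide), vecMul_tv (by decide), vecMul_tv (by decide)]
    ext k
    fin_cases k <;> simp <;> ring
  refine ⟨⟨tv 0 4 t, m04 _⟩, ⟨tv 0 5 t, m05 _⟩,
    ⟨tv 0 4 (-t) * tv 0 5 (-t), Γ.mul_mem (m04 _) (m05 _)⟩, ⟨tv 0 7 t, m07 _⟩,
    ⟨dg t ht, (hΓ _).mpr (inGam_dg t ht)⟩, ⟨_, ms⟩, ⟨tv 4 7 (-1), m47 _⟩,
    ?_, ?_, ?_, ?_, ?_, ?_, ?_, ?_, rfl⟩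
  · have key : ∀ (y : Γ) (u : Fin 8 → R), IsE (y : Matrix.SpecialLinearGroup (Fin 8) R) u →
        (∀ k : Fin 8, k.val < 4 → u k = 0) →
        InH (y : Matrix.SpecialLinearGroup (Fin 8) R) ∧
        ∀ h : Γ, InH (h : Matrix.SpecialLinearGroup (Fin 8) R) → y * h = h * y :=
      fun y u hy hu => ⟨hy.inH, fun h hh => Subtype.ext (hy.comm hu ((hΓ _).mp h.2) hh)⟩
    rintro y (rfl | rfl | rfl | rfl)
    · exact key _ _ e1 (fun k hk => by fin_cases k <;> simp at hk ⊢)
    · exact key _ _ e2 (fun k hk => by fin_cases k <;> simp at hk ⊢)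
    · exact key _ _ e3 (fun k hk => by fin_cases k <;> simp at hk ⊢)
    · exact key _ _ ec (fun k hk => by fin_cases k <;> simp at hk ⊢)
  · apply Subtype.ext
    refine ((e1.mul e2 (by simp)).mul e3 (by simp)).ext isE_one ?_
    ext k
    fin_cases k <;> simp
  · apply Subtype.ext
    refine e1.conj (inGam_dg t ht) (e1.mul e1 (by simp)) ?_
    ext k
    rw [show ((dg t ht : Matrix.SpecialLinearGroup (Fin 8) R) : Matrix (Fin 8) (Fin 8) R) =
      Matrix.diagonal ![1, 1, 1, 1, t, 2, 1, 1] from rfl, Matrix.vecMul_diagonal]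
    fin_cases k <;> simp
    linear_combination t * ht
  · apply Subtype.ext
    refine (e2.mul e2 (by simp)).conj (inGam_dg t ht) e2 ?_
    ext k
    rw [show ((dg t ht : Matrix.SpecialLinearGroup (Fin 8) R) : Matrix (Fin 8) (Fin 8) R) =
      Matrix.diagonal ![1, 1, 1, 1, t, 2, 1, 1] from rfl, Matrix.vecMul_diagonal]
    fin_cases k <;> simp
    ring
  · apply Subtype.ext
    refine e1.conj ((hΓ _).mp ms) e2 ?_
    rw [hs]
    ext k
    fin_cases k <;> simp
  · apply Subtype.ext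
    refine e2.conj ((hΓ _).mp ms) e3 ?_
    rw [hs]
    ext k
    fin_cases k <;> simp
    ring
  · apply Subtype.ext
    refine e3.conj ((hΓ _).mp ms) e1 ?_
    rw [hs]
    ext k
    fin_cases k <;> simp
    ring
  · apply Subtype.ext
    refine e1.conj ((hΓ _).mp (m47 _)) (e1.mul ec (by simp)) ?_
    rw [vecMul_tv (by decide)]
    ext k
    fin_cases k <;> simp

theorem exists_Z {R : Type} [CommRing R] (t : R) (ht : 2 * t = 1)
    (hinj : Function.Injective (Int.cast : ℤ → R))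
    (Γ : Subgroup (Matrix.SpecialLinearGroup (Fin 8) R)) (hΓ : ∀ g, g ∈ Γ ↔ InGam g)
    (c : Γ) (hc : (c : Matrix.SpecialLinearGroup (Fin 8) R) = tv 0 7 t) :
    ∃ Z : Subgroup Γ,
      (∀ z ∈ Z, ∀ i j : Fin 8, ¬ (i = 0 ∧ j = 7) →
        (((z : Γ) : Matrix.SpecialLinearGroup (Fin 8) R) : Matrix (Fin 8) (Fin 8) R) i j =
          (1 : Matrix (Fin 8) (Fin 8) R) i j) ∧
      Nonempty (Z ≃* Multiplicative ℤ) ∧ Z.Normal ∧ c * c ∈ Z ∧ c ∉ Z := by
  have ec : IsE (c : Matrix.SpecialLinearGroup (Fin 8) R) (Pi.single 7 t) :=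
    hc ▸ isE_tv (q := 7) (by decide) t
  have e2 : IsE ((c * c : Γ) : Matrix.SpecialLinearGroup (Fin 8) R) (Pi.single 7 1) := by
    have := ec.mul ec (by simp)
    rwa [← Pi.single_add, ← two_mul, ht] at this
  have em : ∀ m : ℤ, IsE (((c * c) ^ m : Γ) : Matrix.SpecialLinearGroup (Fin 8) R)
      (Pi.single 7 (m : R)) := fun m => by
    rw [Subgroup.coe_zpow]
    exact isE_zpow e2 m
  refine ⟨Subgroup.zpowers (c * c), ?_, ?_, ⟨?_⟩, Subgroup.mem_zpowers _, ?_⟩
  · rintro z ⟨m, rfl⟩ i j hij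
    have := em m
    unfold IsE at this
    rw [this, Matrix.add_apply]
    by_cases hi : i = 0
    · have hj : j ≠ 7 := fun hj => hij ⟨hi, hj⟩
      simp [rowN, hj]
    · simp [rowN, hi]
  · have hi : Function.Injective (zpowersHom Γ (c * c)) := by
      intro m n h
      have h' : (c * c) ^ m.toAdd = (c * c) ^ n.toAdd := h
      have h1 := (em m.toAdd).apply07
      rw [h', (em n.toAdd).apply07] at h1
      exact Multiplicative.toAdd.injective (hinj h1).symm
    exact ⟨(MonoidHom.ofInjective hi).symm⟩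
  · rintro z ⟨m, rfl⟩ γ
    refine ⟨m, Subtype.ext ((em m).conj ((hΓ _).mp γ.2) (em m) ?_).symm⟩
    ext k
    rw [Matrix.single_vecMul]
    simp only [Pi.smul_apply, Matrix.row, smul_eq_mul]
    rw [row_seven ((hΓ _).mp γ.2)]
    by_cases hk : k = 7
    · subst hk
      simp
    · simp [hk, Matrix.one_apply_ne (Ne.symm hk)]
  · rintro ⟨m, hm⟩
    have h1 := (em m).apply07
    have hm' : (c * c) ^ m = c := hm
    rw [hm', ec.apply07] at h1
    have h2 : ((2 * m : ℤ) : R) = ((1 : ℤ) : R) := by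
      push_cast
      rw [← h1, ht]
    have := hinj h2
    omega

theorem away_two : ∃ t : Localization.Away ((2 : ℕ) : ℤ), 2 * t = 1 ∧
    (∀ r : Localization.Away ((2 : ℕ) : ℤ), ∃ (k : ℕ) (m : ℤ), r = m * t ^ k) ∧
    Function.Injective (Int.cast : ℤ → Localization.Away ((2 : ℕ) : ℤ)) := by
  have h := IsLocalization.Away.mul_invSelf (S := Localization.Away ((2 : ℕ) : ℤ)) ((2 : ℕ) : ℤ)
  refine ⟨IsLocalization.Away.invSelf ((2 : ℕ) : ℤ), by simpa using h, fun r => ?_, ?_⟩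
  · obtain ⟨k, m, hkm⟩ := IsLocalization.Away.surj ((2 : ℕ) : ℤ) r
    refine ⟨k, m, ?_⟩
    rw [← eq_intCast (algebraMap ℤ (Localization.Away ((2 : ℕ) : ℤ))) m, ← hkm, mul_assoc,
      ← mul_pow, h, one_pow, mul_one]
  · have := IsLocalization.injective (M := Submonoid.powers ((2 : ℕ) : ℤ))
      (Localization.Away ((2 : ℕ) : ℤ))
      (powers_le_nonZeroDivisors_of_noZeroDivisors (by norm_num))
    intro a b hab
    apply this
    simpa using hab

end Pool.Agent.NS
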