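import Pool.Agent.P.MP_3b226c_al.SL3

set_option autoImplicit false

namespace Pool.Agent.NS

open Finset Equiv
open scoped symmDiff InnerProductSpace ComplexConjugate

namespace MatH

section alg

variable {R : Type} [CommRing R]

theorem tv_coe {ι : Type} [DecidableEq ι] [Fintype ι] {i j : ι} (h : i ≠ j) (r : R) :
    ((tv i j r : Matrix.SpecialLinearGroup ι R) : Matrix ι ι R) = 1 + Matrix.single i j r := by
  rw [tv, dif_pos h]
  rfl

theorem tv_comm {ι : Type} [DecidableEq ι] [Fintype ι] {i j k : ι} (hij : i ≠ j) (hjk : j ≠ k)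
    (hik : i ≠ k) (r s : R) :
    (tv i k (r * s) : Matrix.SpecialLinearGroup ι R) =
      tv i j r * tv j k s * (tv i j r)⁻¹ * (tv j k s)⁻¹ := by
  rw [eq_mul_inv_iff_mul_eq, eq_mul_inv_iff_mul_eq]
  apply Subtype.ext
  simp only [Matrix.SpecialLinearGroup.coe_mul, tv_coe hij, tv_coe hjk, tv_coe hik]
  simp only [mul_add, add_mul, mul_one, one_mul, Matrix.single_mul_single_same,
    Matrix.single_mul_single_of_ne _ _ _ _ hjk.symm, Matrix.single_mul_single_of_ne _ _ _ _ hik.symm,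
    add_zero]
  abel

/-- the splitting of the eight indices into `1, 2, 3` and the others -/
def e38 : Fin 3 ⊕ Fin 5 ≃ Fin 8 where
  toFun := Sum.elim ![1, 2, 3] ![0, 4, 5, 6, 7]
  invFun := ![.inr 0, .inl 0, .inl 1, .inl 2, .inr 1, .inr 2, .inr 3, .inr 4]
  left_inv := by decide
  right_inv := by decide

/-- block matrix `diag(1, A, 1, 1, 1, 1)` -/
def embM (A : Matrix (Fin 3) (Fin 3) R) : Matrix (Fin 8) (Fin 8) R :=
  Matrix.reindex e38 e38 (Matrix.fromBlocks A 0 0 1)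

theorem embM_eq (A : Matrix (Fin 3) (Fin 3) R) : embM A =
    !![1, 0, 0, 0, 0, 0, 0, 0;
       0, A 0 0, A 0 1, A 0 2, 0, 0, 0, 0;
       0, A 1 0, A 1 1, A 1 2, 0, 0, 0, 0;
       0, A 2 0, A 2 1, A 2 2, 0, 0, 0, 0;
       0, 0, 0, 0, 1, 0, 0, 0;
       0, 0, 0, 0, 0, 1, 0, 0;
       0, 0, 0, 0, 0, 0, 1, 0;
       0, 0, 0, 0, 0, 0, 0, 1] := by
  ext i j
  fin_cases i <;> fin_cases j <;> rfl

/-- the block embedding of `SL(3, R)` into `SL(8, R)` -/
def emb : Matrix.SpecialLinearGroup (Fin 3) R →* Matrix.SpecialLinearGroup (Fin 8) R where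
  toFun A := ⟨embM A.1, by
    rw [embM, Matrix.det_reindex_self, Matrix.det_fromBlocks_zero₂₁, A.2, Matrix.det_one, mul_one]⟩
  map_one' := by
    apply Subtype.ext
    simp [embM]
  map_mul' A B := by
    apply Subtype.ext
    simp only [Matrix.SpecialLinearGroup.coe_mul, embM, Matrix.reindex_apply,
      Matrix.submatrix_mul_equiv, Matrix.fromBlocks_multiply]
    simp

theorem emb_coe (A : Matrix.SpecialLinearGroup (Fin 3) R) :
    ((emb A : Matrix.SpecialLinearGroup (Fin 8) R) : Matrix (Fin 8) (Fin 8) R) = embM A.1 := rfl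

theorem emb_tv (i j : Fin 3) (r : R) :
    emb (tv i j r) = tv (e38 (.inl i)) (e38 (.inl j)) r := by
  by_cases h : i = j
  · subst h
    simp [tv]
  · have h' : e38 (.inl i) ≠ e38 (.inl j) := by simpa using h
    apply Subtype.ext
    rw [emb_coe, tv_coe h, tv_coe h']
    ext a b
    obtain ⟨a, rfl⟩ := e38.surjective a
    obtain ⟨b, rfl⟩ := e38.surjective b
    rcases a with a | a <;> rcases b with b | b <;>
      simp [embM, Matrix.one_apply, Matrix.single_apply]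

theorem emb_inGam (A : Matrix.SpecialLinearGroup (Fin 3) R) : InGam (emb A) := by
  have hA := A.2
  refine ⟨?_, ?_, ?_, ?_⟩
  · intro i j hij
    rw [emb_coe, embM_eq]
    fin_cases i <;> fin_cases j <;> first | rfl | (exfalso; revert hij; decide)
  · rw [emb_coe, embM_eq]
    rfl
  · rw [emb_coe, embM_eq]
    rfl
  · refine Eq.trans ?_ hA
    rw [emb_coe, embM_eq]
    congr 1
    ext i j
    fin_cases i <;> fin_cases j <;> rfl

theorem emb_inH (A : Matrix.SpecialLinearGroup (Fin 3) R) : InH (emb A) := by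
  intro i j hi
  rw [emb_coe, embM_eq]
  fin_cases i <;> fin_cases j <;> first | rfl | (exfalso; revert hi; decide)

theorem tv_inH {i j : Fin 8} (hi : i.val ≤ 3) (r : R) : InH (tv i j r) := by
  intro a b ha
  by_cases h : i = j
  · subst h
    simp [tv]
  · rw [tv_coe h, Matrix.add_apply, Matrix.single_apply, if_neg, add_zero]
    rintro ⟨rfl, -⟩
    omega

theorem idx_cases {i : Fin 8} (h1 : 1 ≤ i.val) (h3 : i.val ≤ 3) : ∃ a, i = e38 (.inl a) := by
  revert i
  decide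

theorem tv_inGam {i j : Fin 8} (hi : i.val ≤ 3) (hj : 1 ≤ j.val) (r : R) : InGam (tv i j r) := by
  by_cases hb : 1 ≤ i.val ∧ j.val ≤ 3
  · obtain ⟨a, rfl⟩ := idx_cases hb.1 hi
    obtain ⟨b, rfl⟩ := idx_cases hj hb.2
    rw [← emb_tv]
    exact emb_inGam _
  have h : i ≠ j := by
    rintro rfl
    exact hb ⟨hj, hi⟩
  have key : ∀ a b : Fin 8, ¬ (i = a ∧ j = b) →
      ((tv i j r : Matrix.SpecialLinearGroup (Fin 8) R) : Matrix (Fin 8) (Fin 8) R) a b =
        (1 : Matrix (Fin 8) (Fin 8) R) a b := by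
    intro a b hab
    rw [tv_coe h, Matrix.add_apply, Matrix.single_apply, if_neg hab, add_zero]
  have key2 : ∀ a b : Fin 8, 1 ≤ a.val → b.val ≤ 3 →
      ((tv i j r : Matrix.SpecialLinearGroup (Fin 8) R) : Matrix (Fin 8) (Fin 8) R) a b =
        (1 : Matrix (Fin 8) (Fin 8) R) a b := by
    intro a b ha hb'
    apply key
    rintro ⟨rfl, rfl⟩
    exact hb ⟨ha, hb'⟩
  refine ⟨?_, ?_, ?_, ?_⟩
  · intro a b hab
    rw [key a b (by rintro ⟨rfl, rfl⟩; omega), Matrix.one_apply_ne]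
    rintro rfl
    omega
  · rw [key 0 0 (by rintro ⟨rfl, rfl⟩; exact h rfl), Matrix.one_apply_eq]
  · rw [key 7 7 (by rintro ⟨rfl, rfl⟩; exact h rfl), Matrix.one_apply_eq]
  · rw [key2 1 1 (by decide) (by decide), key2 1 2 (by decide) (by decide),
      key2 1 3 (by decide) (by decide), key2 2 1 (by decide) (by decide),
      key2 2 2 (by decide) (by decide), key2 2 3 (by decide) (by decide),
      key2 3 1 (by decide) (by decide), key2 3 2 (by decide) (by decide),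
      key2 3 3 (by decide) (by decide)]
    simp [Matrix.det_fin_three]

variable (P : Matrix.SpecialLinearGroup (Fin 8) R → ℝ → Prop)

theorem prod_bound (hone : P 1 0) (hmul : ∀ g g' b b', P g b → P g' b' → P (g * g') (b + b'))
    (I J : Finset (Fin 8)) (hIJ : ∀ i ∈ I, ∀ j ∈ J, i ≠ j) (b : ℝ)
    (hb : ∀ i ∈ I, ∀ j ∈ J, ∀ r, P (tv i j r) b) (M : Matrix (Fin 8) (Fin 8) R)
    (s : Finset (Fin 8 × Fin 8)) (hs : s ⊆ I ×ˢ J) :
    ∃ g : Matrix.SpecialLinearGroup (Fin 8) R,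
      (g : Matrix (Fin 8) (Fin 8) R) = 1 + ∑ p ∈ s, Matrix.single p.1 p.2 (M p.1 p.2) ∧
        P g (s.card * b) := by
  induction s using Finset.induction_on with
  | empty => exact ⟨1, by simp, by simpa using hone⟩
  | insert p s hp ih =>
    obtain ⟨g, hg, hPg⟩ := ih ((subset_insert _ _).trans hs)
    have hpm := mem_product.mp (hs (mem_insert_self _ _))
    refine ⟨g * tv p.1 p.2 (M p.1 p.2), ?_, ?_⟩
    · rw [Matrix.SpecialLinearGroup.coe_mul, hg, tv_coe (hIJ _ hpm.1 _ hpm.2), sum_insert hp]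
      have : (∑ q ∈ s, Matrix.single q.1 q.2 (M q.1 q.2)) * Matrix.single p.1 p.2 (M p.1 p.2) =
          0 := by
        rw [Finset.sum_mul]
        refine Finset.sum_eq_zero fun q hq => ?_
        have hqm := mem_product.mp (hs (mem_insert_of_mem hq))
        exact Matrix.single_mul_single_of_ne _ _ _ _ (hIJ _ hpm.1 _ hqm.2).symm _
      rw [add_mul, mul_add, mul_add, this]
      simp only [mul_one, one_mul]
      abel
    · have := hmul _ _ _ _ hPg (hb _ hpm.1 _ hpm.2 (M p.1 p.2))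
      rw [card_insert_of_notMem hp]
      push_cast
      rwa [add_mul, one_mul]

theorem sum_single_apply (I J : Finset (Fin 8)) (M : Matrix (Fin 8) (Fin 8) R) (a b : Fin 8) :
    (∑ p ∈ I ×ˢ J, Matrix.single p.1 p.2 (M p.1 p.2)) a b =
      if a ∈ I ∧ b ∈ J then M a b else 0 := by
  rw [Matrix.sum_apply]
  split_ifs with h
  · rw [Finset.sum_eq_single (a, b)]
    · simp
    · rintro ⟨i, j⟩ - hne
      rw [Matrix.single_apply, if_neg]
      rintro ⟨rfl, rfl⟩
      exact hne rfl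
    · intro hn
      exact absurd (mem_product.mpr h) hn
  · refine Finset.sum_eq_zero ?_
    rintro ⟨i, j⟩ hij
    rw [Matrix.single_apply, if_neg]
    rintro ⟨rfl, rfl⟩
    exact h (mem_product.mp hij)

theorem decomp (h : Matrix (Fin 8) (Fin 8) R)
    (h0 : ∀ i j : Fin 8, 1 ≤ i.val → j.val < 1 → h i j = 0) (h00 : h 0 0 = 1)
    (h4 : ∀ i j : Fin 8, 4 ≤ i.val → h i j = (1 : Matrix (Fin 8) (Fin 8) R) i j)
    (N N' : Matrix (Fin 8) (Fin 8) R)
    (hN : ∀ a b, N a b =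
      if a ∈ ({0, 1, 2, 3} : Finset (Fin 8)) ∧ b ∈ ({4, 5, 6, 7} : Finset (Fin 8)) then h a b else 0)
    (hN' : ∀ a b, N' a b =
      if a ∈ ({0} : Finset (Fin 8)) ∧ b ∈ ({1, 2, 3} : Finset (Fin 8)) then h a b else 0) :
    h = (1 + N) * embM !![h 1 1, h 1 2, h 1 3; h 2 1, h 2 2, h 2 3; h 3 1, h 3 2, h 3 3] *
      (1 + N') := by
  set E := embM !![h 1 1, h 1 2, h 1 3; h 2 1, h 2 2, h 2 3; h 3 1, h 3 2, h 3 3] with hE
  have hE4 : ∀ k j : Fin 8, 4 ≤ k.val → E k j = if k = j then 1 else 0 := by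
    intro k j hk
    rw [hE, embM_eq]
    fin_cases k <;> fin_cases j <;> first | rfl | (exfalso; revert hk; decide)
  have hE0 : ∀ i : Fin 8, E i 0 = if i = 0 then 1 else 0 := by
    intro i
    rw [hE, embM_eq]
    fin_cases i <;> rfl
  have hN4 : ∀ a b : Fin 8, ¬ 4 ≤ b.val → N a b = 0 := by
    intro a b hb
    rw [hN, if_neg]
    rintro ⟨-, h2⟩
    revert b
    decide
  have hN0 : ∀ a b : Fin 8, a ≠ 0 → N' a b = 0 := by
    intro a b ha
    rw [hN', if_neg]
    rintro ⟨h1, -⟩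
    exact ha (mem_singleton.mp h1)
  have e1 : N * E = N := by
    ext a b
    rw [Matrix.mul_apply, Finset.sum_eq_single b]
    · by_cases hb : 4 ≤ b.val
      · rw [hE4 b b hb, if_pos rfl, mul_one]
      · rw [hN4 a b hb, zero_mul]
    · intro k _ hk
      by_cases hb : 4 ≤ k.val
      · rw [hE4 k b hb, if_neg hk, mul_zero]
      · rw [hN4 a k hb, zero_mul]
    · simp
  have e2 : E * N' = N' := by
    ext a b
    rw [Matrix.mul_apply, Finset.sum_eq_single 0]
    · rw [hE0]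
      split_ifs with ha
      · rw [ha, one_mul]
      · rw [hN0 a b ha, zero_mul]
    · intro k _ hk
      rw [hN0 k b hk, mul_zero]
    · simp
  have e3 : N * N' = 0 := by
    ext a b
    rw [Matrix.mul_apply]
    refine Finset.sum_eq_zero fun k _ => ?_
    by_cases hk : k = 0
    · rw [hN4 a k (by rw [hk]; decide), zero_mul]
    · rw [hN0 k b hk, mul_zero]
  have e4 : (1 + N) * E * (1 + N') = E + N + N' := by
    rw [add_mul, one_mul, e1, mul_add, mul_one, add_mul, e2, e3, add_zero]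
  rw [e4]
  ext a b
  rw [Matrix.add_apply, Matrix.add_apply, hN, hN', hE, embM_eq]
  by_cases ha : 4 ≤ a.val
  · rw [h4 a b ha]
    fin_cases a <;> fin_cases b <;> first | (exfalso; revert ha; decide) | simp
  · fin_cases a <;> fin_cases b <;>
      first | (exfalso; revert ha; decide) | simp [h00]
    all_goals exact h0 _ _ (by decide) (by decide)

theorem alg_bound (hone : P 1 0) (hmul : ∀ g g' b b', P g b → P g' b' → P (g * g') (b + b'))
    (hinv : ∀ g b, P g b → P g⁻¹ b) (hmono : ∀ g b b', b ≤ b' → P g b → P g b')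
    (ε c : ℝ) (hε : 0 ≤ ε) (hc : 0 ≤ c)
    (h1 : ∀ i j : Fin 8, i.val ≤ 3 → 1 ≤ j.val → P (tv i j 1) ε) (h2 : ∀ A, P (emb A) c)
    (h : Matrix.SpecialLinearGroup (Fin 8) R) (hG : InGam h) (hH : InH h) :
    P h (100 * (c + ε) + 100 * ε) := by
  have comm : ∀ (i j k : Fin 8) (r s : R) (b b' : ℝ), i ≠ j → j ≠ k → i ≠ k → P (tv i j r) b →
      P (tv j k s) b' → P (tv i k (r * s)) (2 * (b + b')) := by
    intro i j k r s b b' hij hjk hik p1 p2
    rw [tv_comm hij hjk hik]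
    have := hmul _ _ _ _ (hmul _ _ _ _ (hmul _ _ _ _ p1 p2) (hinv _ _ p1)) (hinv _ _ p2)
    convert this using 1
    ring
  have t1 : ∀ (i j : Fin 8) (r : R), 1 ≤ i.val → i.val ≤ 3 → 1 ≤ j.val → j.val ≤ 3 →
      P (tv i j r) c := by
    intro i j r hi hi' hj hj'
    obtain ⟨a, rfl⟩ := idx_cases hi hi'
    obtain ⟨b, rfl⟩ := idx_cases hj hj'
    rw [← emb_tv]
    exact h2 _
  have other : ∀ j : Fin 8, ∃ k : Fin 8, 1 ≤ k.val ∧ k.val ≤ 3 ∧ k ≠ j := by decide
  have t2 : ∀ (j : Fin 8) (r : R), 1 ≤ j.val → j.val ≤ 3 → P (tv 0 j r) (2 * (ε + c)) := by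
    intro j r hj hj'
    obtain ⟨k, hk, hk', hkj⟩ := other j
    have := comm 0 k j 1 r ε c (by rintro rfl; simp at hk) hkj (by rintro rfl; simp at hj)
      (h1 0 k (by decide) hk) (t1 k j r hk hk' hj hj')
    rwa [one_mul] at this
  have t3 : ∀ (i j : Fin 8) (r : R), 1 ≤ i.val → i.val ≤ 3 → 4 ≤ j.val →
      P (tv i j r) (2 * (c + ε)) := by
    intro i j r hi hi' hj
    obtain ⟨k, hk, hk', hki⟩ := other i
    have := comm i k j r 1 c ε hki.symm (by rintro rfl; omega) (by rintro rfl; omega)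
      (t1 i k r hi hi' hk hk') (h1 k j hk' (by omega))
    rwa [mul_one] at this
  have t4 : ∀ (j : Fin 8) (r : R), 4 ≤ j.val → P (tv 0 j r) (2 * (2 * (ε + c) + ε)) := by
    intro j r hj
    have := comm 0 1 j r 1 _ ε (by decide) (by rintro rfl; simp at hj) (by rintro rfl; simp at hj)
      (t2 1 r (by decide) (by decide)) (h1 1 j (by decide) (by omega))
    rwa [mul_one] at this
  obtain ⟨U, hU, pU⟩ := prod_bound P hone hmul {0, 1, 2, 3} {4, 5, 6, 7} (by decide)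
    (2 * (2 * (ε + c) + ε)) (by
      intro i hi j hj r
      have hj4 : 4 ≤ j.val := by revert j; decide
      have hi3 : i.val ≤ 3 := by revert i; decide
      by_cases hi0 : i = 0
      · rw [hi0]
        exact t4 j r hj4
      · refine hmono _ _ _ (by linarith) (t3 i j r ?_ hi3 hj4)
        have : i.val ≠ 0 := fun h => hi0 (Fin.ext h)
        omega) h.1 _ subset_rfl
  obtain ⟨X, hX, pX⟩ := prod_bound P hone hmul {0} {1, 2, 3} (by decide) (2 * (ε + c)) (by
      intro i hi j hj r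
      rw [mem_singleton.mp hi]
      exact t2 j r (by revert j; decide) (by revert j; decide)) h.1 _ subset_rfl
  let A : Matrix.SpecialLinearGroup (Fin 3) R :=
    ⟨!![h.1 1 1, h.1 1 2, h.1 1 3; h.1 2 1, h.1 2 2, h.1 2 3; h.1 3 1, h.1 3 2, h.1 3 3], hG.2.2.2⟩
  have hdec : h = U * emb A * X := by
    apply Subtype.ext
    rw [Matrix.SpecialLinearGroup.coe_mul, Matrix.SpecialLinearGroup.coe_mul, hU, hX, emb_coe]
    exact decomp h.1 (fun i j hi hj => hG.1 i j (Or.inr (Or.inr ⟨hi, hj⟩))) hG.2.1 hH _ _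
      (sum_single_apply _ _ _) (sum_single_apply _ _ _)
  have hc1 : (({0, 1, 2, 3} : Finset (Fin 8)) ×ˢ ({4, 5, 6, 7} : Finset (Fin 8))).card = 16 := by
    decide
  have hc2 : (({0} : Finset (Fin 8)) ×ˢ ({1, 2, 3} : Finset (Fin 8))).card = 3 := by
    decide
  rw [hc1] at pU
  rw [hc2] at pX
  rw [hdec]
  refine hmono _ _ _ ?_ (hmul _ _ _ _ (hmul _ _ _ _ pU (h2 A)) pX)
  push_cast
  linarith

end alg

end MatH

open MatH in
theorem kazH {R : Type} [CommRing R] (t : R) (ht : 2 * t = 1)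
    (hR : ∀ r : R, ∃ (k : ℕ) (m : ℤ), r = m * t ^ k)
    (Γ : Subgroup (Matrix.SpecialLinearGroup (Fin 8) R)) (hΓ : ∀ g, g ∈ Γ ↔ InGam g) :
    ∃ (S : Finset Γ) (C : ℝ), (∀ s ∈ S, InH (s : Matrix.SpecialLinearGroup (Fin 8) R)) ∧
      Kaz {h : Γ | InH (h : Matrix.SpecialLinearGroup (Fin 8) R)} (S : Set Γ) C := by
  classical
  let a : Matrix.SpecialLinearGroup (Fin 3) R := ⟨Matrix.diagonal ![2, t, 1], by
    rw [Matrix.det_diagonal, Fin.prod_univ_three]
    simpa using ht⟩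
  obtain ⟨C, hC0, hC⟩ := kazSL3 t ht hR a rfl
  let ι : Matrix.SpecialLinearGroup (Fin 3) R →* Γ :=
    emb.codRestrict Γ fun A => (hΓ _).mpr (emb_inGam A)
  let T : Fin 8 × Fin 8 → Γ := fun p =>
    if h : p.1.val ≤ 3 ∧ 1 ≤ p.2.val then ⟨tv p.1 p.2 1, (hΓ _).mpr (tv_inGam h.1 h.2 1)⟩ else 1
  have hone : InH (1 : Matrix.SpecialLinearGroup (Fin 8) R) := fun i j _ => rfl
  refine ⟨insert (ι a) (univ.image T), 100 * (C + 1) + 100, ?_, ?_⟩
  · intro s hs
    rcases mem_insert.mp hs with rfl | hs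
    · exact emb_inH a
    · obtain ⟨p, -, rfl⟩ := mem_image.mp hs
      simp only [T]
      split_ifs with h
      · exact tv_inH h.1 1
      · exact hone
  · intro V _ _ _ ρ ξ ε hε hS h hh
    have hT : ∀ (i j : Fin 8) (hi : i.val ≤ 3) (hj : 1 ≤ j.val),
        ‖ρ ⟨tv i j 1, (hΓ _).mpr (tv_inGam hi hj 1)⟩ ξ - ξ‖ ≤ ε := by
      intro i j hi hj
      have := hS (T (i, j)) (by simp)
      simp only [T] at this
      rwa [dif_pos ⟨hi, hj⟩] at this
    have h3 : ∀ A, ‖ρ (ι A) ξ - ξ‖ ≤ C * ε := by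
      intro A
      refine hC V (ρ.comp ι) ξ ε hε ?_ A (Set.mem_univ _)
      rintro s (⟨i, j, rfl⟩ | rfl)
      · have h1 : (e38 (.inl i)).val ≤ 3 := by revert i; decide
        have h2 : 1 ≤ (e38 (.inl j)).val := by revert j; decide
        have e : ι (tv i j 1) = ⟨tv _ _ 1, (hΓ _).mpr (tv_inGam h1 h2 1)⟩ :=
          Subtype.ext (emb_tv i j 1)
        rw [MonoidHom.comp_apply, e]
        exact hT _ _ h1 h2
      · exact hS (ι a) (by simp)
    obtain ⟨_, hb⟩ := alg_bound (fun g b => ∃ hg : g ∈ Γ, ‖ρ ⟨g, hg⟩ ξ - ξ‖ ≤ b)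
      ⟨Γ.one_mem, by
        have : (⟨1, Γ.one_mem⟩ : Γ) = 1 := rfl
        simp [this]⟩
      (by
        rintro g g' b b' ⟨hg, p⟩ ⟨hg', p'⟩
        refine ⟨Γ.mul_mem hg hg', ?_⟩
        have e : (⟨g * g', Γ.mul_mem hg hg'⟩ : Γ) = ⟨g, hg⟩ * ⟨g', hg'⟩ := rfl
        have e2 : ρ (⟨g, hg⟩ * ⟨g', hg'⟩) ξ - ξ =
            ρ ⟨g, hg⟩ (ρ ⟨g', hg'⟩ ξ - ξ) + (ρ ⟨g, hg⟩ ξ - ξ) := by
          rw [map_mul, map_sub]
          simp
        rw [e, e2]
        refine (norm_add_le _ _).trans ?_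
        rw [LinearIsometryEquiv.norm_map]
        linarith)
      (by
        rintro g b ⟨hg, p⟩
        refine ⟨Γ.inv_mem hg, ?_⟩
        have e : (⟨g⁻¹, Γ.inv_mem hg⟩ : Γ) = (⟨g, hg⟩ : Γ)⁻¹ := rfl
        have e2 : ρ ⟨g, hg⟩ (ρ (⟨g, hg⟩ : Γ)⁻¹ ξ - ξ) = -(ρ ⟨g, hg⟩ ξ - ξ) := by
          rw [map_sub, map_inv]
          simp
        rw [e, ← (ρ ⟨g, hg⟩).norm_map, e2, norm_neg]
        exact p)
      (by
        rintro g b b' hb ⟨hg, p⟩
        exact ⟨hg, p.trans hb⟩)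
      ε (C * ε) hε (mul_nonneg hC0 hε) (fun i j hi hj => ⟨_, hT i j hi hj⟩)
      (fun A => ⟨_, h3 A⟩) h.1 ((hΓ _).mp h.2) hh
    refine hb.trans (le_of_eq ?_)
    ring

end Pool.Agent.NS
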