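import Mathlib

set_option autoImplicit false

namespace Pool.Agent.NS.SpecAux

open MeasureTheory Set
open scoped InnerProductSpace CompactlySupported

section Meas

variable {Ω : Type} [TopologicalSpace Ω] [CompactSpace Ω] [T2Space Ω] [MeasurableSpace Ω]
  [BorelSpace Ω]

omit [T2Space Ω] in
theorem cont_integrable (ν : Measure Ω) [IsFiniteMeasure ν] (f : C(Ω, ℝ)) : Integrable f ν :=
  f.continuous.integrable_of_hasCompactSupport (HasCompactSupport.of_compactSpace _)

theorem meas_transfer (ν : Measure Ω) [IsFiniteMeasure ν] [ν.Regular] (τ : C(Ω, Ω)) (c : ℝ)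
    (h : ∀ f : C(Ω, ℝ), (∀ x, f x ∈ Icc (0 : ℝ) 1) → ∫ x, f (τ x) ∂ν ≤ ∫ x, f x ∂ν + c)
    (B B' : Set Ω) (hB' : MeasurableSet B') (hm : ∀ x ∈ B', τ x ∈ B) :
    ν.real B' ≤ ν.real B + c := by
  refine le_of_forall_pos_le_add fun ε hε => ?_
  have he : ENNReal.ofReal (ε / 2) ≠ 0 := by simpa using hε
  obtain ⟨K, hKB, hK, hK2⟩ := hB'.exists_isCompact_lt_add (measure_ne_top ν B') he
  obtain ⟨O, hOB, hO, hO2⟩ := B.exists_isOpen_lt_add (measure_ne_top ν B) he
  have hK3 : ν.real B' ≤ ν.real K + ε / 2 := by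
    have := ENNReal.toReal_mono (by finiteness) hK2.le
    rwa [ENNReal.toReal_add (by finiteness) (by finiteness),
      ENNReal.toReal_ofReal (by positivity)] at this
  have hO3 : ν.real O ≤ ν.real B + ε / 2 := by
    have := ENNReal.toReal_mono (by finiteness) hO2.le
    rwa [ENNReal.toReal_add (by finiteness) (by finiteness),
      ENNReal.toReal_ofReal (by positivity)] at this
  have hc : IsCompact (τ '' K) := hK.image τ.continuous
  have hd : Disjoint Oᶜ (τ '' K) := by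
    rw [Set.disjoint_left]
    rintro _ hx ⟨y, hy, rfl⟩
    exact hx (hOB (hm y (hKB hy)))
  obtain ⟨f, hf0, hf1, hf⟩ :=
    exists_continuous_zero_one_of_isClosed hO.isClosed_compl hc.isClosed hd
  have h1 : ν.real K ≤ ∫ x, f (τ x) ∂ν := by
    rw [← integral_indicator_one hK.measurableSet]
    refine integral_mono ((integrable_const _).indicator hK.measurableSet)
      (cont_integrable ν (f.comp τ)) fun x => ?_
    by_cases hx : x ∈ K
    · simp [hx, hf1 ⟨x, hx, rfl⟩]
    · simp [hx, (hf _).1]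
  have h2 : ∫ x, f x ∂ν ≤ ν.real O := by
    rw [← integral_indicator_one hO.measurableSet]
    refine integral_mono (cont_integrable ν f)
      ((integrable_const _).indicator hO.measurableSet) fun x => ?_
    by_cases hx : x ∈ O
    · simp [hx, (hf _).2]
    · simp [hx, hf0 hx]
  have := h f hf
  linarith

/-- a real continuous function seen as a complex one -/
noncomputable def cx (f : C(Ω, ℝ)) : C(Ω, ℂ) :=
  ⟨fun x => (f x : ℂ), Complex.continuous_ofReal.comp f.continuous⟩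

omit [CompactSpace Ω] [T2Space Ω] [MeasurableSpace Ω] [BorelSpace Ω] in
@[simp] theorem cx_apply (f : C(Ω, ℝ)) (x : Ω) : cx f x = (f x : ℂ) := rfl

variable {V : Type} [NormedAddCommGroup V] [InnerProductSpace ℂ V] [CompleteSpace V]

omit [CompactSpace Ω] [T2Space Ω] [MeasurableSpace Ω] [BorelSpace Ω] in
theorem re_inner_star_mul (π : C(Ω, ℂ) →⋆ₐ[ℂ] (V →L[ℂ] V)) (ξ : V) (F : C(Ω, ℂ)) :
    (⟪ξ, π (star F * F) ξ⟫_ℂ).re = ‖π F ξ‖ ^ 2 := by
  rw [map_mul, map_star, mul_apply_eq_comp, ContinuousLinearMap.star_eq_adjoint,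
    ContinuousLinearMap.adjoint_inner_right, ← inner_self_eq_norm_sq (𝕜 := ℂ)]
  rfl

theorem exists_measure (π : C(Ω, ℂ) →⋆ₐ[ℂ] (V →L[ℂ] V)) (ξ : V) :
    ∃ ν : Measure Ω, ν.Regular ∧ IsFiniteMeasure ν ∧
      ∀ f : C(Ω, ℝ), ∫ x, f x ∂ν = (⟪ξ, π (cx f) ξ⟫_ℂ).re := by
  let L : C_c(Ω, ℝ) →ₗ[ℝ] ℝ :=
    { toFun := fun g => (⟪ξ, π (cx g.toContinuousMap) ξ⟫_ℂ).re
      map_add' := fun g g' => by
        have : cx (g + g').toContinuousMap = cx g.toContinuousMap + cx g'.toContinuousMap := by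
          ext x; simp
        rw [this, map_add, add_apply, inner_add_right, Complex.add_re]
      map_smul' := fun c g => by
        have : cx (c • g).toContinuousMap = (c : ℂ) • cx g.toContinuousMap := by
          ext x; simp
        rw [this, map_smul, smul_apply, inner_smul_right]
        simp }
  have hL : ∀ g : C_c(Ω, ℝ), 0 ≤ g → 0 ≤ L g := by
    intro g hg
    let s : C(Ω, ℝ) := ⟨fun x => √(g x), Real.continuous_sqrt.comp g.continuous⟩
    have : cx g.toContinuousMap = star (cx s) * cx s := by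
      ext x
      have h0 : 0 ≤ g x := hg x
      simp only [cx_apply, ContinuousMap.mul_apply, ContinuousMap.star_apply, s,
        ContinuousMap.coe_mk, Complex.star_def, Complex.conj_ofReal]
      rw [← Complex.ofReal_mul, Real.mul_self_sqrt h0]
      rfl
    change 0 ≤ (⟪ξ, π (cx g.toContinuousMap) ξ⟫_ℂ).re
    rw [this, re_inner_star_mul]
    positivity
  let Λ : C_c(Ω, ℝ) →ₚ[ℝ] ℝ :=
    { toLinearMap := L
      monotone' := fun g g' hgg' => by
        have := hL (g' - g) (sub_nonneg.2 hgg')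
        rw [map_sub] at this
        exact sub_nonneg.1 this }
  refine ⟨RealRMK.rieszMeasure Λ, by infer_instance, by infer_instance, fun g ↦ ?_⟩
  let g' : C_c(Ω, ℝ) :=
    { toContinuousMap := g
      hasCompactSupport' := HasCompactSupport.of_compactSpace _ }
  exact RealRMK.integral_rieszMeasure Λ g'

end Meas

theorem inner_diff_le {V : Type} [NormedAddCommGroup V] [InnerProductSpace ℂ V]
    (T : V →L[ℂ] V) (hT : ‖T‖ ≤ 1) (ξ η : V) (hξ : ‖ξ‖ = 1) (hη : ‖η‖ = 1) :
    (⟪η, T η⟫_ℂ).re ≤ (⟪ξ, T ξ⟫_ℂ).re + 2 * ‖η - ξ‖ := by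
  have e : ⟪η, T η⟫_ℂ = ⟪ξ, T ξ⟫_ℂ + ⟪η - ξ, T η⟫_ℂ + ⟪ξ, T (η - ξ)⟫_ℂ := by
    rw [map_sub, inner_sub_left, inner_sub_right]; ring
  have hTv : ∀ v, ‖T v‖ ≤ ‖v‖ := fun v =>
    (T.le_opNorm v).trans (mul_le_of_le_one_left (norm_nonneg _) hT)
  have h1 : (⟪η - ξ, T η⟫_ℂ).re ≤ ‖η - ξ‖ := by
    refine (Complex.re_le_norm _).trans ((norm_inner_le_norm _ _).trans ?_)
    exact mul_le_of_le_one_right (norm_nonneg _) (hη ▸ hTv η)
  have h2 : (⟪ξ, T (η - ξ)⟫_ℂ).re ≤ ‖η - ξ‖ := by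
    refine (Complex.re_le_norm _).trans ((norm_inner_le_norm _ _).trans ?_)
    rw [hξ, one_mul]; exact hTv _
  rw [e, Complex.add_re, Complex.add_re]
  linarith

theorem exists_model {E ι : Type} [CStarAlgebra E] (u : ι → E)
    (hc : ∀ r s, u r * u s = u s * u r) (hs : ∀ r s, u r * star (u s) = star (u s) * u r) :
    ∃ (Ω : Type) (_ : TopologicalSpace Ω) (_ : CompactSpace Ω) (_ : T2Space Ω)
      (π : C(Ω, ℂ) →⋆ₐ[ℂ] E) (e : ι → C(Ω, ℂ)), Function.Injective π ∧ (∀ r, π (e r) = u r) ∧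
      ∀ (α : E →⋆ₐ[ℂ] E), (∀ r, α (u r) ∈ range u) →
        ∃ τ : C(Ω, Ω), ∀ F : C(Ω, ℂ), π (F.comp τ) = α (π F) := by
  let S : StarSubalgebra ℂ E := StarAlgebra.adjoin ℂ (range u)
  let B : StarSubalgebra ℂ E := S.topologicalClosure
  have hBc : IsClosed (B : Set E) := S.isClosed_topologicalClosure
  have hS : IsMulCommutative S := StarAlgebra.isMulCommutative_adjoin ℂ
    (by rintro _ ⟨r, rfl⟩ _ ⟨s, rfl⟩; exact hc r s)
    (by rintro _ ⟨r, rfl⟩ _ ⟨s, rfl⟩; exact hs r s)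
  have hS' : ∀ x ∈ S, ∀ y ∈ S, x * y = y * x := fun x hx y hy =>
    congrArg Subtype.val (hS.is_comm.comm (⟨x, hx⟩ : S) ⟨y, hy⟩)
  have hB1 : ∀ y ∈ S, ∀ x ∈ B, x * y = y * x := fun y hy x hx =>
    closure_minimal (t := {x : E | x * y = y * x}) (fun x hx => hS' x hx y hy)
      (isClosed_eq (by fun_prop) (by fun_prop)) hx
  have hB : ∀ x ∈ B, ∀ y ∈ B, x * y = y * x := fun x hx y hy =>
    closure_minimal (t := {y : E | x * y = y * x}) (fun y hy => hB1 y hy x hx)
      (isClosed_eq (by fun_prop) (by fun_prop)) hy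
  let : CommCStarAlgebra B :=
    { StarSubalgebra.cstarAlgebra B with
      mul_comm := fun x y => Subtype.ext (hB x x.2 y y.2) }
  have hu : ∀ r, u r ∈ B := fun r =>
    S.le_topologicalClosure (StarAlgebra.subset_adjoin ℂ _ ⟨r, rfl⟩)
  let Γ := gelfandStarTransform B
  refine ⟨WeakDual.characterSpace ℂ B, inferInstance, inferInstance, inferInstance,
    B.subtype.comp (Γ.symm : _ →⋆ₐ[ℂ] B), fun r => Γ ⟨u r, hu r⟩, ?_, ?_, ?_⟩
  · exact Subtype.val_injective.comp Γ.symm.injective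
  · intro r
    change ((Γ.symm (Γ ⟨u r, hu r⟩) : B) : E) = u r
    rw [StarAlgEquiv.symm_apply_apply]
  · intro α hα
    have hmap : ∀ x : B, α x ∈ B := by
      intro x
      have h1 : StarSubalgebra.map α S ≤ S := by
        rw [StarAlgHom.map_adjoin]
        refine StarAlgebra.adjoin_mono ?_
        rintro _ ⟨_, ⟨r, rfl⟩, rfl⟩
        exact hα r
      have hcont : Continuous α :=
        AddMonoidHomClass.continuous_of_bound α 1 fun x => by
          simpa using NonUnitalStarAlgHom.norm_apply_le α x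
      have h2 := (StarSubalgebra.map_topologicalClosure_le S α hcont).trans
        (StarSubalgebra.topologicalClosure_mono h1)
      exact h2 ⟨x, x.2, rfl⟩
    let β : B →⋆ₐ[ℂ] B := (α.comp B.subtype).codRestrict B hmap
    refine ⟨WeakDual.CharacterSpace.compContinuousMap β, fun F => ?_⟩
    obtain ⟨b, rfl⟩ := Γ.surjective F
    have h3 : (Γ b).comp (WeakDual.CharacterSpace.compContinuousMap β) = Γ (β b) := rfl
    change ((Γ.symm ((Γ b).comp (WeakDual.CharacterSpace.compContinuousMap β)) : B) : E) =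
      α ((Γ.symm (Γ b) : B) : E)
    rw [h3]
    rw [StarAlgEquiv.symm_apply_apply, StarAlgEquiv.symm_apply_apply]
    rfl

end Pool.Agent.NS.SpecAux
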