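import Pool.Agent.P.MP_3b226c_al.Defs
import Pool.Agent.P.MP_3b226c_al.SpecAux

set_option autoImplicit false

namespace Pool.Agent.NS

open Finset Equiv
open scoped symmDiff InnerProductSpace ComplexConjugate

open MeasureTheory in
theorem spectral {G V A : Type} [Group G] [NormedAddCommGroup V] [InnerProductSpace ℂ V]
    [CompleteSpace V] [AddCommGroup A] (ρ : G →* (V ≃ₗᵢ[ℂ] V)) (n : A → G)
    (hn : ∀ r r', n (r + r') = n r * n r') (ξ : V) (hξ : ‖ξ‖ = 1) :
    ∃ μ : Measure (A → ℂ), IsProbabilityMeasure μ ∧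
      (∀ r, μ.real {χ | 1 ≤ ‖χ r - 1‖} ≤ ‖ρ (n r) ξ - ξ‖ ^ 2) ∧
      (∀ r, ‖ρ (n r) ξ - ξ‖ ^ 2 ≤ 4 * μ.real {χ | χ r ≠ 1}) ∧
      ∀ (g : G) (φ : A → A), (∀ r, g * n r * g⁻¹ = n (φ r)) →
        ∀ B B' : Set (A → ℂ), MeasurableSet B → MeasurableSet B' →
          (∀ χ, IsChar χ → χ ∈ B' → χ ∘ φ ∈ B) → μ.real B' ≤ μ.real B + 2 * ‖ρ g ξ - ξ‖ := by
  let u : A → (V →L[ℂ] V) := fun r => ((ρ (n r)).toContinuousLinearEquiv : V →L[ℂ] V)
  have hu : ∀ r v, u r v = ρ (n r) v := fun _ _ => rfl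
  have hadd : ∀ r s, u (r + s) = u r * u s := by
    intro r s
    ext v
    rw [mul_apply_eq_comp, hu, hu, hu, hn, map_mul]
    rfl
  have h0 : n 0 = 1 := by
    have := hn 0 0
    rw [add_zero] at this
    exact (mul_eq_left.1 this.symm)
  have hu0 : u 0 = 1 := by
    ext v
    rw [hu, h0, map_one]
    rfl
  have hstar : ∀ r, star (u r) = u (-r) := by
    intro r
    rw [ContinuousLinearMap.star_eq_adjoint]
    symm
    rw [ContinuousLinearMap.eq_adjoint_iff]
    intro x y
    have : x = u r (u (-r) x) := by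
      rw [← mul_apply_eq_comp, ← hadd, add_neg_cancel, hu0]; rfl
    conv_rhs => rw [this]
    rw [hu r, hu r, LinearIsometryEquiv.inner_map_map]
  have hcomm : ∀ r s, u r * u s = u s * u r := fun r s => by
    rw [← hadd, ← hadd, add_comm]
  obtain ⟨Ω, _, _, _, π, e, hπ, he, hτ⟩ :=
    SpecAux.exists_model u hcomm (fun r s => by rw [hstar]; exact hcomm _ _)
  borelize Ω
  obtain ⟨ν, hreg, hfin, hν⟩ := SpecAux.exists_measure π ξ
  have he_add : ∀ r s, e (r + s) = e r * e s := fun r s =>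
    hπ (by rw [map_mul, he, he, he, hadd])
  have he_norm : ∀ r ω, ‖e r ω‖ = 1 := by
    intro r ω
    have h1 : star (e r) * e r = 1 :=
      hπ (by rw [map_mul, map_star, he, hstar, ← hadd, neg_add_cancel, hu0, map_one])
    have h2 : conj (e r ω) * e r ω = 1 := congrArg (fun F : C(Ω, ℂ) => F ω) h1
    have h3 := congrArg norm h2
    rw [norm_mul, Complex.norm_conj, norm_one] at h3
    nlinarith [norm_nonneg (e r ω)]
  let ψ : Ω → (A → ℂ) := fun ω r => e r ω
  have hψ : Measurable ψ := measurable_pi_lambda _ fun r => (e r).continuous.measurable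
  have hchar : ∀ ω, IsChar (ψ ω) := fun ω =>
    ⟨fun r s => congrArg (fun F : C(Ω, ℂ) => F ω) (he_add r s), fun r => he_norm r ω⟩
  have hsq : ∀ F : C(Ω, ℂ), ∫ ω, ‖F ω‖ ^ 2 ∂ν = ‖π F ξ‖ ^ 2 := by
    intro F
    let f : C(Ω, ℝ) := ⟨fun ω => ‖F ω‖ ^ 2, by fun_prop⟩
    have h1 : SpecAux.cx f = star F * F := by
      ext ω
      simp [f, Complex.conj_mul']
    have := hν f
    rw [h1, SpecAux.re_inner_star_mul] at this
    exact this
  have hprob : IsProbabilityMeasure ν := by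
    have := hsq 1
    simp only [ContinuousMap.one_apply, norm_one, one_pow, integral_const, smul_eq_mul, mul_one,
      map_one, one_apply_eq_self, hξ] at this
    exact isProbabilityMeasure_iff_real.2 this
  have hkey : ∀ r, ∫ ω, ‖e r ω - 1‖ ^ 2 ∂ν = ‖ρ (n r) ξ - ξ‖ ^ 2 := by
    intro r
    have := hsq (e r - 1)
    rw [map_sub, he, map_one] at this
    exact this
  have hint : ∀ r, Integrable (fun ω => ‖e r ω - 1‖ ^ 2) ν := fun r =>
    SpecAux.cont_integrable ν ⟨fun ω => ‖e r ω - 1‖ ^ 2, by fun_prop⟩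
  refine ⟨ν.map ψ, Measure.isProbabilityMeasure_map hψ.aemeasurable, ?_, ?_, ?_⟩
  · intro r
    have hm : MeasurableSet {χ : A → ℂ | 1 ≤ ‖χ r - 1‖} :=
      measurableSet_le measurable_const (by fun_prop)
    rw [map_measureReal_apply hψ hm, ← hkey, ← integral_indicator_one (hψ hm)]
    refine integral_mono ((integrable_const _).indicator (hψ hm)) (hint r) fun ω => ?_
    by_cases hx : ω ∈ ψ ⁻¹' {χ : A → ℂ | 1 ≤ ‖χ r - 1‖}
    · rw [Set.indicator_of_mem hx]
      have h1 : 1 ≤ ‖e r ω - 1‖ := hx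
      exact one_le_pow₀ h1
    · rw [Set.indicator_of_notMem hx]
      positivity
  · intro r
    have hm : MeasurableSet {χ : A → ℂ | χ r ≠ 1} :=
      (measurableSet_eq_fun (measurable_pi_apply r) measurable_const).compl
    rw [map_measureReal_apply hψ hm, ← hkey, ← integral_indicator_one (hψ hm),
      ← integral_const_mul]
    refine integral_mono (hint r) (((integrable_const _).indicator (hψ hm)).const_mul _)
      fun ω => ?_
    by_cases hx : ω ∈ ψ ⁻¹' {χ : A → ℂ | χ r ≠ 1}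
    · beta_reduce
      rw [Set.indicator_of_mem hx]
      have h1 : ‖e r ω - 1‖ ≤ 2 := by
        have := norm_sub_le (e r ω) 1
        rw [he_norm, norm_one] at this
        linarith
      have := norm_nonneg (e r ω - 1)
      simp only [Pi.one_apply]
      nlinarith
    · beta_reduce
      rw [Set.indicator_of_notMem hx]
      have h1 : e r ω = 1 := by simpa [ψ] using hx
      simp [h1]
  · intro g φ hg B B' hB hB' hBB
    let α : (V →L[ℂ] V) →⋆ₐ[ℂ] (V →L[ℂ] V) := (ρ g).conjStarAlgEquiv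
    have hα : ∀ T v, α T v = ρ g (T ((ρ g).symm v)) := fun _ _ => rfl
    have hαu : ∀ r, α (u r) = u (φ r) := by
      intro r
      ext v
      rw [hα, hu, hu, ← hg, map_mul, map_mul, map_inv]
      rfl
    obtain ⟨τ, hτ⟩ := hτ α fun r => ⟨φ r, (hαu r).symm⟩
    have heτ : ∀ r, (e r).comp τ = e (φ r) := fun r => hπ (by rw [hτ, he, he, hαu])
    rw [map_measureReal_apply hψ hB, map_measureReal_apply hψ hB']
    refine SpecAux.meas_transfer ν τ _ (fun f hf => ?_) _ _ (hψ hB') fun ω hω => ?_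
    · have h1 := hν (f.comp τ)
      have h2 : SpecAux.cx (f.comp τ) = (SpecAux.cx f).comp τ := rfl
      rw [h2, hτ, hα] at h1
      have h3 : ‖π (SpecAux.cx f)‖ ≤ 1 := by
        refine (NonUnitalStarAlgHom.norm_apply_le π _).trans ?_
        refine (ContinuousMap.norm_le _ zero_le_one).2 fun x => ?_
        rw [SpecAux.cx_apply, Complex.norm_real, Real.norm_of_nonneg (hf x).1]
        exact (hf x).2
      have h4 := SpecAux.inner_diff_le _ h3 ξ ((ρ g).symm ξ) hξ
        (by rw [LinearIsometryEquiv.norm_map, hξ])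
      have h5 : ‖(ρ g).symm ξ - ξ‖ = ‖ρ g ξ - ξ‖ := by
        rw [← (ρ g).norm_map, map_sub, LinearIsometryEquiv.apply_symm_apply, norm_sub_rev]
      have h6 : ∀ w, ⟪ξ, ρ g w⟫_ℂ = ⟪(ρ g).symm ξ, w⟫_ℂ := fun w => by
        rw [← (ρ g).inner_map_map ((ρ g).symm ξ) w, LinearIsometryEquiv.apply_symm_apply]
      rw [h6] at h1
      rw [h5, ← h1, ← hν f] at h4
      exact h4
    · have h1 : ψ (τ ω) = ψ ω ∘ φ := by
        funext r
        exact congrArg (fun F : C(Ω, ℂ) => F ω) (heτ r)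
      change ψ (τ ω) ∈ B
      rw [h1]
      exact hBB _ (hchar ω) hω

end Pool.Agent.NS
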