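import Pool.Agent.P.MP_3b226c_al.Hilb
import Pool.Agent.P.MP_3b226c_al.Spec

set_option autoImplicit false

namespace Pool.Agent.NS

open Finset Equiv
open scoped symmDiff InnerProductSpace ComplexConjugate

namespace RelTAux

open MeasureTheory

/-- transfer property of a measure on functions along `φ`, with error `δ` -/
def Tr {A : Type} [AddCommGroup A] (μ : Measure (A → ℂ)) (φ : A → A) (δ : ℝ) : Prop :=
  ∀ B B' : Set (A → ℂ), MeasurableSet B → MeasurableSet B' →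
    (∀ χ, IsChar χ → χ ∈ B' → χ ∘ φ ∈ B) → μ.real B' ≤ μ.real B + δ

theorem char_ne_zero {A : Type} [AddCommGroup A] {χ : A → ℂ} (h : IsChar χ) (r : A) :
    χ r ≠ 0 := by
  intro h0
  have := h.2 r
  rw [h0] at this
  simp at this

theorem char_zero {A : Type} [AddCommGroup A] {χ : A → ℂ} (h : IsChar χ) : χ 0 = 1 := by
  have h1 := h.1 0 0
  rw [add_zero] at h1
  have h2 := char_ne_zero h 0
  exact (mul_eq_left₀ h2).1 h1.symm

theorem char_neg {A : Type} [AddCommGroup A] {χ : A → ℂ} (h : IsChar χ) (r : A) :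
    χ (-r) = (χ r)⁻¹ := by
  have h1 := h.1 (-r) r
  rw [neg_add_cancel, char_zero h] at h1
  exact eq_inv_of_mul_eq_one_left h1.symm

theorem char_zsmul {A : Type} [AddCommGroup A] {χ : A → ℂ} (h : IsChar χ) {r : A}
    (hr : χ r = 1) (m : ℤ) : χ (m • r) = 1 := by
  induction m using Int.induction_on with
  | zero => simpa using char_zero h
  | succ m ih => rw [add_smul, one_smul, h.1, ih, hr, one_mul]
  | pred m ih =>
    rw [sub_smul, one_smul, sub_eq_add_neg, h.1, ih, char_neg h, hr, inv_one, one_mul]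

theorem abs_arg_lt {z : ℂ} (h2 : ‖z - 1‖ < 1) : |z.arg| < Real.pi / 2 := by
  rw [Complex.abs_arg_lt_pi_div_two_iff]
  left
  have h3 : |(z - 1).re| ≤ ‖z - 1‖ := Complex.abs_re_le_norm _
  have h4 : (z - 1).re = z.re - 1 := by simp
  rw [h4] at h3
  have := (abs_le.1 h3).1
  linarith

theorem arg_mul' {z w : ℂ} (hz : z ≠ 0) (hw : w ≠ 0) (h1 : |z.arg| < Real.pi / 2)
    (h2 : |w.arg| < Real.pi / 2) : (z * w).arg = z.arg + w.arg := by
  rw [Complex.arg_mul_eq_add_arg_iff hz hw]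
  have := abs_lt.1 h1
  have := abs_lt.1 h2
  constructor <;> linarith

theorem arg_inv' {z : ℂ} (h1 : |z.arg| < Real.pi / 2) : (z⁻¹).arg = -z.arg := by
  rw [Complex.arg_inv, if_neg]
  intro h
  rw [h, abs_of_pos Real.pi_pos] at h1
  linarith [Real.pi_pos]

theorem eq_one_of_arg {z : ℂ} (h1 : ‖z‖ = 1) (h2 : z.arg = 0) : z = 1 := by
  have := Complex.norm_mul_exp_arg_mul_I z
  rw [h1, h2] at this
  simpa using this.symm

theorem paradox {Ω : Type} [MeasurableSpace Ω] (μ : Measure Ω) [IsFiniteMeasure μ]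
    {Q A B X : Set Ω} (hB : MeasurableSet B) (hd : Disjoint A B) (hAQ : A ⊆ Q) (hBQ : B ⊆ Q)
    {δ : ℝ} (h1 : μ.real (Q ∩ X) ≤ μ.real A + δ) (h2 : μ.real (Q ∩ X) ≤ μ.real B + δ) :
    μ.real (Q ∩ X) ≤ μ.real Xᶜ + 2 * δ := by
  have h3 : μ.real (A ∪ B) = μ.real A + μ.real B := measureReal_union hd hB
  have h4 : μ.real (A ∪ B) ≤ μ.real ((Q ∩ X) ∪ Xᶜ) := by
    refine measureReal_mono ?_
    intro x hx
    have hq : x ∈ Q := hx.elim (fun h => hAQ h) (fun h => hBQ h)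
    by_cases hX : x ∈ X
    · exact Or.inl ⟨hq, hX⟩
    · exact Or.inr hX
  have h5 := measureReal_union_le (μ := μ) (Q ∩ X) Xᶜ
  linarith

section Real

variable {R : Type} [CommRing R]

/-- first angle -/
noncomputable def th1 (χ : R × R → ℂ) : ℝ := (χ (1, 0)).arg

/-- second angle -/
noncomputable def th2 (χ : R × R → ℂ) : ℝ := (χ (0, 1)).arg

theorem meas_th1 : Measurable (th1 : (R × R → ℂ) → ℝ) :=
  Complex.measurable_arg.comp (measurable_pi_apply _)

theorem meas_th2 : Measurable (th2 : (R × R → ℂ) → ℝ) :=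
  Complex.measurable_arg.comp (measurable_pi_apply _)

omit [CommRing R] in
theorem meas_ne (r : R × R) : MeasurableSet {χ : R × R → ℂ | χ r ≠ 1} :=
  (measurableSet_eq_fun (measurable_pi_apply r) measurable_const).compl

omit [CommRing R] in
theorem meas_eq (r : R × R) : MeasurableSet {χ : R × R → ℂ | χ r = 1} :=
  measurableSet_eq_fun (measurable_pi_apply r) measurable_const

/-- the box -/
def box (R : Type) [CommRing R] : Set (R × R → ℂ) :=
  {χ | ‖χ (1, 0) - 1‖ < 1} ∩ {χ | ‖χ (0, 1) - 1‖ < 1}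

theorem meas_box : MeasurableSet (box R) := by
  refine MeasurableSet.inter ?_ ?_
  · exact measurableSet_lt ((measurable_pi_apply _).sub measurable_const).norm measurable_const
  · exact measurableSet_lt ((measurable_pi_apply _).sub measurable_const).norm measurable_const

theorem real_part (μ : Measure (R × R → ℂ)) [IsFiniteMeasure μ] (ε δ : ℝ)
    (h1 : μ.real {χ | 1 ≤ ‖χ (1, 0) - 1‖} ≤ ε) (h2 : μ.real {χ | 1 ≤ ‖χ (0, 1) - 1‖} ≤ ε)
    (hid : Tr μ id 0)
    (he : Tr μ (fun r => (r.1 + r.2, r.2)) δ) (hei : Tr μ (fun r => (r.1 - r.2, r.2)) δ)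
    (he' : Tr μ (fun r => (r.1, r.1 + r.2)) δ) (hei' : Tr μ (fun r => (r.1, r.2 - r.1)) δ) :
    μ.real ({χ | χ (1, 0) ≠ 1} ∪ {χ | χ (0, 1) ≠ 1}) ≤ 6 * ε + 4 * δ := by
  have m1 := (meas_th1 (R := R))
  have m2 := (meas_th2 (R := R))
  have hbox : μ.real (box R)ᶜ ≤ 2 * ε := by
    have : (box R)ᶜ = {χ | 1 ≤ ‖χ (1, 0) - 1‖} ∪ {χ | 1 ≤ ‖χ (0, 1) - 1‖} := by
      ext χ
      simp only [box, Set.mem_compl_iff, Set.mem_inter_iff, Set.mem_ofPred_eq, Set.mem_union,
        not_and_or, not_lt]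
    rw [this]
    have := measureReal_union_le (μ := μ) {χ : R × R → ℂ | 1 ≤ ‖χ (1, 0) - 1‖}
      {χ | 1 ≤ ‖χ (0, 1) - 1‖}
    linarith
  have hb1 : ∀ χ : R × R → ℂ, IsChar χ → χ ∈ box R → |th1 χ| < Real.pi / 2 :=
    fun χ _ hb => abs_arg_lt hb.1
  have hb2 : ∀ χ : R × R → ℂ, IsChar χ → χ ∈ box R → |th2 χ| < Real.pi / 2 :=
    fun χ _ hb => abs_arg_lt hb.2
  have hsum : ∀ χ : R × R → ℂ, IsChar χ → χ ∈ box R → (χ (1, 1)).arg = th1 χ + th2 χ := by
    intro χ hχ hb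
    have : χ (1, 1) = χ (1, 0) * χ (0, 1) := by rw [← hχ.1]; simp
    rw [this]
    exact arg_mul' (char_ne_zero hχ _) (char_ne_zero hχ _) (hb1 χ hχ hb) (hb2 χ hχ hb)
  have hd1 : ∀ χ : R × R → ℂ, IsChar χ → χ ∈ box R → (χ (-1, 1)).arg = th2 χ - th1 χ := by
    intro χ hχ hb
    have : χ (-1, 1) = χ (0, 1) * (χ (1, 0))⁻¹ := by rw [← char_neg hχ, ← hχ.1]; simp
    have hi := arg_inv' (hb1 χ hχ hb)
    rw [this, arg_mul' (char_ne_zero hχ _) (inv_ne_zero (char_ne_zero hχ _)) (hb2 χ hχ hb)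
      (by rw [hi, abs_neg]; exact hb1 χ hχ hb), hi]
    simp only [th1, th2]
    ring
  have hd2 : ∀ χ : R × R → ℂ, IsChar χ → χ ∈ box R → (χ (1, -1)).arg = th1 χ - th2 χ := by
    intro χ hχ hb
    have : χ (1, -1) = χ (1, 0) * (χ (0, 1))⁻¹ := by rw [← char_neg hχ, ← hχ.1]; simp
    have hi := arg_inv' (hb2 χ hχ hb)
    rw [this, arg_mul' (char_ne_zero hχ _) (inv_ne_zero (char_ne_zero hχ _)) (hb1 χ hχ hb)
      (by rw [hi, abs_neg]; exact hb2 χ hχ hb), hi]
    simp only [th1, th2]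
    ring
  set Q : Set (R × R → ℂ) := {χ | 0 < th1 χ * th2 χ} ∪ ({χ | th2 χ = 0} ∩ {χ | th1 χ = 0}ᶜ)
    with hQ
  set Q' : Set (R × R → ℂ) := {χ | th1 χ * th2 χ < 0} ∪ ({χ | th1 χ = 0} ∩ {χ | th2 χ = 0}ᶜ)
    with hQ'
  have mQ : MeasurableSet Q :=
    (measurableSet_lt measurable_const (m1.mul m2)).union
      ((measurableSet_eq_fun m2 measurable_const).inter
        (measurableSet_eq_fun m1 measurable_const).compl)
  have mQ' : MeasurableSet Q' :=
    (measurableSet_lt (m1.mul m2) measurable_const).union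
      ((measurableSet_eq_fun m1 measurable_const).inter
        (measurableSet_eq_fun m2 measurable_const).compl)
  have fQ : ∀ χ ∈ Q, 0 ≤ th1 χ * th2 χ ∧ 0 < th1 χ ^ 2 := by
    intro χ hχ
    rcases hχ with h | ⟨h, h'⟩
    · refine ⟨le_of_lt h, ?_⟩
      have h0 : th1 χ ≠ 0 := by
        intro h0
        simp only [Set.mem_ofPred_eq, h0, zero_mul, lt_irrefl] at h
      positivity
    · simp only [Set.mem_ofPred_eq, Set.mem_compl_iff] at h h'
      exact ⟨by rw [h, mul_zero], by positivity⟩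
  have fQ' : ∀ χ ∈ Q', th1 χ * th2 χ ≤ 0 ∧ 0 < th2 χ ^ 2 := by
    intro χ hχ
    rcases hχ with h | ⟨h, h'⟩
    · refine ⟨le_of_lt h, ?_⟩
      have h0 : th2 χ ≠ 0 := by
        intro h0
        simp only [Set.mem_ofPred_eq, h0, mul_zero, lt_irrefl] at h
      positivity
    · simp only [Set.mem_ofPred_eq, Set.mem_compl_iff] at h h'
      exact ⟨by rw [h, zero_mul], by positivity⟩
  have hq : μ.real (Q ∩ box R) ≤ μ.real (box R)ᶜ + 2 * δ := by
    set A : Set (R × R → ℂ) := {χ | th2 χ ^ 2 < th1 χ ^ 2} ∩ {χ | 0 ≤ th1 χ * th2 χ} with hA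
    set B : Set (R × R → ℂ) := {χ | th1 χ ^ 2 ≤ th2 χ ^ 2} ∩ {χ | 0 < th1 χ * th2 χ} with hB
    have mA : MeasurableSet A :=
      (measurableSet_lt (m2.pow_const 2) (m1.pow_const 2)).inter
        (measurableSet_le measurable_const (m1.mul m2))
    have mB : MeasurableSet B :=
      (measurableSet_le (m1.pow_const 2) (m2.pow_const 2)).inter
        (measurableSet_lt measurable_const (m1.mul m2))
    refine paradox μ (A := A) (B := B) mB ?_ ?_ ?_ ?_ ?_
    · rw [Set.disjoint_left]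
      intro χ ha hb
      have a1 := ha.1
      have a2 := hb.1
      simp only [Set.mem_ofPred_eq] at a1 a2
      linarith
    · intro χ hχ
      obtain ⟨ha, hb⟩ := hχ
      simp only [Set.mem_ofPred_eq] at ha hb
      rcases hb.lt_or_eq with hb | hb
      · exact Or.inl hb
      · have h0 : th1 χ ≠ 0 := by
          intro h0
          rw [h0] at ha
          nlinarith [sq_nonneg (th2 χ)]
        exact Or.inr ⟨(mul_eq_zero.1 hb.symm).resolve_left h0, h0⟩
    · intro χ hχ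
      exact Or.inl hχ.2
    · refine he' _ _ mA (mQ.inter meas_box) ?_
      intro χ hχ hm
      obtain ⟨f1, f2⟩ := fQ χ hm.1
      have e1 : th1 (χ ∘ fun r : R × R => (r.1, r.1 + r.2)) = th1 χ + th2 χ := by
        rw [← hsum χ hχ hm.2]; simp [th1]
      have e2 : th2 (χ ∘ fun r : R × R => (r.1, r.1 + r.2)) = th2 χ := by simp [th2]
      refine ⟨?_, ?_⟩
      · simp only [Set.mem_ofPred_eq, e1, e2]; nlinarith
      · simp only [Set.mem_ofPred_eq, e1, e2]; nlinarith [sq_nonneg (th2 χ)]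
    · refine he _ _ mB (mQ.inter meas_box) ?_
      intro χ hχ hm
      obtain ⟨f1, f2⟩ := fQ χ hm.1
      have e1 : th1 (χ ∘ fun r : R × R => (r.1 + r.2, r.2)) = th1 χ := by simp [th1]
      have e2 : th2 (χ ∘ fun r : R × R => (r.1 + r.2, r.2)) = th1 χ + th2 χ := by
        rw [← hsum χ hχ hm.2]; simp [th2]
      refine ⟨?_, ?_⟩
      · simp only [Set.mem_ofPred_eq, e1, e2]; nlinarith [sq_nonneg (th2 χ)]
      · simp only [Set.mem_ofPred_eq, e1, e2]; nlinarith
  have hq' : μ.real (Q' ∩ box R) ≤ μ.real (box R)ᶜ + 2 * δ := by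
    set A : Set (R × R → ℂ) := {χ | th1 χ ^ 2 < th2 χ ^ 2} ∩ {χ | th1 χ * th2 χ ≤ 0} with hA
    set B : Set (R × R → ℂ) := {χ | th2 χ ^ 2 ≤ th1 χ ^ 2} ∩ {χ | th1 χ * th2 χ < 0} with hB
    have mA : MeasurableSet A :=
      (measurableSet_lt (m1.pow_const 2) (m2.pow_const 2)).inter
        (measurableSet_le (m1.mul m2) measurable_const)
    have mB : MeasurableSet B :=
      (measurableSet_le (m2.pow_const 2) (m1.pow_const 2)).inter
        (measurableSet_lt (m1.mul m2) measurable_const)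
    refine paradox μ (A := A) (B := B) mB ?_ ?_ ?_ ?_ ?_
    · rw [Set.disjoint_left]
      intro χ ha hb
      have a1 := ha.1
      have a2 := hb.1
      simp only [Set.mem_ofPred_eq] at a1 a2
      linarith
    · intro χ hχ
      obtain ⟨ha, hb⟩ := hχ
      simp only [Set.mem_ofPred_eq] at ha hb
      rcases hb.lt_or_eq with hb | hb
      · exact Or.inl hb
      · have h0 : th2 χ ≠ 0 := by
          intro h0
          rw [h0] at ha
          nlinarith [sq_nonneg (th1 χ)]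
        exact Or.inr ⟨(mul_eq_zero.1 hb).resolve_right h0, h0⟩
    · intro χ hχ
      exact Or.inl hχ.2
    · refine hei _ _ mA (mQ'.inter meas_box) ?_
      intro χ hχ hm
      obtain ⟨f1, f2⟩ := fQ' χ hm.1
      have e1 : th1 (χ ∘ fun r : R × R => (r.1 - r.2, r.2)) = th1 χ := by simp [th1]
      have e2 : th2 (χ ∘ fun r : R × R => (r.1 - r.2, r.2)) = th2 χ - th1 χ := by
        rw [← hd1 χ hχ hm.2]; simp [th2]
      refine ⟨?_, ?_⟩
      · simp only [Set.mem_ofPred_eq, e1, e2]; nlinarith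
      · simp only [Set.mem_ofPred_eq, e1, e2]; nlinarith [sq_nonneg (th1 χ)]
    · refine hei' _ _ mB (mQ'.inter meas_box) ?_
      intro χ hχ hm
      obtain ⟨f1, f2⟩ := fQ' χ hm.1
      have e1 : th1 (χ ∘ fun r : R × R => (r.1, r.2 - r.1)) = th1 χ - th2 χ := by
        rw [← hd2 χ hχ hm.2]; simp [th1]
      have e2 : th2 (χ ∘ fun r : R × R => (r.1, r.2 - r.1)) = th2 χ := by simp [th2]
      refine ⟨?_, ?_⟩
      · simp only [Set.mem_ofPred_eq, e1, e2]; nlinarith [sq_nonneg (th1 χ)]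
      · simp only [Set.mem_ofPred_eq, e1, e2]; nlinarith
  have hcov := hid (((Q ∩ box R) ∪ (Q' ∩ box R)) ∪ (box R)ᶜ)
    ({χ | χ (1, 0) ≠ 1} ∪ {χ | χ (0, 1) ≠ 1})
    (((mQ.inter meas_box).union (mQ'.inter meas_box)).union meas_box.compl)
    ((meas_ne _).union (meas_ne _)) (by
      intro χ hχ hm
      rw [Function.comp_id]
      by_cases hb : χ ∈ box R
      · left
        rcases lt_trichotomy (th1 χ * th2 χ) 0 with h | h | h
        · exact Or.inr ⟨Or.inl h, hb⟩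
        · by_cases a1 : th1 χ = 0
          · by_cases a2 : th2 χ = 0
            · exfalso
              rcases hm with hm | hm
              · exact hm (eq_one_of_arg (hχ.2 _) a1)
              · exact hm (eq_one_of_arg (hχ.2 _) a2)
            · exact Or.inr ⟨Or.inr ⟨a1, a2⟩, hb⟩
          · exact Or.inl ⟨Or.inr ⟨(mul_eq_zero.1 h).resolve_left a1, a1⟩, hb⟩
        · exact Or.inl ⟨Or.inl h, hb⟩
      · exact Or.inr hb)
  have u1 := measureReal_union_le (μ := μ) ((Q ∩ box R) ∪ (Q' ∩ box R)) (box R)ᶜ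
  have u2 := measureReal_union_le (μ := μ) (Q ∩ box R) (Q' ∩ box R)
  linarith

end Real

section Adic

variable {R : Type} [CommRing R]

/-- trivial at `(t ^ k, 0)` -/
def P1 (t : R) (k : ℕ) : Set (R × R → ℂ) := {χ | χ (t ^ k, 0) = 1}

/-- trivial at `(0, t ^ k)` -/
def P2 (t : R) (k : ℕ) : Set (R × R → ℂ) := {χ | χ (0, t ^ k) = 1}

theorem meas_P1 (t : R) (k : ℕ) : MeasurableSet (P1 t k) := meas_eq _

theorem meas_P2 (t : R) (k : ℕ) : MeasurableSet (P2 t k) := meas_eq _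

theorem pow_split {t : R} (ht : 2 * t = 1) (k : ℕ) : t ^ k = t ^ (k + 1) + t ^ (k + 1) := by
  rw [← two_mul, pow_succ', ← mul_assoc, ht, one_mul]

theorem P1_mono {t : R} (ht : 2 * t = 1) {χ : R × R → ℂ} (hχ : IsChar χ) {k m : ℕ} (hkm : k ≤ m)
    (h : χ ∈ P1 t m) : χ ∈ P1 t k := by
  induction hkm with
  | refl => exact h
  | @step m _ ih =>
    apply ih
    have : ((t ^ m, 0) : R × R) = (t ^ (m + 1), 0) + (t ^ (m + 1), 0) := by
      rw [Prod.mk_add_mk, ← pow_split ht, add_zero]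
    have h' : χ (t ^ (m + 1), 0) = 1 := h
    show χ (t ^ m, 0) = 1
    rw [this, hχ.1, h', one_mul]

theorem P2_mono {t : R} (ht : 2 * t = 1) {χ : R × R → ℂ} (hχ : IsChar χ) {k m : ℕ} (hkm : k ≤ m)
    (h : χ ∈ P2 t m) : χ ∈ P2 t k := by
  induction hkm with
  | refl => exact h
  | @step m _ ih =>
    apply ih
    have : ((0, t ^ m) : R × R) = (0, t ^ (m + 1)) + (0, t ^ (m + 1)) := by
      rw [Prod.mk_add_mk, ← pow_split ht, add_zero]
    have h' : χ (0, t ^ (m + 1)) = 1 := h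
    show χ (0, t ^ m) = 1
    rw [this, hχ.1, h', one_mul]

/-- first level exceeds the (finite) second level by exactly `j` -/
def EqJ (t : R) (j : ℕ) : Set (R × R → ℂ) :=
  ⋃ k : ℕ, (P1 t (k + j) ∩ (P1 t (k + j + 1))ᶜ) ∩ (P2 t k ∩ (P2 t (k + 1))ᶜ)

/-- first level exceeds the (finite) second level -/
def GtS (t : R) : Set (R × R → ℂ) := ⋃ k : ℕ, P1 t (k + 1) ∩ (P2 t k ∩ (P2 t (k + 1))ᶜ)

/-- second level exceeds the (finite) first level -/
def LtS (t : R) : Set (R × R → ℂ) := ⋃ k : ℕ, P2 t (k + 1) ∩ (P1 t k ∩ (P1 t (k + 1))ᶜ)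

theorem meas_EqJ (t : R) (j : ℕ) : MeasurableSet (EqJ t j) :=
  MeasurableSet.iUnion fun _ =>
    ((meas_P1 t _).inter (meas_P1 t _).compl).inter ((meas_P2 t _).inter (meas_P2 t _).compl)

theorem meas_GtS (t : R) : MeasurableSet (GtS t) :=
  MeasurableSet.iUnion fun _ => (meas_P1 t _).inter ((meas_P2 t _).inter (meas_P2 t _).compl)

theorem meas_LtS (t : R) : MeasurableSet (LtS t) :=
  MeasurableSet.iUnion fun _ => (meas_P2 t _).inter ((meas_P1 t _).inter (meas_P1 t _).compl)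

theorem adic_part (t : R) (ht : 2 * t = 1) (hR : ∀ r : R, ∃ (k : ℕ) (m : ℤ), r = m * t ^ k)
    (μ : Measure (R × R → ℂ)) [IsFiniteMeasure μ] (κ δ : ℝ)
    (hκ : μ.real ({χ | χ (1, 0) ≠ 1} ∪ {χ | χ (0, 1) ≠ 1}) ≤ κ)
    (hid : Tr μ id 0)
    (he : Tr μ (fun r => (r.1 + r.2, r.2)) δ) (he' : Tr μ (fun r => (r.1, r.1 + r.2)) δ)
    (ha : Tr μ (fun r => (2 * r.1, t * r.2)) δ) (r : R × R) :
    μ.real {χ | χ r ≠ 1} ≤ 10 * κ + 14 * δ := by
  set K : Set (R × R → ℂ) := {χ | χ (1, 0) ≠ 1} ∪ {χ | χ (0, 1) ≠ 1} with hK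
  have mK : MeasurableSet K := (meas_ne _).union (meas_ne _)
  have hdiag : ∀ χ : R × R → ℂ, IsChar χ → ∀ x : R, χ (x, x) = χ (x, 0) * χ (0, x) := by
    intro χ hχ x
    rw [← hχ.1]; simp
  have hLt : μ.real (LtS t) ≤ μ.real (EqJ t 0) + δ := by
    refine he _ _ (meas_EqJ t 0) (meas_LtS t) ?_
    intro χ hχ hm
    obtain ⟨k, a1, a2, a3⟩ := Set.mem_iUnion.1 hm
    have a0 := P2_mono ht hχ (Nat.le_succ k) a1
    refine Set.mem_iUnion.2 ⟨k, ⟨?_, ?_⟩, ?_, ?_⟩
    · simpa [P1] using a2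
    · simpa [P1] using a3
    · simp only [P1, P2, Set.mem_ofPred_eq, Function.comp, zero_add] at a0 a2 ⊢
      rw [hdiag χ hχ, a0, a2, one_mul]
    · simp only [P1, P2, Set.mem_ofPred_eq, Set.mem_compl_iff, Function.comp, zero_add] at a1 a3 ⊢
      rwa [hdiag χ hχ, a1, mul_one]
  have hGt : μ.real (GtS t) ≤ μ.real (EqJ t 0) + δ := by
    refine he' _ _ (meas_EqJ t 0) (meas_GtS t) ?_
    intro χ hχ hm
    obtain ⟨k, a1, a2, a3⟩ := Set.mem_iUnion.1 hm
    have a0 := P1_mono ht hχ (Nat.le_succ k) a1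
    refine Set.mem_iUnion.2 ⟨k, ⟨?_, ?_⟩, ?_, ?_⟩
    · simp only [P1, P2, Set.mem_ofPred_eq, Function.comp, add_zero] at a0 a2 ⊢
      rw [hdiag χ hχ, a0, a2, one_mul]
    · simp only [P1, P2, Set.mem_ofPred_eq, Set.mem_compl_iff, Function.comp, add_zero] at a1 a3 ⊢
      rwa [hdiag χ hχ, a1, one_mul]
    · simpa [P2] using a2
    · simpa [P2] using a3
  have hstep : ∀ j, μ.real (EqJ t j) ≤ μ.real (EqJ t (j + 2)) + κ + δ := by
    intro j
    have h1 := ha (EqJ t (j + 2) ∪ K) (EqJ t j) ((meas_EqJ t _).union mK) (meas_EqJ t j) (by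
      intro χ hχ hm
      obtain ⟨k, ⟨a1, a2⟩, a3, a4⟩ := Set.mem_iUnion.1 hm
      have q1 : ∀ m : ℕ, (χ ∘ fun r : R × R => (2 * r.1, t * r.2)) ∈ P1 t (m + 1) ↔
          χ ∈ P1 t m := by
        intro m
        have : 2 * t ^ (m + 1) = t ^ m := by rw [two_mul, ← pow_split ht]
        simp only [P1, Set.mem_ofPred_eq, Function.comp, mul_zero, this]
      have q2 : ∀ m : ℕ, (χ ∘ fun r : R × R => (2 * r.1, t * r.2)) ∈ P2 t m ↔
          χ ∈ P2 t (m + 1) := by
        intro m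
        simp only [P2, Set.mem_ofPred_eq, Function.comp, mul_zero, pow_succ']
      cases k with
      | zero =>
        right; right
        have := (q2 0).not.2 a4
        simpa [P2] using this
      | succ k =>
        left
        refine Set.mem_iUnion.2 ⟨k, ⟨?_, ?_⟩, (q2 k).2 a3, (q2 (k + 1)).not.2 a4⟩
        · rw [show k + (j + 2) = (k + 1 + j) + 1 by ring]
          exact (q1 _).2 a1
        · rw [show k + (j + 2) + 1 = (k + 1 + j + 1) + 1 by ring]
          exact (q1 _).not.2 a2)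
    have h2 := measureReal_union_le (μ := μ) (EqJ t (j + 2)) K
    linarith
  have hdis : μ.real (EqJ t 2) + μ.real (EqJ t 4) ≤ μ.real (GtS t) := by
    have h1 := hid (EqJ t 2 \ EqJ t 4) (EqJ t 2) ((meas_EqJ t 2).diff (meas_EqJ t 4))
      (meas_EqJ t 2) (by
        intro χ hχ hm
        rw [Function.comp_id]
        refine ⟨hm, fun hm' => ?_⟩
        obtain ⟨k, ⟨_, a2⟩, a3, _⟩ := Set.mem_iUnion.1 hm
        obtain ⟨k', ⟨b1, _⟩, _, b4⟩ := Set.mem_iUnion.1 hm'
        by_cases hk : k ≤ k' + 1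
        · exact a2 (P1_mono ht hχ (by omega) b1)
        · exact b4 (P2_mono ht hχ (by omega) a3))
    have h2 := hid (GtS t) (EqJ t 2 \ EqJ t 4 ∪ EqJ t 4) (meas_GtS t)
      (((meas_EqJ t 2).diff (meas_EqJ t 4)).union (meas_EqJ t 4)) (by
        intro χ hχ hm
        rw [Function.comp_id]
        rcases hm with hm | hm
        · obtain ⟨k, ⟨a1, _⟩, a3, a4⟩ := Set.mem_iUnion.1 hm.1
          exact Set.mem_iUnion.2 ⟨k, P1_mono ht hχ (by omega) a1, a3, a4⟩
        · obtain ⟨k, ⟨a1, _⟩, a3, a4⟩ := Set.mem_iUnion.1 hm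
          exact Set.mem_iUnion.2 ⟨k, P1_mono ht hχ (by omega) a1, a3, a4⟩)
    have h3 : μ.real (EqJ t 2 \ EqJ t 4 ∪ EqJ t 4) =
        μ.real (EqJ t 2 \ EqJ t 4) + μ.real (EqJ t 4) :=
      measureReal_union Set.disjoint_sdiff_left (meas_EqJ t 4)
    linarith
  have s0 := hstep 0
  have s2 := hstep 2
  have hcov := hid (((K ∪ LtS t) ∪ EqJ t 0) ∪ GtS t) {χ | χ r ≠ 1}
    (((mK.union (meas_LtS t)).union (meas_EqJ t 0)).union (meas_GtS t)) (meas_ne r) (by
      intro χ hχ hm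
      rw [Function.comp_id]
      have hex : ∃ k, ¬ (χ ∈ P1 t k ∧ χ ∈ P2 t k) := by
        by_contra hcon
        push Not at hcon
        apply hm
        obtain ⟨k1, m1, e1⟩ := hR r.1
        obtain ⟨k2, m2, e2⟩ := hR r.2
        have : r = m1 • ((t ^ k1, 0) : R × R) + m2 • ((0, t ^ k2) : R × R) := by
          ext
          · simp [e1]
          · simp [e2]
        rw [this, hχ.1, char_zsmul hχ (hcon k1).1, char_zsmul hχ (hcon k2).2, one_mul]
      classical
      have hspec := Nat.find_spec hex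
      have hmin := fun m => Nat.find_min hex (m := m)
      generalize Nat.find hex = k at hspec hmin
      cases k with
      | zero =>
        left; left; left
        rw [not_and_or] at hspec
        rcases hspec with h | h
        · left; simpa [P1] using h
        · right; simpa [P2] using h
      | succ k =>
        obtain ⟨b1, b2⟩ := not_not.1 (hmin k (Nat.lt_succ_self k))
        by_cases c1 : χ ∈ P1 t (k + 1)
        · right
          exact Set.mem_iUnion.2 ⟨k, c1, b2, fun c2 => hspec ⟨c1, c2⟩⟩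
        · by_cases c2 : χ ∈ P2 t (k + 1)
          · left; left; right
            exact Set.mem_iUnion.2 ⟨k, c2, b1, c1⟩
          · left; right
            exact Set.mem_iUnion.2 ⟨k, ⟨b1, c1⟩, b2, c2⟩)
  have u1 := measureReal_union_le (μ := μ) ((K ∪ LtS t) ∪ EqJ t 0) (GtS t)
  have u2 := measureReal_union_le (μ := μ) (K ∪ LtS t) (EqJ t 0)
  have u3 := measureReal_union_le (μ := μ) K (LtS t)
  norm_num at s0 s2
  linarith

end Adic

end RelTAux

open RelTAux in
theorem relT {G R : Type} [Group G] [CommRing R] (t : R) (ht : 2 * t = 1)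
    (hR : ∀ r : R, ∃ (k : ℕ) (m : ℤ), r = m * t ^ k)
    (n : R × R → G) (hn : ∀ r r', n (r + r') = n r * n r') (e e' a : G)
    (he : ∀ r, e * n r * e⁻¹ = n (r.1 + r.2, r.2))
    (he' : ∀ r, e' * n r * e'⁻¹ = n (r.1, r.1 + r.2))
    (ha : ∀ r, a * n r * a⁻¹ = n (2 * r.1, t * r.2)) :
    Kaz (Set.range n) {n (1, 0), n (0, 1), e, e', a} 100000 := by
  have hn0 : n 0 = 1 := by
    have := hn 0 0
    rw [add_zero] at this
    exact mul_eq_left.1 this.symm
  have hneg : ∀ r, n (-r) = (n r)⁻¹ := by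
    intro r
    have := hn (-r) r
    rw [neg_add_cancel, hn0] at this
    exact eq_inv_of_mul_eq_one_left this.symm
  have hei : ∀ r, e⁻¹ * n r * e⁻¹⁻¹ = n (r.1 - r.2, r.2) := by
    intro r
    have := he (r.1 - r.2, r.2)
    simp only [sub_add_cancel] at this
    rw [show n r = n (r.1, r.2) from rfl, ← this]
    group
  have hei' : ∀ r, e'⁻¹ * n r * e'⁻¹⁻¹ = n (r.1, r.2 - r.1) := by
    intro r
    have := he' (r.1, r.2 - r.1)
    simp only [add_sub_cancel] at this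
    rw [show n r = n (r.1, r.2) from rfl, ← this]
    group
  have hai : ∀ r, a⁻¹ * n r * a⁻¹⁻¹ = n (t * r.1, 2 * r.2) := by
    intro r
    have := ha (t * r.1, 2 * r.2)
    simp only [← mul_assoc, ht, mul_comm t 2, one_mul] at this
    rw [show n r = n (r.1, r.2) from rfl, ← this]
    group
  have hnn : ∀ s r, n s * n r * (n s)⁻¹ = n r := by
    intro s r
    rw [← hneg, ← hn, ← hn]
    congr 1
    abel
  have hnn' : ∀ s r, (n s)⁻¹ * n r * n s = n r := by
    intro s r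
    rw [← hneg, ← hn, ← hn]
    congr 1
    abel
  let N : Subgroup G :=
    { carrier := Set.range n
      mul_mem' := by
        rintro _ _ ⟨r, rfl⟩ ⟨s, rfl⟩
        exact ⟨r + s, hn r s⟩
      one_mem' := ⟨0, hn0⟩
      inv_mem' := by
        rintro _ ⟨r, rfl⟩
        exact ⟨-r, hneg r⟩ }
  have key := boost N {n (1, 0), n (0, 1), e, e', a} (1 / 50000) (by norm_num) (by
    rintro g hg _ ⟨r, rfl⟩
    simp only [Set.mem_insert_iff, Set.mem_singleton_iff] at hg
    rcases hg with rfl | rfl | rfl | rfl | rfl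
    · exact ⟨⟨r, (hnn _ r).symm⟩, ⟨r, (hnn' _ r).symm⟩⟩
    · exact ⟨⟨r, (hnn _ r).symm⟩, ⟨r, (hnn' _ r).symm⟩⟩
    · exact ⟨⟨_, (he r).symm⟩, ⟨_, by rw [← hei r, inv_inv]⟩⟩
    · exact ⟨⟨_, (he' r).symm⟩, ⟨_, by rw [← hei' r, inv_inv]⟩⟩
    · exact ⟨⟨_, (ha r).symm⟩, ⟨_, by rw [← hai r, inv_inv]⟩⟩) (by
    intro V _ _ _ ρ ξ hξ hS
    rintro _ ⟨r, rfl⟩
    obtain ⟨μ, hμ, s1, s2, s3⟩ := spectral ρ n hn ξ hξ
    have hinv : ∀ g : G, ‖ρ g⁻¹ ξ - ξ‖ = ‖ρ g ξ - ξ‖ := by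
      intro g
      have h1 : ρ g (ρ g⁻¹ ξ) = ξ := by
        have h2 : ρ g * ρ g⁻¹ = 1 := by rw [← map_mul, mul_inv_cancel, map_one]
        exact congrArg (fun f : V ≃ₗᵢ[ℂ] V => f ξ) h2
      rw [← (ρ g).norm_map, map_sub, h1, norm_sub_rev]
    have tr : ∀ (g : G) (φ : R × R → R × R), (∀ r, g * n r * g⁻¹ = n (φ r)) →
        ‖ρ g ξ - ξ‖ ≤ 1 / 50000 → Tr μ φ (2 / 50000) := by
      intro g φ hg hle B B' mB mB' hBB
      have := s3 g φ hg B B' mB mB' hBB
      linarith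
    have hid : Tr μ id 0 := by
      intro B B' mB mB' hBB
      have := s3 1 id (by intro r; simp) B B' mB mB' hBB
      simpa using this
    have b1 := hS (n (1, 0)) (by simp)
    have b2 := hS (n (0, 1)) (by simp)
    have be := hS e (by simp)
    have be' := hS e' (by simp)
    have ba := hS a (by simp)
    have c1 : μ.real {χ | 1 ≤ ‖χ (1, 0) - 1‖} ≤ 1 / 50000 :=
      (s1 (1, 0)).trans (by nlinarith [norm_nonneg (ρ (n (1, 0)) ξ - ξ)])
    have c2 : μ.real {χ | 1 ≤ ‖χ (0, 1) - 1‖} ≤ 1 / 50000 :=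
      (s1 (0, 1)).trans (by nlinarith [norm_nonneg (ρ (n (0, 1)) ξ - ξ)])
    have hκ := real_part μ _ _ c1 c2 hid (tr e _ he be) (tr e⁻¹ _ hei (by rwa [hinv]))
      (tr e' _ he' be') (tr e'⁻¹ _ hei' (by rwa [hinv]))
    have hfin := adic_part t ht hR μ _ _ hκ hid (tr e _ he be) (tr e' _ he' be') (tr a _ ha ba) r
    have h4 := s2 r
    nlinarith [norm_nonneg (ρ (n r) ξ - ξ)])
  have hc : (2 : ℝ) / (1 / 50000) = 100000 := by norm_num
  rw [hc] at key
  exact key

end Pool.Agent.NS
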