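import Pool.Agent.P.MP_3b226c_al.Hilb
import Pool.Agent.P.MP_3b226c_al.RelT

set_option autoImplicit false

namespace Pool.Agent.NS

open Finset Equiv
open scoped symmDiff InnerProductSpace ComplexConjugate

namespace S3

variable {R : Type} [CommRing R]

theorem tv_zero (i j : Fin 3) : tv i j (0 : R) = 1 := by
  unfold tv
  split_ifs with h
  · exact Matrix.SpecialLinearGroup.transvection_coeff_zero h
  · rfl

theorem tv_add (i j : Fin 3) (r s : R) : tv i j (r + s) = tv i j r * tv i j s := by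
  unfold tv
  split_ifs with h
  · exact Matrix.SpecialLinearGroup.transvection_add h r s
  · simp

theorem tv_inv (i j : Fin 3) (r : R) : (tv i j r)⁻¹ = tv i j (-r) := by
  apply inv_eq_of_mul_eq_one_right
  rw [← tv_add, add_neg_cancel, tv_zero]

theorem tv_self (i : Fin 3) (r : R) : tv i i r = 1 := by
  simp [tv]

theorem tv_coe {i j : Fin 3} (h : i ≠ j) (r : R) :
    ((tv i j r : Matrix.SpecialLinearGroup (Fin 3) R) : Matrix (Fin 3) (Fin 3) R) =
      1 + Matrix.single i j r := by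
  unfold tv
  rw [dif_pos h]
  rfl

theorem tv01 (r : R) : ((tv (0 : Fin 3) 1 r : Matrix.SpecialLinearGroup (Fin 3) R) :
    Matrix (Fin 3) (Fin 3) R) = !![1, r, 0; 0, 1, 0; 0, 0, 1] := by
  rw [tv_coe (by decide)]
  ext i j
  fin_cases i <;> fin_cases j <;> simp

theorem tv02 (r : R) : ((tv (0 : Fin 3) 2 r : Matrix.SpecialLinearGroup (Fin 3) R) :
    Matrix (Fin 3) (Fin 3) R) = !![1, 0, r; 0, 1, 0; 0, 0, 1] := by
  rw [tv_coe (by decide)]
  ext i j
  fin_cases i <;> fin_cases j <;> simp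

theorem tv10 (r : R) : ((tv (1 : Fin 3) 0 r : Matrix.SpecialLinearGroup (Fin 3) R) :
    Matrix (Fin 3) (Fin 3) R) = !![1, 0, 0; r, 1, 0; 0, 0, 1] := by
  rw [tv_coe (by decide)]
  ext i j
  fin_cases i <;> fin_cases j <;> simp

theorem tv12 (r : R) : ((tv (1 : Fin 3) 2 r : Matrix.SpecialLinearGroup (Fin 3) R) :
    Matrix (Fin 3) (Fin 3) R) = !![1, 0, 0; 0, 1, r; 0, 0, 1] := by
  rw [tv_coe (by decide)]
  ext i j
  fin_cases i <;> fin_cases j <;> simp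

theorem tv20 (r : R) : ((tv (2 : Fin 3) 0 r : Matrix.SpecialLinearGroup (Fin 3) R) :
    Matrix (Fin 3) (Fin 3) R) = !![1, 0, 0; 0, 1, 0; r, 0, 1] := by
  rw [tv_coe (by decide)]
  ext i j
  fin_cases i <;> fin_cases j <;> simp

theorem tv21 (r : R) : ((tv (2 : Fin 3) 1 r : Matrix.SpecialLinearGroup (Fin 3) R) :
    Matrix (Fin 3) (Fin 3) R) = !![1, 0, 0; 0, 1, 0; 0, r, 1] := by
  rw [tv_coe (by decide)]
  ext i j
  fin_cases i <;> fin_cases j <;> simp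

/-- right action on row vectors -/
def act (v : Fin 3 → R) (k : Matrix.SpecialLinearGroup (Fin 3) R) : Fin 3 → R :=
  Matrix.vecMul v (k : Matrix (Fin 3) (Fin 3) R)

theorem act_mul (v : Fin 3 → R) (k k' : Matrix.SpecialLinearGroup (Fin 3) R) :
    act v (k * k') = act (act v k) k' := by
  simp [act, Matrix.vecMul_vecMul]

theorem act_one (v : Fin 3 → R) : act v 1 = v := by
  simp [act]

theorem row_mul (g k : Matrix.SpecialLinearGroup (Fin 3) R) (i : Fin 3) :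
    ((g * k : Matrix.SpecialLinearGroup (Fin 3) R) : Matrix (Fin 3) (Fin 3) R) i =
      act ((g : Matrix (Fin 3) (Fin 3) R) i) k := by
  ext j
  simp [act, Matrix.mul_apply, Matrix.vecMul, dotProduct]

theorem act01 (a b c r : R) : act ![a, b, c] (tv 0 1 r) = ![a, b + a * r, c] := by
  ext j
  fin_cases j <;> simp [act, tv01, Matrix.vecMul, dotProduct, Fin.sum_univ_three, add_comm]

theorem act10 (a b c r : R) : act ![a, b, c] (tv 1 0 r) = ![a + b * r, b, c] := by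
  ext j
  fin_cases j <;> simp [act, tv10, Matrix.vecMul, dotProduct, Fin.sum_univ_three]

theorem act21 (a b c r : R) : act ![a, b, c] (tv 2 1 r) = ![a, b + c * r, c] := by
  ext j
  fin_cases j <;> simp [act, tv21, Matrix.vecMul, dotProduct, Fin.sum_univ_three]

theorem act02 (a b c r : R) : act ![a, b, c] (tv 0 2 r) = ![a, b, c + a * r] := by
  ext j
  fin_cases j <;> simp [act, tv02, Matrix.vecMul, dotProduct, Fin.sum_univ_three, add_comm]

theorem act20 (a b c r : R) : act ![a, b, c] (tv 2 0 r) = ![a + c * r, b, c] := by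
  ext j
  fin_cases j <;> simp [act, tv20, Matrix.vecMul, dotProduct, Fin.sum_univ_three]

/-- the subgroup generated by the elementary matrices of the upper left block -/
def LL (R : Type) [CommRing R] : Subgroup (Matrix.SpecialLinearGroup (Fin 3) R) :=
  Subgroup.closure (Set.range (tv (0 : Fin 3) 1 : R → _) ∪ Set.range (tv (1 : Fin 3) 0 : R → _))

theorem mem01 (r : R) : tv (0 : Fin 3) 1 r ∈ LL R :=
  Subgroup.subset_closure (Or.inl ⟨r, rfl⟩)

theorem mem10 (r : R) : tv (1 : Fin 3) 0 r ∈ LL R :=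
  Subgroup.subset_closure (Or.inr ⟨r, rfl⟩)

theorem act_last {k : Matrix.SpecialLinearGroup (Fin 3) R} (hk : k ∈ LL R) :
    act ![0, 0, 1] k = ![0, 0, 1] := by
  induction hk using Subgroup.closure_induction with
  | mem x hx =>
    rcases hx with ⟨r, rfl⟩ | ⟨r, rfl⟩
    · rw [act01]; simp
    · rw [act10]; simp
  | one => exact act_one _
  | mul x y _ _ hx hy => rw [act_mul, hx, hy]
  | inv x _ hx =>
    conv_lhs => rw [← hx]
    rw [← act_mul, mul_inv_cancel, act_one]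

theorem euclid_int (u : R) (n : ℕ) : ∀ m₁ m₂ : ℤ, m₂.natAbs = n →
    ∃ k ∈ LL R, ∃ d : R, ∀ c, act ![m₁ * u, m₂ * u, c] k = ![d, 0, c] := by
  induction n using Nat.strong_induction_on with
  | _ n ih =>
    intro m₁ m₂ hn
    by_cases h0 : m₂ = 0
    · refine ⟨1, one_mem _, m₁ * u, fun c => ?_⟩
      rw [act_one, h0]
      simp
    · have hlt : (m₁ % m₂).natAbs < n := by
        rw [← hn]
        exact Int.natAbs_lt_natAbs_of_nonneg_of_lt (Int.emod_nonneg _ h0)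
          (Int.emod_lt_abs m₁ h0) |>.trans_eq (Int.natAbs_abs m₂)
      obtain ⟨k, hk, d, hd⟩ := ih _ hlt (-m₂) (m₁ % m₂) rfl
      refine ⟨tv 1 0 (-((m₁ / m₂ : ℤ) : R)) * (tv 0 1 1 * (tv 1 0 (-1) * (tv 0 1 1 * k))),
        mul_mem (mem10 _) (mul_mem (mem01 _) (mul_mem (mem10 _) (mul_mem (mem01 _) hk))),
        d, fun c => ?_⟩
      rw [act_mul, act_mul, act_mul, act_mul, act10, act01, act10, act01, ← hd c]
      have hm : ((m₁ % m₂ : ℤ) : R) = m₁ - m₂ * ((m₁ / m₂ : ℤ) : R) := by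
        rw [Int.emod_def]
        push_cast
        ring
      congr 1
      rw [hm]
      push_cast
      congr 1
      · ring
      · congr 1
        ring

theorem euclid (t : R) (ht : 2 * t = 1) (hR : ∀ r : R, ∃ (k : ℕ) (m : ℤ), r = m * t ^ k)
    (a b : R) : ∃ k ∈ LL R, ∃ d : R, ∀ c, act ![a, b, c] k = ![d, 0, c] := by
  obtain ⟨k₁, m₁, rfl⟩ := hR a
  obtain ⟨k₂, m₂, rfl⟩ := hR b
  have h1 : (m₁ : R) * t ^ k₁ = ((m₁ * 2 ^ k₂ : ℤ) : R) * t ^ (k₁ + k₂) := by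
    have : (2 * t) ^ k₂ = 1 := by rw [ht, one_pow]
    push_cast
    rw [mul_pow] at this
    linear_combination (-(m₁ : R) * t ^ k₁) * this
  have h2 : (m₂ : R) * t ^ k₂ = ((m₂ * 2 ^ k₁ : ℤ) : R) * t ^ (k₁ + k₂) := by
    have : (2 * t) ^ k₁ = 1 := by rw [ht, one_pow]
    push_cast
    rw [mul_pow] at this
    linear_combination (-(m₂ : R) * t ^ k₂) * this
  rw [h1, h2]
  exact euclid_int _ _ _ _ rfl

theorem euclid_snd (t : R) (ht : 2 * t = 1) (hR : ∀ r : R, ∃ (k : ℕ) (m : ℤ), r = m * t ^ k)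
    {a b : R} (hab : IsCoprime a b) : ∃ k ∈ LL R, ∀ c, act ![a, b, c] k = ![0, 1, c] := by
  obtain ⟨k, hk, d, hd⟩ := euclid t ht hR a b
  have hinv : act ![d, 0, 0] k⁻¹ = ![a, b, 0] := by
    rw [← hd 0, ← act_mul, mul_inv_cancel, act_one]
  have ha : d ∣ a := by
    have := congrFun hinv 0
    simp only [act, Matrix.vecMul, dotProduct, Fin.sum_univ_three] at this
    simp only [Matrix.cons_val_zero, Matrix.cons_val_one, Matrix.cons_val, zero_mul,
      add_zero] at this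
    exact ⟨_, this.symm⟩
  have hb : d ∣ b := by
    have := congrFun hinv 1
    simp only [act, Matrix.vecMul, dotProduct, Fin.sum_univ_three] at this
    simp only [Matrix.cons_val_zero, Matrix.cons_val_one, Matrix.cons_val, zero_mul,
      add_zero] at this
    exact ⟨_, this.symm⟩
  obtain ⟨u, hu⟩ := (hab.isUnit_of_dvd' ha hb).exists_right_inv
  refine ⟨k * (tv 0 1 u * tv 1 0 (-d)), mul_mem hk (mul_mem (mem01 _) (mem10 _)), fun c => ?_⟩
  rw [act_mul, act_mul, hd, act01, act10, hu]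
  simp

theorem euclid_fst (t : R) (ht : 2 * t = 1) (hR : ∀ r : R, ∃ (k : ℕ) (m : ℤ), r = m * t ^ k)
    {a b : R} (hab : IsCoprime a b) : ∃ k ∈ LL R, ∀ c, act ![a, b, c] k = ![1, 0, c] := by
  obtain ⟨k, hk, hd⟩ := euclid_snd t ht hR hab
  refine ⟨k * (tv 1 0 1 * tv 0 1 (-1)), mul_mem hk (mul_mem (mem10 _) (mem01 _)), fun c => ?_⟩
  rw [act_mul, act_mul, hd, act10, act01]
  simp

omit [CommRing R] in
theorem row_eta (v : Fin 3 → R) : v = ![v 0, v 1, v 2] := by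
  ext j
  fin_cases j <;> simp

theorem det3 (g : Matrix.SpecialLinearGroup (Fin 3) R) :
    g.1 0 0 * g.1 1 1 * g.1 2 2 - g.1 0 0 * g.1 1 2 * g.1 2 1 - g.1 0 1 * g.1 1 0 * g.1 2 2 +
      g.1 0 1 * g.1 1 2 * g.1 2 0 + g.1 0 2 * g.1 1 0 * g.1 2 1 -
      g.1 0 2 * g.1 1 1 * g.1 2 0 = 1 := by
  rw [← Matrix.det_fin_three]
  exact g.2

theorem upper_eq (g : Matrix.SpecialLinearGroup (Fin 3) R) (c : R)
    (h1 : (g : Matrix (Fin 3) (Fin 3) R) 1 = ![0, 1, c])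
    (h2 : (g : Matrix (Fin 3) (Fin 3) R) 2 = ![0, 0, 1]) :
    g = tv 1 2 c * (tv 0 2 (g.1 0 2) * tv 0 1 (g.1 0 1)) := by
  have hd := det3 g
  have e10 := congrFun h1 0
  have e11 := congrFun h1 1
  have e12 := congrFun h1 2
  have e20 := congrFun h2 0
  have e21 := congrFun h2 1
  have e22 := congrFun h2 2
  simp only [Matrix.cons_val_zero, Matrix.cons_val_one, Matrix.cons_val] at e10 e11 e12 e20 e21 e22
  rw [e10, e11, e12, e20, e21, e22] at hd
  have e00 : g.1 0 0 = 1 := by linear_combination hd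
  apply Subtype.ext
  rw [Matrix.SpecialLinearGroup.coe_mul, Matrix.SpecialLinearGroup.coe_mul, tv12, tv02, tv01]
  ext i j
  fin_cases i <;> fin_cases j <;>
    simp [Matrix.mul_apply, Fin.sum_univ_three, e00, e10, e11, e12, e20, e21, e22]

end S3

open S3 in
theorem decompSL3 {R : Type} [CommRing R] (t : R) (ht : 2 * t = 1)
    (hR : ∀ r : R, ∃ (k : ℕ) (m : ℤ), r = m * t ^ k)
    (l : Matrix.SpecialLinearGroup (Fin 3) R → ℝ) (hl : ∀ g h, l (g * h) ≤ l g + l h) (b : ℝ)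
    (h1 : ∀ i j r, l (tv i j r) ≤ b)
    (h2 : ∀ g ∈ Subgroup.closure (Set.range (tv (0 : Fin 3) 1 : R → _) ∪
      Set.range (tv (1 : Fin 3) 0 : R → _)), l g ≤ b) :
    ∀ g, l g ≤ 20 * b := by
  have hb : 0 ≤ b := by
    have a1 := hl 1 1
    rw [mul_one] at a1
    have a2 := h1 0 0 0
    rw [tv_self] at a2
    linarith
  have sL : ∀ g k, k ∈ LL R → l g ≤ l (g * k) + b := by
    intro g k hk
    have := hl (g * k) k⁻¹
    rw [mul_inv_cancel_right] at this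
    linarith [h2 k⁻¹ (inv_mem hk)]
  have sT : ∀ g i j r, l g ≤ l (g * tv i j r) + b := by
    intro g i j r
    have := hl (g * tv i j r) (tv i j r)⁻¹
    rw [mul_inv_cancel_right, tv_inv] at this
    linarith [h1 i j (-r)]
  intro g
  obtain ⟨k₁, hk₁, d, hd⟩ := euclid t ht hR (g.1 2 0) (g.1 2 1)
  set c := g.1 2 2 with hc
  have r1 : ((g * k₁ : Matrix.SpecialLinearGroup (Fin 3) R) : Matrix (Fin 3) (Fin 3) R) 2 =
      ![d, 0, c] := by
    rw [row_mul, row_eta (g.1 2), hd]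
  have hdc : IsCoprime d c := by
    have hdet := det3 (g * k₁)
    have e20 := congrFun r1 0
    have e21 := congrFun r1 1
    have e22 := congrFun r1 2
    simp only [Matrix.cons_val_zero, Matrix.cons_val_one, Matrix.cons_val] at e20 e21 e22
    rw [e20, e21, e22] at hdet
    exact ⟨(g * k₁).1 0 1 * (g * k₁).1 1 2 - (g * k₁).1 0 2 * (g * k₁).1 1 1,
      (g * k₁).1 0 0 * (g * k₁).1 1 1 - (g * k₁).1 0 1 * (g * k₁).1 1 0,
      by linear_combination hdet⟩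
  obtain ⟨k₂, hk₂, hd₂⟩ := euclid_fst t ht hR hdc
  set g₅ := g * k₁ * tv 2 1 1 * k₂ * tv 0 2 (1 - c) * tv 2 0 (-1) with hg₅
  have r5 : (g₅ : Matrix (Fin 3) (Fin 3) R) 2 = ![0, 0, 1] := by
    rw [hg₅, row_mul, row_mul, row_mul, row_mul, r1, act21, mul_one, zero_add, hd₂, act02, act20]
    simp
  have hcop : IsCoprime (g₅.1 1 0) (g₅.1 1 1) := by
    have hdet := det3 g₅
    have e20 := congrFun r5 0
    have e21 := congrFun r5 1
    have e22 := congrFun r5 2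
    simp only [Matrix.cons_val_zero, Matrix.cons_val_one, Matrix.cons_val] at e20 e21 e22
    rw [e20, e21, e22] at hdet
    exact ⟨-g₅.1 0 1, g₅.1 0 0, by linear_combination hdet⟩
  obtain ⟨k₃, hk₃, hd₃⟩ := euclid_snd t ht hR hcop
  have r61 : ((g₅ * k₃ : Matrix.SpecialLinearGroup (Fin 3) R) : Matrix (Fin 3) (Fin 3) R) 1 =
      ![0, 1, g₅.1 1 2] := by
    rw [row_mul, ← hd₃, ← row_eta (g₅.1 1)]
  have r62 : ((g₅ * k₃ : Matrix.SpecialLinearGroup (Fin 3) R) : Matrix (Fin 3) (Fin 3) R) 2 =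
      ![0, 0, 1] := by
    rw [row_mul, r5, act_last hk₃]
  have hu := upper_eq _ _ r61 r62
  have hu3 : l (g₅ * k₃) ≤ 3 * b := by
    rw [hu]
    have a1 := hl (tv 1 2 (g₅.1 1 2)) (tv 0 2 ((g₅ * k₃).1 0 2) * tv 0 1 ((g₅ * k₃).1 0 1))
    have a2 := hl (tv 0 2 ((g₅ * k₃).1 0 2)) (tv 0 1 ((g₅ * k₃).1 0 1))
    linarith [h1 1 2 (g₅.1 1 2), h1 0 2 ((g₅ * k₃).1 0 2), h1 0 1 ((g₅ * k₃).1 0 1)]
  have s1 := sL g k₁ hk₁
  have s2 := sT (g * k₁) 2 1 1
  have s3 := sL (g * k₁ * tv 2 1 1) k₂ hk₂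
  have s4 := sT (g * k₁ * tv 2 1 1 * k₂) 0 2 (1 - c)
  have s5 := sT (g * k₁ * tv 2 1 1 * k₂ * tv 0 2 (1 - c)) 2 0 (-1)
  have s6 := sL g₅ k₃ hk₃
  rw [← hg₅] at s5
  linarith

namespace S3

variable {R : Type} [CommRing R]

/-- the last column subgroup -/
def n1 (r : R × R) : Matrix.SpecialLinearGroup (Fin 3) R := tv 0 2 r.1 * tv 1 2 r.2

/-- the last row subgroup -/
def n2 (r : R × R) : Matrix.SpecialLinearGroup (Fin 3) R := tv 2 0 r.1 * tv 2 1 r.2

theorem n1_coe (r : R × R) : ((n1 r : Matrix.SpecialLinearGroup (Fin 3) R) :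
    Matrix (Fin 3) (Fin 3) R) = !![1, 0, r.1; 0, 1, r.2; 0, 0, 1] := by
  rw [n1, Matrix.SpecialLinearGroup.coe_mul, tv02, tv12]
  ext i j
  fin_cases i <;> fin_cases j <;> simp [Matrix.mul_apply, Fin.sum_univ_three]

theorem n2_coe (r : R × R) : ((n2 r : Matrix.SpecialLinearGroup (Fin 3) R) :
    Matrix (Fin 3) (Fin 3) R) = !![1, 0, 0; 0, 1, 0; r.1, r.2, 1] := by
  rw [n2, Matrix.SpecialLinearGroup.coe_mul, tv20, tv21]
  ext i j
  fin_cases i <;> fin_cases j <;> simp [Matrix.mul_apply, Fin.sum_univ_three]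

theorem n1_add (r r' : R × R) : n1 (r + r') = n1 r * n1 r' := by
  apply Subtype.ext
  rw [Matrix.SpecialLinearGroup.coe_mul, n1_coe, n1_coe, n1_coe]
  ext i j
  fin_cases i <;> fin_cases j <;> simp [Matrix.mul_apply, Fin.sum_univ_three, add_comm]

theorem n2_add (r r' : R × R) : n2 (r + r') = n2 r * n2 r' := by
  apply Subtype.ext
  rw [Matrix.SpecialLinearGroup.coe_mul, n2_coe, n2_coe, n2_coe]
  ext i j
  fin_cases i <;> fin_cases j <;> simp [Matrix.mul_apply, Fin.sum_univ_three, add_comm]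

theorem n1_fst (r : R) : n1 (r, 0) = tv 0 2 r := by simp [n1, tv_zero]
theorem n1_snd (r : R) : n1 (0, r) = tv 1 2 r := by simp [n1, tv_zero]
theorem n2_fst (r : R) : n2 (r, 0) = tv 2 0 r := by simp [n2, tv_zero]
theorem n2_snd (r : R) : n2 (0, r) = tv 2 1 r := by simp [n2, tv_zero]

theorem c01_1 (s : R) (r : R × R) :
    tv 0 1 s * n1 r * (tv 0 1 s)⁻¹ = n1 (r.1 + s * r.2, r.2) := by
  rw [mul_inv_eq_iff_eq_mul]
  apply Subtype.ext
  simp only [Matrix.SpecialLinearGroup.coe_mul, n1_coe, tv01]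
  ext i j
  fin_cases i <;> fin_cases j <;> simp [Matrix.mul_apply, Fin.sum_univ_three]

theorem c10_1 (s : R) (r : R × R) :
    tv 1 0 s * n1 r * (tv 1 0 s)⁻¹ = n1 (r.1, s * r.1 + r.2) := by
  rw [mul_inv_eq_iff_eq_mul]
  apply Subtype.ext
  simp only [Matrix.SpecialLinearGroup.coe_mul, n1_coe, tv10]
  ext i j
  fin_cases i <;> fin_cases j <;> simp [Matrix.mul_apply, Fin.sum_univ_three]

theorem c01_2 (s : R) (r : R × R) :
    tv 0 1 s * n2 r * (tv 0 1 s)⁻¹ = n2 (r.1, r.2 - r.1 * s) := by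
  rw [mul_inv_eq_iff_eq_mul]
  apply Subtype.ext
  simp only [Matrix.SpecialLinearGroup.coe_mul, n2_coe, tv01]
  ext i j
  fin_cases i <;> fin_cases j <;> simp [Matrix.mul_apply, Fin.sum_univ_three]

theorem c10_2 (s : R) (r : R × R) :
    tv 1 0 s * n2 r * (tv 1 0 s)⁻¹ = n2 (r.1 - r.2 * s, r.2) := by
  rw [mul_inv_eq_iff_eq_mul]
  apply Subtype.ext
  simp only [Matrix.SpecialLinearGroup.coe_mul, n2_coe, tv10]
  ext i j
  fin_cases i <;> fin_cases j <;> simp [Matrix.mul_apply, Fin.sum_univ_three]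

theorem ca_1 (t : R) (a : Matrix.SpecialLinearGroup (Fin 3) R)
    (ha : (a : Matrix (Fin 3) (Fin 3) R) = Matrix.diagonal ![2, t, 1]) (r : R × R) :
    a * n1 r * a⁻¹ = n1 (2 * r.1, t * r.2) := by
  rw [mul_inv_eq_iff_eq_mul]
  apply Subtype.ext
  simp only [Matrix.SpecialLinearGroup.coe_mul, n1_coe, ha]
  ext i j
  fin_cases i <;> fin_cases j <;> simp [Matrix.mul_apply, Matrix.diagonal]

theorem comm01 (r : R) :
    tv (0 : Fin 3) 1 r = tv 0 2 r * tv 2 1 1 * (tv 0 2 r)⁻¹ * (tv 2 1 1)⁻¹ := by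
  rw [tv_inv, tv_inv]
  apply Subtype.ext
  simp only [Matrix.SpecialLinearGroup.coe_mul, tv01, tv02, tv21]
  ext i j
  fin_cases i <;> fin_cases j <;> simp [Matrix.mul_apply, Fin.sum_univ_three]

theorem comm10 (r : R) :
    tv (1 : Fin 3) 0 r = tv 1 2 r * tv 2 0 1 * (tv 1 2 r)⁻¹ * (tv 2 0 1)⁻¹ := by
  rw [tv_inv, tv_inv]
  apply Subtype.ext
  simp only [Matrix.SpecialLinearGroup.coe_mul, tv10, tv12, tv20]
  ext i j
  fin_cases i <;> fin_cases j <;> simp [Matrix.mul_apply, Fin.sum_univ_three]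

theorem comm21 (r : R) :
    tv (2 : Fin 3) 1 r = tv 2 0 1 * tv 0 1 r * (tv 2 0 1)⁻¹ * (tv 0 1 r)⁻¹ := by
  rw [tv_inv, tv_inv]
  apply Subtype.ext
  simp only [Matrix.SpecialLinearGroup.coe_mul, tv21, tv20, tv01]
  ext i j
  fin_cases i <;> fin_cases j <;> simp [Matrix.mul_apply, Fin.sum_univ_three]

theorem comm20 (r : R) :
    tv (2 : Fin 3) 0 r = tv 2 1 1 * tv 1 0 r * (tv 2 1 1)⁻¹ * (tv 1 0 r)⁻¹ := by
  rw [tv_inv, tv_inv]
  apply Subtype.ext
  simp only [Matrix.SpecialLinearGroup.coe_mul, tv21, tv20, tv10]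
  ext i j
  fin_cases i <;> fin_cases j <;> simp [Matrix.mul_apply, Fin.sum_univ_three]

/-- the range of an additive-to-multiplicative map as a subgroup -/
def rangeSub {A G : Type} [AddCommGroup A] [Group G] (n : A → G)
    (hn : ∀ r r', n (r + r') = n r * n r') : Subgroup G where
  carrier := Set.range n
  one_mem' := ⟨0, by simpa using hn 0 0⟩
  mul_mem' := by
    rintro _ _ ⟨r, rfl⟩ ⟨r', rfl⟩
    exact ⟨r + r', hn r r'⟩
  inv_mem' := by
    rintro _ ⟨r, rfl⟩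
    refine ⟨-r, eq_inv_of_mul_eq_one_right ?_⟩
    rw [← hn, add_neg_cancel]
    simpa using hn 0 0

theorem disp_mul {G V : Type} [Group G] [NormedAddCommGroup V] [InnerProductSpace ℂ V]
    (ρ : G →* (V ≃ₗᵢ[ℂ] V)) (ξ : V) (g h : G) :
    ‖ρ (g * h) ξ - ξ‖ ≤ ‖ρ g ξ - ξ‖ + ‖ρ h ξ - ξ‖ := by
  have e : ρ (g * h) ξ - ξ = (ρ g ξ - ξ) + ρ g (ρ h ξ - ξ) := by
    rw [map_mul, map_sub]
    simp
  rw [e]
  refine (norm_add_le _ _).trans ?_
  rw [LinearIsometryEquiv.norm_map]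

theorem disp_inv {G V : Type} [Group G] [NormedAddCommGroup V] [InnerProductSpace ℂ V]
    (ρ : G →* (V ≃ₗᵢ[ℂ] V)) (ξ : V) (g : G) : ‖ρ g⁻¹ ξ - ξ‖ = ‖ρ g ξ - ξ‖ := by
  rw [← (ρ g).norm_map, map_sub, norm_sub_rev]
  congr 2
  change (ρ g * ρ g⁻¹) ξ = ξ
  rw [← map_mul, mul_inv_cancel, map_one]
  rfl

theorem disp_comm {G V : Type} [Group G] [NormedAddCommGroup V] [InnerProductSpace ℂ V]
    (ρ : G →* (V ≃ₗᵢ[ℂ] V)) (ξ : V) (g h : G) :
    ‖ρ (g * h * g⁻¹ * h⁻¹) ξ - ξ‖ ≤ 2 * ‖ρ g ξ - ξ‖ + 2 * ‖ρ h ξ - ξ‖ := by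
  have a1 := disp_mul ρ ξ (g * h * g⁻¹) h⁻¹
  have a2 := disp_mul ρ ξ (g * h) g⁻¹
  have a3 := disp_mul ρ ξ g h
  rw [disp_inv] at a1 a2
  linarith

end S3

open S3 in
theorem kazSL3 {R : Type} [CommRing R] (t : R) (ht : 2 * t = 1)
    (hR : ∀ r : R, ∃ (k : ℕ) (m : ℤ), r = m * t ^ k)
    (a : Matrix.SpecialLinearGroup (Fin 3) R)
    (ha : (a : Matrix (Fin 3) (Fin 3) R) = Matrix.diagonal ![2, t, 1]) :
    ∃ C : ℝ, 0 ≤ C ∧ Kaz (Set.univ : Set (Matrix.SpecialLinearGroup (Fin 3) R))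
      ({g | ∃ i j, g = tv i j (1 : R)} ∪ {a}) C := by
  refine ⟨20 * (30 * 800012), by norm_num, ?_⟩
  intro V _ _ _ ρ ξ ε hε hS
  have hT : ∀ i j, ‖ρ (tv i j (1 : R)) ξ - ξ‖ ≤ ε := fun i j => hS _ (Or.inl ⟨i, j, rfl⟩)
  have hA : ‖ρ a ξ - ξ‖ ≤ ε := hS _ (Or.inr rfl)
  have hrel := relT t ht hR (n1 (R := R)) n1_add (tv 0 1 1) (tv 1 0 1) a
    (fun r => by rw [c01_1, one_mul]) (fun r => by rw [c10_1, one_mul]) (ca_1 t a ha)
  have hN1 : ∀ r : R × R, ‖ρ (n1 r) ξ - ξ‖ ≤ 100000 * ε := by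
    intro r
    refine hrel V ρ ξ ε hε ?_ _ ⟨r, rfl⟩
    intro s hs
    simp only [Set.mem_insert_iff, Set.mem_singleton_iff] at hs
    rcases hs with rfl | rfl | rfl | rfl | rfl
    · rw [n1_fst]; exact hT _ _
    · rw [n1_snd]; exact hT _ _
    · exact hT _ _
    · exact hT _ _
    · exact hA
  have b02 : ∀ r : R, ‖ρ (tv 0 2 r) ξ - ξ‖ ≤ 100000 * ε := fun r => n1_fst r ▸ hN1 _
  have b12 : ∀ r : R, ‖ρ (tv 1 2 r) ξ - ξ‖ ≤ 100000 * ε := fun r => n1_snd r ▸ hN1 _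
  have b01 : ∀ r : R, ‖ρ (tv 0 1 r) ξ - ξ‖ ≤ 200002 * ε := by
    intro r
    rw [comm01]
    linarith [disp_comm ρ ξ (tv 0 2 r) (tv 2 1 1), b02 r, hT 2 1]
  have b10 : ∀ r : R, ‖ρ (tv 1 0 r) ξ - ξ‖ ≤ 200002 * ε := by
    intro r
    rw [comm10]
    linarith [disp_comm ρ ξ (tv 1 2 r) (tv 2 0 1), b12 r, hT 2 0]
  have b21 : ∀ r : R, ‖ρ (tv 2 1 r) ξ - ξ‖ ≤ 400006 * ε := by
    intro r
    rw [comm21]
    linarith [disp_comm ρ ξ (tv 2 0 1) (tv 0 1 r), b01 r, hT 2 0]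
  have b20 : ∀ r : R, ‖ρ (tv 2 0 r) ξ - ξ‖ ≤ 400006 * ε := by
    intro r
    rw [comm20]
    linarith [disp_comm ρ ξ (tv 2 1 1) (tv 1 0 r), b10 r, hT 2 1]
  have hN2 : ∀ r : R × R, ‖ρ (n2 r) ξ - ξ‖ ≤ 800012 * ε := by
    intro r
    rw [n2]
    linarith [disp_mul ρ ξ (tv 2 0 r.1) (tv 2 1 r.2), b20 r.1, b21 r.2]
  have htr := trick (rangeSub (n1 (R := R)) n1_add) (rangeSub (n2 (R := R)) n2_add)
    (rangeSub (tv (0 : Fin 3) 1 : R → _) (tv_add 0 1))
    (rangeSub (tv (1 : Fin 3) 0 : R → _) (tv_add 1 0))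
    (by
      rintro x (⟨s, rfl⟩ | ⟨s, rfl⟩)
      · constructor
        · rintro _ ⟨r, rfl⟩
          exact ⟨_, (c01_1 s r).symm⟩
        · rintro _ ⟨r, rfl⟩
          exact ⟨_, (c01_2 s r).symm⟩
      · constructor
        · rintro _ ⟨r, rfl⟩
          exact ⟨_, (c10_1 s r).symm⟩
        · rintro _ ⟨r, rfl⟩
          exact ⟨_, (c10_2 s r).symm⟩)
    (by
      rintro x (⟨s, rfl⟩ | ⟨s, rfl⟩)
      · exact ⟨_, ⟨_, n1_fst s⟩, _, ⟨_, n2_snd 1⟩, comm01 s⟩
      · exact ⟨_, ⟨_, n1_snd s⟩, _, ⟨_, n2_fst 1⟩, comm10 s⟩)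
  have hL := htr V ρ ξ (800012 * ε) (by positivity) (by
    rintro s (⟨r, rfl⟩ | ⟨r, rfl⟩)
    · linarith [hN1 r]
    · exact hN2 r)
  intro g _
  have := decompSL3 t ht hR (fun g => ‖ρ g ξ - ξ‖) (disp_mul ρ ξ) (30 * (800012 * ε))
    (by
      intro i j r
      have h0 : ∀ i : Fin 3, ‖ρ (tv i i r) ξ - ξ‖ ≤ 30 * (800012 * ε) := by
        intro i
        rw [tv_self, map_one]
        simp only [LinearIsometryEquiv.coe_one, id_eq, sub_self, norm_zero]
        positivity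
      fin_cases i <;> fin_cases j
      · exact h0 _
      · exact (b01 r).trans (by linarith)
      · exact (b02 r).trans (by linarith)
      · exact (b10 r).trans (by linarith)
      · exact h0 _
      · exact (b12 r).trans (by linarith)
      · exact (b20 r).trans (by linarith)
      · exact (b21 r).trans (by linarith)
      · exact h0 _)
    (by
      intro k hk
      refine hL k ?_
      refine (Subgroup.closure_le _).mpr ?_ hk
      rintro x (hx | hx)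
      · exact Subgroup.mem_sup_left hx
      · exact Subgroup.mem_sup_right hx) g
  linarith

end Pool.Agent.NS
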